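import Pool.Agent.Lib_MP_f98417_co.Ab1

set_option autoImplicit false

namespace Pool.Agent.I6.Alg

section Three

variable {M A : Type} [AddCommGroup M] (S : Alg M A)

theorem half_eq_of {w x : M} (h2 : ∀ z : M, z ≠ 0 → z + z ≠ 0) (hx : x ≠ 0) (h : w + w = x) :
    S.half x = w :=
  S.half_unique h (h2 x hx)

/-- `n (2x) w = 4 n x w` -/
theorem n_two_left (h2 : ∀ z : M, z ≠ 0 → z + z ≠ 0) {x w : M} (hx : x ≠ 0) (hw : w ≠ 0) :
    S.n (x + x) w = S.n x w + S.n x w + (S.n x w + S.n x w) := by
  have inj : ∀ {p q : M}, p + p = q + q → p = q := by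
    intro p q h
    by_contra hne
    apply h2 (p - q) (sub_ne_zero.2 hne)
    have : p - q + (p - q) = (p + p) - (q + q) := by abel
    rw [this, h, sub_self]
  -- n (2x) (2w) = 2 n x w
  have key : S.n (x + x) (w + w) = S.n x w + S.n x w := by
    by_cases hxw : w = x
    · subst hxw
      rw [S.n_self (h2 w hw), S.n_self hw]
      abel
    · set y := w - x with hy
      have hy0 : y ≠ 0 := sub_ne_zero.2 hxw
      have hxy : x + y = w := by rw [hy]; abel
      have hxy0 : x + y ≠ 0 := by rw [hxy]; exact hw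
      have hxx := h2 x hx
      have hyy := h2 y hy0
      have hxy2 : (x + x) + (y + y) ≠ 0 := by
        have : (x + x) + (y + y) = (x + y) + (x + y) := by abel
        rw [this]; exact h2 _ hxy0
      have c1 := S.n_cir (b := x) hx hxx hyy hxy2
      have c2 := S.n_cir (b := x) hx hx hy0 hxy0
      set C2 := x + x + S.n (x + x) (x + x + (y + y)) with hC2
      set C := x + S.n x (x + y) with hC
      have hCne : C ≠ 0 := S.cir_ne hx hy0 hxy0
      have hC2ne : C2 ≠ 0 := S.cir_ne hxx hyy hxy2
      have e1 : S.n x C2 + S.n x C2 = S.n x C := by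
        rw [c1, S.n_two hx hxx, S.n_two hx hyy]
        have i1 := S.half_add_half (h2 _ (S.n_ne hx hx))
        have i2 := S.half_add_half (h2 _ (S.n_ne hx hy0))
        calc S.half (S.n x x) + S.half (S.n x y) + (S.half (S.n x x) + S.half (S.n x y))
            = (S.half (S.n x x) + S.half (S.n x x)) + (S.half (S.n x y) + S.half (S.n x y)) := by
              abel
          _ = S.n x x + S.n x y := by rw [i1, i2]
          _ = S.n x C := c2.symm
      have e2 : S.n x (C + C) + S.n x (C + C) = S.n x C := by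
        rw [S.n_two hx (h2 _ hCne)]
        exact S.half_add_half (h2 _ (S.n_ne hx hCne))
      have e3 : C2 = C + C := S.n_inj hx hC2ne (h2 _ hCne) (inj (e1.trans e2.symm))
      have e4 : x + x + (y + y) = w + w := by rw [← hxy]; abel
      rw [hC2, hC, e4, hxy] at e3
      have e5 : S.n (x + x) (w + w) = (x + S.n x w + (x + S.n x w)) - (x + x) := by
        rw [← e3]; abel
      rw [e5]; abel
  have h3 : S.n (x + x) (w + w) + S.n (x + x) (w + w) = S.n (x + x) w := by
    rw [S.n_two (h2 x hx) (h2 w hw)]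
    exact S.half_add_half (h2 _ (S.n_ne (h2 x hx) hw))
  rw [← h3, key]

/-- (L) -/
theorem three_L (h2 : ∀ z : M, z ≠ 0 → z + z ≠ 0) {x y : M} (hx : x ≠ 0) (hy : y ≠ 0)
    (h : S.n y x = -x) : x = y ∨ x = -y := by
  by_cases hxy : x + y = 0
  · right; exact eq_neg_of_add_eq_zero_left hxy
  left
  have h1 := S.f_comm hx hy hxy
  rw [h] at h1
  have h3 := S.n_half (b := x + y) (x := x + y) hxy (h2 _ hxy)
  rw [S.n_self hxy] at h3
  have h4 : S.n (x + y) x = S.n (x + y) (S.half (x + y)) := by
    rw [h1, h3]; abel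
  have h5 := S.n_inj hxy hx (S.half_ne (h2 _ hxy)) h4
  have h6 := S.half_add_half (h2 _ hxy)
  rw [← h5] at h6
  exact add_left_cancel h6

/-- Lemma C -/
theorem three_C (h2 : ∀ z : M, z ≠ 0 → z + z ≠ 0) (h3 : ∀ z : M, z ≠ 0 → z + z + z ≠ 0)
    {g : A → A} (hE : ∀ c, g (S.E c) = S.E (g c))
    (hF : ∀ x : M, x ≠ 0 → ∀ c, g (S.F x c) = S.F x (g c)) (a : A) :
    g a = a ∨ g a = S.E a := by
  rcases S.F_surj a (g a) with h | h | ⟨y, hy, hya⟩
  · exact Or.inl h
  · exact Or.inr h
  exfalso
  have hyy := h2 y hy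
  have h4y : y + y + (y + y) ≠ 0 := h2 _ hyy
  set p := S.F (y + y) a with hp
  -- F (4y) p = g p
  have hp4 : S.F (y + y + (y + y)) p = g p := by
    rw [hp, hF _ hyy, ← hya, S.F_F hyy hy, S.n_two_left h2 hy hy, S.n_self hy]
    congr 2
    abel
  have n4 : y + y + (y + y) ≠ y := by
    intro h
    apply h3 y hy
    have : y + y + y = y + y + (y + y) - y := by abel
    rw [this, h, sub_self]
  -- for q with F (4y) q = g q, q ≠ p : q = F (-2y) a
  have claim : ∀ q, S.F (y + y + (y + y)) q = g q → q ≠ p → q = S.F (-(y + y)) a := by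
    intro q hq hqp
    rcases S.F_surj a q with h | h | ⟨x, hx, h⟩
    · exfalso
      subst h
      exact n4 (S.F_inj q h4y hy (hq.trans hya.symm))
    · exfalso
      subst h
      rw [hE, ← hya, ← S.E_F h4y] at hq
      exact n4 (S.F_inj a h4y hy (S.E.injective hq))
    · subst h
      rw [hF x hx, ← hya, S.F_F hx hy] at hq
      have h5 := S.F_inj _ h4y (neg_ne_zero.2 (S.n_ne hx hy)) hq
      -- h5 : 4y = - n x y
      set h := S.half x with hh
      have hh0 : h ≠ 0 := S.half_ne (h2 _ hx)
      have hhx : h + h = x := S.half_add_half (h2 _ hx)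
      have h6 : S.n x y = S.n h y + S.n h y + (S.n h y + S.n h y) := by
        rw [← hhx]; exact S.n_two_left h2 hh0 hy
      have inj : ∀ {p q : M}, p + p = q + q → p = q := by
        intro p q h
        by_contra hne
        apply h2 (p - q) (sub_ne_zero.2 hne)
        have : p - q + (p - q) = (p + p) - (q + q) := by abel
        rw [this, h, sub_self]
      have h7 : S.n h y = -y := by
        apply inj
        apply inj
        rw [← h6]
        have : S.n x y = -(y + y + (y + y)) := by rw [h5, neg_neg]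
        rw [this]; abel
      rcases S.three_L h2 hy hh0 h7 with h8 | h8
      · exfalso
        apply hqp
        rw [hp, ← hhx, ← h8]
      · congr 1
        rw [← hhx, h8]
        simp
  have cE : S.E p = S.F (-(y + y)) a := by
    apply claim
    · rw [← S.E_F h4y, hp4, hE]
    · exact S.E_ne p
  have cg : g p = S.F (-(y + y)) a := by
    apply claim
    · rw [← hF _ h4y, hp4]
    · rw [← hp4]; exact S.F_ne p h4y
  have h9 : S.F (y + y + (y + y)) p = S.E p := by rw [hp4, cg, cE]
  exact S.F_ne_E p h4y h9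

include S in
theorem no_two_three [Nonempty A] (h2 : ∀ z : M, z ≠ 0 → z + z ≠ 0)
    (h3 : ∀ z : M, z ≠ 0 → z + z + z ≠ 0) {b : M} (hb : b ≠ 0) : False := by
  obtain ⟨a⟩ := ‹Nonempty A›
  have inj : ∀ {p q : M}, p + p = q + q → p = q := by
    intro p q h
    by_contra hne
    apply h2 (p - q) (sub_ne_zero.2 hne)
    have : p - q + (p - q) = (p + p) - (q + q) := by abel
    rw [this, h, sub_self]
  have neg_ne : ∀ {x : M}, x ≠ 0 → x ≠ -x := by
    intro x hx h
    apply h2 x hx
    nth_rewrite 1 [h]
    simp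
  have nn : ∀ {x : M}, x ≠ 0 → ∀ {z : M}, z ≠ 0 → S.n x (S.n x z) = z :=
    fun hx _ hz => S.n_n hx hz
  -- F x ^ 2 = 1
  have FF : ∀ {x : M}, x ≠ 0 → ∀ c, S.F x (S.F x c) = c := by
    intro x hx c
    have hC := S.three_C h2 h3 (g := fun c => S.F x (S.F x c))
      (fun c => by rw [S.E_F hx, S.E_F hx])
      (fun z hz c => by
        show S.F x (S.F x (S.F z c)) = S.F z (S.F x (S.F x c))
        have hn := S.n_ne hx hz
        rw [S.F_F hx hz, S.F_F hx (neg_ne_zero.2 hn), S.n_neg hx hn, nn hx hz, neg_neg]) c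
    rcases hC with h | h
    · exact h
    · exfalso
      rw [← S.F_neg_F hx c] at h
      exact neg_ne hx (S.F_inj _ hx (neg_ne_zero.2 hx) h)
  have EE : ∀ c, S.E (S.E c) = c := by
    intro c
    rw [← S.F_neg_F hb c, S.E_F (neg_ne_zero.2 hb), S.E_F hb, ← S.F_F_neg hb c,
      FF hb, FF (neg_ne_zero.2 hb)]
  -- n b (2 z), twice
  have n2 : ∀ {x z : M}, x ≠ 0 → z ≠ 0 → S.n x (z + z) + S.n x (z + z) = S.n x z := by
    intro x z hx hz
    rw [S.n_two hx (h2 z hz)]
    exact S.half_add_half (h2 _ (S.n_ne hx hz))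
  have n4 : ∀ {x z : M}, x ≠ 0 → z ≠ 0 →
      S.n x (z + z + (z + z)) + S.n x (z + z + (z + z)) +
        (S.n x (z + z + (z + z)) + S.n x (z + z + (z + z))) = S.n x z := by
    intro x z hx hz
    rw [n2 hx (h2 z hz), n2 hx hz]
  -- g intertwining, c fixed
  -- theta = F (2b) F b
  have hbb := h2 b hb
  have th : ∀ {z : M}, z ≠ 0 → ∀ c, S.F (b + b) (S.F b (S.F z c)) =
      S.F (z + z + (z + z)) (S.F (b + b) (S.F b c)) := by
    intro z hz c
    have hn := S.n_ne hb hz
    rw [S.F_F hb hz, S.F_F hbb (neg_ne_zero.2 hn), S.n_neg hbb hn, neg_neg,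
      S.n_two_left h2 hb hn, nn hb hz]
  -- theta a ∈ {a, E a}
  have tha : S.F (b + b) (S.F b a) = a ∨ S.F (b + b) (S.F b a) = S.E a := by
    rcases S.F_surj a (S.F (b + b) (S.F b a)) with h | h | ⟨y, hy, hya⟩
    · exact Or.inl h
    · exact Or.inr h
    exfalso
    set h := S.half y with hh
    have hh0 : h ≠ 0 := S.half_ne (h2 _ hy)
    have hhy : h + h = y := S.half_add_half (h2 _ hy)
    have hC := S.three_C h2 h3 (g := fun c => S.F h (S.F y (S.F (b + b) (S.F b c))))
      (fun c => by rw [S.E_F hh0, S.E_F hy, S.E_F hbb, S.E_F hb])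
      (fun z hz c => by
        show S.F h (S.F y (S.F (b + b) (S.F b (S.F z c)))) =
          S.F z (S.F h (S.F y (S.F (b + b) (S.F b c))))
        have h4z : z + z + (z + z) ≠ 0 := h2 _ (h2 z hz)
        have hn := S.n_ne hy h4z
        rw [th hz, S.F_F hy h4z, S.F_F hh0 (neg_ne_zero.2 hn), S.n_neg hh0 hn, neg_neg]
        congr 1
        -- n h (n y (4z)) = z
        have e1 : S.n y (z + z + (z + z)) = S.n h z := by
          have : S.n y (z + z + (z + z)) = S.n (h + h) (z + z + (z + z)) := by rw [hhy]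
          rw [this, S.n_two_left h2 hh0 h4z, n4 hh0 hz]
        rw [e1, nn hh0 hz]) a
    simp only [← hya, FF hy] at hC
    rcases hC with hC | hC
    · exact S.F_ne a hh0 hC
    · exact S.F_ne_E a hh0 hC
  -- theta'
  obtain ⟨t, htE, htF, hta⟩ : ∃ t : A → A, (∀ c, t (S.E c) = S.E (t c)) ∧
      (∀ {z : M}, z ≠ 0 → ∀ c, t (S.F z c) = S.F (z + z + (z + z)) (t c)) ∧ t a = a := by
    rcases tha with h | h
    · refine ⟨fun c => S.F (b + b) (S.F b c), fun c => ?_, fun hz c => th hz c, h⟩
      rw [S.E_F hbb, S.E_F hb]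
    · refine ⟨fun c => S.E (S.F (b + b) (S.F b c)), fun c => ?_, fun {z} hz c => ?_, ?_⟩
      · show S.E (S.F (b + b) (S.F b (S.E c))) = S.E (S.E (S.F (b + b) (S.F b c)))
        rw [← S.E_F hb c, ← S.E_F hbb]
      · show S.E (S.F (b + b) (S.F b (S.F z c))) = _
        rw [th hz, S.E_F (h2 _ (h2 z hz))]
      · show S.E (S.F (b + b) (S.F b a)) = a
        rw [h, EE]
  -- 5 x = 0 for all x ≠ 0
  have five : ∀ {x : M}, x ≠ 0 → x + x + (x + x) = -x := by
    intro x hx
    have h4x : x + x + (x + x) ≠ 0 := h2 _ (h2 x hx)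
    have hC := S.three_C h2 h3 (g := fun c => S.F x (t (S.F x (t c))))
      (fun c => by
        show S.F x (t (S.F x (t (S.E c)))) = S.E (S.F x (t (S.F x (t c))))
        rw [htE, ← S.E_F hx, htE, ← S.E_F hx])
      (fun z hz c => by
        show S.F x (t (S.F x (t (S.F z c)))) = S.F z (S.F x (t (S.F x (t c))))
        have h4z : z + z + (z + z) ≠ 0 := h2 _ (h2 z hz)
        have hn := S.n_ne hx h4z
        have hn' : -(S.n x (z + z + (z + z))) ≠ 0 := neg_ne_zero.2 hn
        rw [htF hz, S.F_F hx h4z, htF hn', S.F_F hx (h2 _ (h2 _ hn'))]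
        congr 1
        have e1 : -(S.n x (z + z + (z + z))) + -(S.n x (z + z + (z + z))) +
            (-(S.n x (z + z + (z + z))) + -(S.n x (z + z + (z + z)))) = -(S.n x z) := by
          rw [← n4 hx hz]; abel
        rw [e1, S.n_neg hx (S.n_ne hx hz), nn hx hz, neg_neg]) a
    have e2 : S.F x (t (S.F x (t a))) = S.F x (S.F (x + x + (x + x)) a) := by
      rw [hta, htF hx, hta]
    simp only [e2] at hC
    rcases hC with hC | hC
    · exfalso
      have e3 : S.F (x + x + (x + x)) a = S.F x a := by
        rw [← FF hx (S.F (x + x + (x + x)) a), hC]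
      have e4 := S.F_inj a h4x hx e3
      apply h3 x hx
      have : x + x + x = x + x + (x + x) - x := by abel
      rw [this, e4, sub_self]
    · have e3 : S.F (x + x + (x + x)) a = S.F (-x) a := by
        rw [← FF hx (S.F (x + x + (x + x)) a), hC, ← S.F_F_neg hx, FF hx]
      exact S.F_inj a h4x (neg_ne_zero.2 hx) e3
  have htF' : ∀ {z : M}, z ≠ 0 → ∀ c, t (S.F z c) = S.F (-z) (t c) := by
    intro z hz c
    rw [htF hz, five hz]
  -- final contradiction
  set w := b + b with hw
  have hbw : b ≠ w := by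
    intro h
    apply hb
    rw [hw] at h
    exact left_eq_add.1 h
  have hwb : b ≠ -w := by
    intro h
    apply h3 b hb
    have : b + b + b = w + b := by rw [hw]
    rw [this, h]
    simp
  rcases S.F_surj a (S.F w (S.F b a)) with h | h | ⟨z, hz, h⟩
  · -- F w F b a = a
    apply hbw
    apply S.F_inj a hb hbb
    rw [← FF hbb (S.F b a), h]
  · apply hwb
    apply S.F_inj a hb (neg_ne_zero.2 hbb)
    rw [← FF hbb (S.F b a), h, ← S.F_F_neg hbb, FF hbb]
  · -- F b (t (F b (F w (F b a)))) computed in two ways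
    have l1 : S.F b (t (S.F b (S.F w (S.F b a)))) = S.F (-w) (S.F b a) := by
      have hn := S.n_ne hb hbb
      rw [S.F_F hb hbb, FF hb, htF' (neg_ne_zero.2 hn), hta, neg_neg, S.F_F hb hn, nn hb hbb]
    have l2 : S.F b (t (S.F b (S.F w (S.F b a)))) = S.F w (S.F b a) := by
      rw [← h, htF' hb, htF' hz, hta, S.F_F_neg hb, ← S.F_F_neg hz, FF (neg_ne_zero.2 hz)]
    exact neg_ne hbb (S.F_inj _ hbb (neg_ne_zero.2 hbb) (l2.symm.trans l1))

end Three

section Final

variable {M A : Type} [AddGroup M] (S : Alg M A)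

include S in
/-- Main theorem: if the root group is commutative and has at least two nonzero elements then it
has exponent three. -/
theorem abelian_three [Nonempty A] (hab : ∀ x y : M, x + y = y + x)
    (hne : ∃ x y : M, x ≠ 0 ∧ y ≠ 0 ∧ x ≠ y) : ∀ z : M, z + z + z = 0 := by
  obtain ⟨u, v, hu, hv, huv⟩ := hne
  let inst : AddCommGroup M := { ‹AddGroup M› with add_comm := hab }
  have not2 : ¬ ∀ z : M, z + z = 0 := fun h => S.exp_two_false h hu hv huv
  have h2 : ∀ z : M, z ≠ 0 → z + z ≠ 0 := by
    intro t ht h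
    let Y : AddSubgroup M :=
      { carrier := {z | z + z = 0}
        zero_mem' := add_zero 0
        add_mem' := by
          intro x y hx hy
          show x + y + (x + y) = 0
          have : x + y + (x + y) = (x + x) + (y + y) := by abel
          rw [this, hx, hy, add_zero]
        neg_mem' := by
          intro x hx
          show -x + -x = 0
          rw [← neg_add_rev, show x + x = 0 from hx, neg_zero] }
    rcases S.char_simple Y
      (fun y hy g => by
        have : g + y + -g = y := by abel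
        rw [this]; exact hy)
      (fun b c y hb hc hy hyY => S.n_invol hb (S.n_ne hc hy) (S.n_invol hc hy hyY))
      ⟨t, h, ht⟩ with h' | h'
    · exact not2 h'
    · exact not2 h'
  by_cases h3 : ∀ z : M, z ≠ 0 → z + z + z ≠ 0
  · exact (S.no_two_three h2 h3 hu).elim
  · push Not at h3
    obtain ⟨t, ht, ht3⟩ := h3
    let Y : AddSubgroup M :=
      { carrier := {z | z + z + z = 0}
        zero_mem' := by show (0:M) + 0 + 0 = 0; simp
        add_mem' := by
          intro x y hx hy
          show x + y + (x + y) + (x + y) = 0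
          have : x + y + (x + y) + (x + y) = (x + x + x) + (y + y + y) := by abel
          rw [this, hx, hy, add_zero]
        neg_mem' := by
          intro x hx
          show -x + -x + -x = 0
          have : -x + -x + -x = -(x + x + x) := by abel
          rw [this, show x + x + x = 0 from hx, neg_zero] }
    rcases S.char_simple Y
      (fun y hy g => by
        have : g + y + -g = y := by abel
        rw [this]; exact hy)
      (fun b c y hb hc hy hyY => by
        show S.n b (S.n c y) + S.n b (S.n c y) + S.n b (S.n c y) = 0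
        rw [← S.phi_apply hb hc hy, ← map_add, ← map_add, show y + y + y = 0 from hyY, map_zero])
      ⟨t, ht3, ht⟩ with h' | h'
    · exact h'
    · exact absurd h' not2

end Final

end Pool.Agent.I6.Alg
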