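import Pool.Agent.Lib_MP_f98417_co.Simple

set_option autoImplicit false

namespace Pool.Agent.I6.Alg

section General

variable {M A : Type} [AddGroup M] (S : Alg M A)

theorem F_neg_F {x : M} (hx : x ≠ 0) (c : A) : S.F (-x) (S.F x c) = S.E c := by
  have h := S.F_neg_mul hx
  rw [← h]; rfl

theorem F_F_neg {x : M} (hx : x ≠ 0) (c : A) : S.F x (S.F (-x) c) = S.E c := by
  have h := S.F_neg_F (neg_ne_zero.2 hx) c
  rwa [neg_neg] at h

theorem E_F {x : M} (hx : x ≠ 0) (c : A) : S.E (S.F x c) = S.F x (S.E c) := by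
  rw [← S.F_F_neg hx (S.F x c), S.F_neg_F hx]

theorem F_F {b z : M} (hb : b ≠ 0) (hz : z ≠ 0) (c : A) :
    S.F b (S.F z c) = S.F (-(S.n b z)) (S.F b c) := by
  have h := S.F_conj hb hz
  have h2 : (S.F b * S.F z) c = (S.F (-(S.n b z)) * S.F b) c := by rw [h]
  exact h2

/-- a permutation commuting with everything which has a fixed point is trivial -/
theorem central_one {g : A → A} (hE : ∀ c, g (S.E c) = S.E (g c))
    (hF : ∀ x : M, x ≠ 0 → ∀ c, g (S.F x c) = S.F x (g c)) {a : A} (ha : g a = a) :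
    ∀ b, g b = b := by
  intro b
  rcases S.F_surj a b with rfl | rfl | ⟨x, hx, rfl⟩
  · exact ha
  · rw [hE, ha]
  · rw [hF x hx, ha]

end General

section Comm

variable {M A : Type} [AddCommGroup M] (S : Alg M A)

theorem cir_comm {x y : M} (hx : x ≠ 0) (hy : y ≠ 0) (hxy : x + y ≠ 0) :
    x + S.n x (x + y) = y + S.n y (x + y) := by
  have hyx : y + x ≠ 0 := by rwa [add_comm]
  have h1 := S.n_cir (b := x) hx hx hy hxy
  have h2 := S.n_cir (b := x) hx hy hx hyx
  have h3 : S.n x (x + S.n x (x + y)) = S.n x (y + S.n y (y + x)) := by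
    rw [h1, h2, add_comm]
  have := S.n_inj hx (S.cir_ne hx hy hxy) (S.cir_ne hy hx hyx) h3
  rw [this, add_comm y x]

theorem n_neg_eq {y z : M} (hy : y ≠ 0) (hz : z ≠ 0) : S.n (-y) z = S.n y z := by
  by_cases h : z = y
  · subst h
    rw [S.n_neg_self hy, S.n_self hy]
  · have hx : z - y ≠ 0 := sub_ne_zero.2 h
    have hzz : z - y + y ≠ 0 := by simpa using hz
    have h1 := S.cir_comm hx hy hzz
    have h2 := S.cir_eq hx hy hzz
    rw [h1, sub_add_cancel, add_comm] at h2
    exact (add_right_cancel h2).symm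

theorem n_n {y z : M} (hy : y ≠ 0) (hz : z ≠ 0) : S.n y (S.n y z) = z := by
  rw [← S.n_neg_eq hy (S.n_ne hy hz), S.n_inv hy hz]

/-- (f) for commutative `M` -/
theorem f_comm {b c : M} (hb : b ≠ 0) (hc : c ≠ 0) (h : b + c ≠ 0) :
    S.n (b + c) b = -b - c - c + S.n c b := by
  rw [S.n_add_left hb hc h]
  abel

end Comm

section Two

variable {M A : Type} [AddCommGroup M] (S : Alg M A)

/-- (f) in exponent two -/
theorem two_f (h2 : ∀ z : M, z + z = 0) {b c : M} (hb : b ≠ 0) (hc : c ≠ 0) (h : b ≠ c) :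
    S.n (b + c) b = b + S.n c b := by
  have neg : ∀ z : M, -z = z := fun z => neg_eq_of_add_eq_zero_left (h2 z)
  have hbc : b + c ≠ 0 := by
    intro h'
    apply h
    have := eq_neg_of_add_eq_zero_left h'
    rwa [neg] at this
  rw [S.f_comm hb hc hbc, neg b]
  have : b - c - c + S.n c b = b + S.n c b - (c + c) := by abel
  rw [this, h2, sub_zero]

theorem two_L (h2 : ∀ z : M, z + z = 0) {x y : M} (hx : x ≠ 0) (hy : y ≠ 0) (h : x ≠ y) :
    S.n x y ≠ y := by
  have neg : ∀ z : M, -z = z := fun z => neg_eq_of_add_eq_zero_left (h2 z)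
  have hxy : x + y ≠ 0 := by
    intro h'
    apply h
    have := eq_neg_of_add_eq_zero_left h'
    rwa [neg] at this
  have hne : y ≠ x + y := by
    intro h'
    apply hx
    have : x + y = 0 + y := by rw [zero_add]; exact h'.symm
    exact add_right_cancel this
  have h1 := S.two_f h2 hy hxy hne
  have h3 : y + (x + y) = x := by
    have : y + (x + y) = x + (y + y) := by abel
    rw [this, h2, add_zero]
  rw [h3] at h1
  rw [h1]
  intro h4
  apply S.n_ne hxy hy
  simpa using h4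

theorem two_FF (h2 : ∀ z : M, z + z = 0) {x : M} (hx : x ≠ 0) (c : A) :
    S.F x (S.F x c) = S.E c := by
  have neg : ∀ z : M, -z = z := fun z => neg_eq_of_add_eq_zero_left (h2 z)
  have h := S.F_neg_F hx c
  rwa [neg] at h

theorem two_conj (h2 : ∀ z : M, z + z = 0) {b z : M} (hb : b ≠ 0) (hz : z ≠ 0) (c : A) :
    S.F b (S.F z c) = S.F (S.n b z) (S.F b c) := by
  have neg : ∀ z : M, -z = z := fun z => neg_eq_of_add_eq_zero_left (h2 z)
  have h := S.F_F hb hz c
  rwa [neg] at h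

theorem two_n_self (h2 : ∀ z : M, z + z = 0) {b : M} (hb : b ≠ 0) : S.n b b = b := by
  have neg : ∀ z : M, -z = z := fun z => neg_eq_of_add_eq_zero_left (h2 z)
  rw [S.n_self hb, neg]

/-- `E * E = 1` is impossible -/
theorem two_E2 (h2 : ∀ z : M, z + z = 0) {y : M} (hy : y ≠ 0) (a : A) :
    S.E (S.E a) ≠ a := by
  intro hEa
  have hE : ∀ c, S.E (S.E c) = c :=
    S.central_one (g := fun c => S.E (S.E c)) (fun c => rfl)
      (fun x hx c => by rw [S.E_F hx, S.E_F hx]) hEa
  have h1 : S.E (S.F y a) ≠ a := by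
    intro h
    apply S.F_ne_E a hy
    rw [← h, hE]
    exact h.symm ▸ rfl
  have h1' : S.E (S.F y a) ≠ S.E a := by
    intro h
    exact S.F_ne a hy (S.E.injective h)
  rcases S.F_surj a (S.E (S.F y a)) with h | h | ⟨y', hy', h⟩
  · exact h1 h
  · exact h1' h
  have hyy : y' ≠ y := by
    rintro rfl
    exact S.E_ne _ h.symm
  -- k = F y * F y' fixes a
  have k1 : S.F y (S.F y' a) = a := by
    rw [h, ← S.E_F hy, S.two_FF h2 hy, hE]
  -- F y F y' F y a = F y a
  have k2 : S.F y (S.F y' (S.F y a)) = S.F y a := by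
    -- F y' (F y a) = a, since F y' F y' a = E a, F y' a = E F y a
    have h5 : S.F y' (S.F y a) = a := by
      apply S.E.injective
      rw [S.E_F hy', ← h, S.two_FF h2 hy']
    rw [h5]
  have k3 : S.F y (S.F y' (S.F y a)) = S.F (S.n y (S.n y' y)) a := by
    rw [S.two_conj h2 hy' hy, S.two_conj h2 hy (S.n_ne hy' hy), k1]
  have k4 : S.n y (S.n y' y) = y := by
    apply S.F_inj a (S.n_ne hy (S.n_ne hy' hy)) hy
    rw [← k3, k2]
  have k5 : S.n y' y = y := by
    have := congrArg (S.n y) k4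
    rw [S.n_n hy (S.n_ne hy' hy), S.two_n_self h2 hy] at this
    exact this
  exact S.two_L h2 hy' hy hyy k5

theorem two_E3 (h2 : ∀ z : M, z + z = 0) {y : M} (hy : y ≠ 0) (a : A) :
    S.E (S.E (S.E a)) = a := by
  have key : ∀ a : A, S.E (S.E (S.E a)) = a := by
    intro a
    rcases S.F_surj a (S.E (S.E a)) with h | h | ⟨x, hx, h⟩
    · exact absurd h (S.two_E2 h2 hy a)
    · exact absurd (S.E.injective h) (S.E_ne a)
    · -- F x a = E E a, so F x F x a = F x (E E a) = E E (F x a) = E E E E a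
      have h3 := S.two_FF h2 hx a
      rw [h, ← S.E_F hx, ← S.E_F hx, h] at h3
      exact S.E.injective h3
  exact key a

/-- the core computation -/
theorem two_core (h2 : ∀ z : M, z + z = 0) {x1 x2 x3 : M} (h1 : x1 ≠ 0) (h20 : x2 ≠ 0)
    (h3 : x3 ≠ 0) (a : A) (e2 : S.F x2 a = S.E (S.F x1 a))
    (e3 : S.F x3 a = S.E (S.E (S.F x1 a))) : x1 + x2 + x3 = 0 := by
  have neg : ∀ z : M, -z = z := fun z => neg_eq_of_add_eq_zero_left (h2 z)
  have E3 := fun c => S.two_E3 h2 h1 c
  have e1 : S.F x1 a = S.E (S.F x3 a) := by rw [e3, E3]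
  have e3' : S.F x3 a = S.E (S.F x2 a) := by rw [e2, e3]
  -- general cyclic rule
  have rule : ∀ {u v w : M}, u ≠ 0 → v ≠ 0 → w ≠ 0 → S.F v a = S.E (S.F u a) →
      S.F u a = S.E (S.F w a) → S.n u v = w := by
    intro u v w hu hv hw huv hwu
    apply S.F_inj (S.F u a) (S.n_ne hu hv) hw
    rw [← S.two_conj h2 hu hv, huv, ← S.E_F hu, S.two_FF h2 hu]
    rw [hwu, ← S.E_F hw, S.two_FF h2 hw]
  have r12 : S.n x1 x2 = x3 := rule h1 h20 h3 e2 e1
  have r23 : S.n x2 x3 = x1 := rule h20 h3 h1 e3' e2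
  have r31 : S.n x3 x1 = x2 := rule h3 h1 h20 e1 e3'
  have r21 : S.n x2 x1 = x3 := by
    rw [← r23, S.n_n h20 h3]
  have hne12 : x1 ≠ x2 := by
    rintro rfl
    exact S.E_ne _ e2.symm
  have hne13 : x1 ≠ x3 := by
    rintro rfl
    exact S.E_ne _ e1.symm
  have hne23 : x2 ≠ x3 := by
    rintro rfl
    exact S.E_ne _ e3'.symm
  have addne : ∀ {x y : M}, x ≠ y → x + y ≠ 0 := by
    intro x y h h'
    apply h
    have := eq_neg_of_add_eq_zero_left h'
    rwa [neg] at this
  have f1 : S.n (x1 + x2) x1 = x1 + x3 := by rw [S.two_f h2 h1 h20 hne12, r21]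
  have f2 : S.n (x1 + x2) x2 = x2 + x3 := by
    rw [add_comm x1 x2, S.two_f h2 h20 h1 hne12.symm, r12]
  have f3 := S.n_add (b := x1 + x2) (addne hne12) h1 h20 (addne hne12)
  rw [S.two_n_self h2 (addne hne12), f1, f2] at f3
  have f4 : x1 + x3 + (x2 + x3) = x1 + x2 := by
    have : x1 + x3 + (x2 + x3) = x1 + x2 + (x3 + x3) := by abel
    rw [this, h2, add_zero]
  rw [f4] at f3
  -- f3 : x1 + x2 = x1 + x3 + n (x1+x3) (x1+x2)
  have f5 : S.n (x1 + x3) x1 = x1 + x2 := by rw [S.two_f h2 h1 h3 hne13, r31]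
  have f6 : S.n (x1 + x3) (x1 + x2) = x1 := by
    rw [← f5, S.n_n (addne hne13) h1]
  rw [f6] at f3
  -- x1 + x2 = x1 + x3 + x1
  have f7 : x1 + x2 + x3 = (x1 + x1) + (x3 + x3) := by rw [f3]; abel
  rw [f7, h2, h2, add_zero]

include S in
theorem exp_two_false [Nonempty A] (h2 : ∀ z : M, z + z = 0) {u v : M} (hu : u ≠ 0)
    (hv : v ≠ 0) (huv : u ≠ v) : False := by
  have neg : ∀ z : M, -z = z := fun z => neg_eq_of_add_eq_zero_left (h2 z)
  have addne : ∀ {x y : M}, x ≠ y → x + y ≠ 0 := by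
    intro x y h h'
    apply h
    have := eq_neg_of_add_eq_zero_left h'
    rwa [neg] at this
  have E3 := fun c => S.two_E3 h2 hu c
  have E2 := fun c => S.two_E2 h2 hu c
  obtain ⟨a⟩ := ‹Nonempty A›
  obtain ⟨e, he, hFe⟩ : ∃ e : M, e ≠ 0 ∧ S.F e a = S.E (S.E a) := by
    rcases S.F_surj a (S.E (S.E a)) with h | h | h
    · exact absurd h (E2 a)
    · exact absurd (S.E.injective h) (S.E_ne a)
    · exact h
  -- (star)
  have star : ∀ {x : M}, x ≠ 0 → S.F (S.n x e) (S.F x a) = S.E (S.E (S.F x a)) := by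
    intro x hx
    rw [← S.two_conj h2 hx he, hFe, S.E_F hx, S.E_F hx]
  have same : ∀ {x y : M}, x ≠ 0 → y ≠ 0 → S.F y a = S.E (S.F x a) → S.n x e = S.n y e := by
    intro x y hx hy h
    apply S.F_inj (S.F y a) (S.n_ne hx he) (S.n_ne hy he)
    rw [star hy, h, ← S.E_F (S.n_ne hx he), star hx]
  have conv : ∀ {x y : M}, x ≠ 0 → y ≠ 0 → S.n x e = S.n y e →
      S.F y a = S.F x a ∨ S.F y a = S.E (S.F x a) ∨ S.F y a = S.E (S.E (S.F x a)) := by
    intro x y hx hy h
    rcases S.F_surj (S.F x a) (S.F y a) with h' | h' | ⟨w, hw, h'⟩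
    · exact Or.inl h'
    · exact Or.inr (Or.inl h')
    · right; right
      have s1 := star hx
      have s2 := star hy
      rw [← h] at s2
      have hs := S.n_ne hx he
      rw [← h', S.two_conj h2 hs hw, s1, ← S.E_F (S.n_ne hs hw), ← S.E_F (S.n_ne hs hw)] at s2
      have s3 := S.E.injective (S.E.injective s2)
      have s4 := S.F_inj _ (S.n_ne hs hw) hw s3
      have s5 : S.n x e = w := by
        by_contra hne
        exact S.two_L h2 hs hw hne s4
      rw [← h', ← s5, s1]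
  have three : ∀ {x y z : M}, x ≠ 0 → y ≠ 0 → z ≠ 0 → x ≠ y → x ≠ z → y ≠ z →
      S.n x e = S.n y e → S.n x e = S.n z e → x + y + z = 0 := by
    intro x y z hx hy hz hxy hxz hyz h1 h3
    rcases conv hx hy h1 with c1 | c1 | c1
    · exact absurd (S.F_inj a hy hx c1).symm hxy
    · rcases conv hx hz h3 with c2 | c2 | c2
      · exact absurd (S.F_inj a hz hx c2).symm hxz
      · exact absurd (S.F_inj a hy hz (c1.trans c2.symm)) hyz
      · exact S.two_core h2 hx hy hz a c1 c2
    · rcases conv hx hz h3 with c2 | c2 | c2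
      · exact absurd (S.F_inj a hz hx c2).symm hxz
      · have := S.two_core h2 hx hz hy a c2 c1
        rw [add_right_comm] at this
        exact this
      · exact absurd (S.F_inj a hy hz (c1.trans c2.symm)) hyz
  -- a nonzero element different from e
  obtain ⟨x, hx, hxe⟩ : ∃ x : M, x ≠ 0 ∧ x ≠ e := by
    by_cases h : u = e
    · exact ⟨v, hv, fun h' => huv (h.trans h'.symm)⟩
    · exact ⟨u, hu, h⟩
  have hs : S.n x e ≠ e := S.two_L h2 hx he hxe
  have hxE : S.F x a ≠ S.E (S.E a) := by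
    intro h
    exact hxe (S.F_inj a hx he (h.trans hFe.symm))
  obtain ⟨y, hy, hFy⟩ : ∃ y : M, y ≠ 0 ∧ S.F y a = S.E (S.F x a) := by
    rcases S.F_surj a (S.E (S.F x a)) with h | h | h
    · exfalso
      apply hxE
      apply S.E.injective
      rw [h, E3]
    · exact absurd (S.E.injective h) (S.F_ne a hx)
    · exact h
  obtain ⟨z, hz, hFz⟩ : ∃ z : M, z ≠ 0 ∧ S.F z a = S.E (S.E (S.F x a)) := by
    rcases S.F_surj a (S.E (S.E (S.F x a))) with h | h | h
    · exfalso
      apply S.F_ne_E a hx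
      apply S.E.injective
      apply S.E.injective
      rw [h, E3]
    · exfalso
      apply hxE
      apply S.E.injective
      rw [S.E.injective h, E3]
    · exact h
  have hxy : x ≠ y := by
    rintro rfl
    exact S.E_ne _ hFy.symm
  have hyz : y ≠ z := by
    rintro rfl
    rw [hFy] at hFz
    exact S.E_ne _ hFz.symm
  have hxz : x ≠ z := by
    rintro rfl
    exact E2 _ hFz.symm
  have nxy : S.n x e = S.n y e := same hx hy hFy
  have nyz : S.n y e = S.n z e := same hy hz (by rw [hFz, hFy])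
  have sum1 : x + y + z = 0 := S.two_core h2 hx hy hz a hFy hFz
  have hye : y ≠ e := by
    intro h
    apply hs
    rw [nxy, h, S.two_n_self h2 he]
  have hze : z ≠ e := by
    intro h
    apply hs
    rw [nxy, nyz, h, S.two_n_self h2 he]
  have ex : ∀ {t : M}, t ≠ 0 → t ≠ e → S.n (e + t) e = e + S.n t e := by
    intro t ht hte
    exact S.two_f h2 he ht hte.symm
  have sum2 : (e + x) + (e + y) + (e + z) = 0 := by
    apply three (addne hxe.symm) (addne hye.symm) (addne hze.symm)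
    · intro h; exact hxy (add_left_cancel h)
    · intro h; exact hxz (add_left_cancel h)
    · intro h; exact hyz (add_left_cancel h)
    · rw [ex hx hxe, ex hy hye, nxy]
    · rw [ex hx hxe, ex hz hze, nxy, nyz]
  apply he
  have : e = (e + x) + (e + y) + (e + z) - (x + y + z) - (e + e) := by abel
  rw [this, sum1, sum2, h2]
  simp

end Two

end Pool.Agent.I6.Alg
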