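import Pool.Agent.Lib_MP_f98417_co.Defs

set_option autoImplicit false

namespace Pool.Agent.I6.Alg

variable {M A : Type} [AddGroup M] (S : Alg M A)

theorem n_inv' {b z : M} (hb : b ≠ 0) (hz : z ≠ 0) : S.n b (S.n (-b) z) = z := by
  have h := S.n_inv (b := -b) (neg_ne_zero.2 hb) hz
  rwa [neg_neg] at h

theorem n_inj {b x y : M} (hb : b ≠ 0) (hx : x ≠ 0) (hy : y ≠ 0) (h : S.n b x = S.n b y) :
    x = y := by
  rw [← S.n_inv hb hx, h, S.n_inv hb hy]

theorem n_self_neg {b : M} (hb : b ≠ 0) : S.n b (-b) = b := by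
  rw [S.n_neg hb hb, S.n_self hb, neg_neg]

theorem n_neg_self {b : M} (hb : b ≠ 0) : S.n (-b) b = -b := by
  have h := S.n_self_neg (neg_ne_zero.2 hb)
  rwa [neg_neg] at h

theorem n_add_ne {b x y : M} (hb : b ≠ 0) (hx : x ≠ 0) (hy : y ≠ 0) (hxy : x + y ≠ 0) :
    S.n b x + S.n b y ≠ 0 := by
  intro h
  have h1 : S.n b y = S.n b (-x) := by
    rw [S.n_neg hb hx]
    exact (neg_eq_of_add_eq_zero_right h).symm
  have h2 := S.n_inj hb hy (neg_ne_zero.2 hx) h1
  apply hxy
  rw [h2, add_neg_cancel]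

/-- the additive automorphism `n b ∘ n c` (extended by `0 ↦ 0`) -/
noncomputable def phi {b c : M} (hb : b ≠ 0) (hc : c ≠ 0) : M ≃+ M := by
  classical
  exact
  { toFun := fun z => if z = 0 then 0 else S.n b (S.n c z)
    invFun := fun z => if z = 0 then 0 else S.n (-c) (S.n (-b) z)
    left_inv := by
      intro z
      by_cases hz : z = 0
      · simp [hz]
      · have h1 : S.n c z ≠ 0 := S.n_ne hc hz
        have h2 : S.n b (S.n c z) ≠ 0 := S.n_ne hb h1
        simp only [hz, h2, if_false]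
        rw [S.n_inv hb h1, S.n_inv hc hz]
    right_inv := by
      intro z
      by_cases hz : z = 0
      · simp [hz]
      · have h1 : S.n (-b) z ≠ 0 := S.n_ne (neg_ne_zero.2 hb) hz
        have h2 : S.n (-c) (S.n (-b) z) ≠ 0 := S.n_ne (neg_ne_zero.2 hc) h1
        simp only [hz, h2, if_false]
        rw [S.n_inv' hc h1, S.n_inv' hb hz]
    map_add' := by
      intro x y
      by_cases hx : x = 0
      · simp [hx]
      by_cases hy : y = 0
      · simp [hy]
      have hcx : S.n c x ≠ 0 := S.n_ne hc hx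
      have hcy : S.n c y ≠ 0 := S.n_ne hc hy
      by_cases hxy : x + y = 0
      · have : y = -x := (neg_eq_of_add_eq_zero_right hxy).symm
        simp only [hx, hy, hxy, if_true, if_false]
        rw [this, S.n_neg hc hx, S.n_neg hb hcx, add_neg_cancel]
      · simp only [hx, hy, hxy, if_false]
        have hs : S.n c x + S.n c y ≠ 0 := S.n_add_ne hc hx hy hxy
        rw [S.n_add hc hx hy hxy, S.n_cir hb hcx hcy hs] }

theorem phi_apply {b c : M} (hb : b ≠ 0) (hc : c ≠ 0) {z : M} (hz : z ≠ 0) :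
    S.phi hb hc z = S.n b (S.n c z) := by
  simp [phi, hz]

/-- (f) -/
theorem n_add_left {b c : M} (hb : b ≠ 0) (hc : c ≠ 0) (h : b + c ≠ 0) :
    S.n (b + c) b = -c - b + S.n c b - c := by
  have h1 := S.cir_eq (x := b + c) (y := -c) h (neg_ne_zero.2 hc)
    (by simpa using hb)
  simp only [add_neg_cancel_right, neg_neg] at h1
  have h2 : S.n (b + c) b = -(b + c) + (S.n c b + -c) := by
    rw [← h1, neg_add_cancel_left]
  rw [h2, neg_add_rev]
  simp only [sub_eq_add_neg, add_assoc]

/-- (f') -/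
theorem n_sub_left {b d : M} (hb : b ≠ 0) (hd : d ≠ 0) (h : -d + b ≠ 0) :
    S.n (-d + b) d = b + S.n b d - d + b := by
  have h' : -b + d ≠ 0 := by
    intro h'
    apply h
    rw [← neg_eq_zero]
    simpa using h'
  have h1 := S.cir_eq (x := b) (y := -b + d) hb h' (by simpa using hd)
  simp only [add_neg_cancel_left, neg_add_rev, neg_neg] at h1
  -- h1 : b + n b d = n (-d + b) d + (-b + d)
  have h2 : S.n (-d + b) d = b + S.n b d + -(-b + d) := by
    rw [h1, add_neg_cancel_right]
  rw [h2, neg_add_rev, neg_neg]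
  simp only [sub_eq_add_neg, add_assoc]

/-! ### halves -/

/-- the half of `x` (if `x + x ≠ 0`) -/
def half (x : M) : M := x + S.n x (x + x)

theorem ne_of_two {x : M} (h : x + x ≠ 0) : x ≠ 0 := by
  rintro rfl
  exact h (add_zero 0)

theorem half_ne {x : M} (h : x + x ≠ 0) : S.half x ≠ 0 :=
  S.cir_ne (ne_of_two h) (ne_of_two h) h

theorem n_half {b x : M} (hb : b ≠ 0) (h : x + x ≠ 0) : S.n b (S.half x) = S.n b x + S.n b x :=
  S.n_cir hb (ne_of_two h) (ne_of_two h) h

theorem n_two {b x : M} (hb : b ≠ 0) (h : x + x ≠ 0) : S.n b (x + x) = S.half (S.n b x) :=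
  S.n_add hb (ne_of_two h) (ne_of_two h) h

theorem half_add_half {x : M} (h : x + x ≠ 0) : S.half x + S.half x = x := by
  have hx := ne_of_two h
  have hy := S.half_ne h
  -- n (-x) (half x) = -x - x
  have h1 : S.n (-x) (S.half x) = -x + -x := by
    rw [S.n_half (neg_ne_zero.2 hx) h, S.n_neg_self hx]
  have h2 : S.n (-x) (-(S.half x)) = x + x := by
    rw [S.n_neg (neg_ne_zero.2 hx) hy, h1]; simp
  have h3 : -(S.half x) = S.n x (x + x) := by
    rw [← h2, S.n_inv' hx (neg_ne_zero.2 hy)]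
  have h4 : S.half x = x + -(S.half x) := by
    rw [h3]; rfl
  calc S.half x + S.half x = (x + -(S.half x)) + S.half x := by rw [← h4]
    _ = x := by simp

theorem n_x_two {x : M} (h : x + x ≠ 0) : S.n x (x + x) = -(S.half x) := by
  have : S.half x = x + S.n x (x + x) := rfl
  have h2 := S.half_add_half h
  have h3 : x = S.half x + S.half x := h2.symm
  have h4 : S.n x (x + x) = -x + S.half x := by
    rw [this]; simp
  rw [h4]
  nth_rewrite 1 [h3]
  rw [neg_add_rev, add_assoc, neg_add_cancel, add_zero]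

theorem n_invol {b t : M} (hb : b ≠ 0) (ht : t ≠ 0) (h : t + t = 0) :
    S.n b t + S.n b t = 0 := by
  have h1 : -t = t := neg_eq_of_add_eq_zero_left h
  have h2 := S.n_neg hb ht
  rw [h1] at h2
  nth_rewrite 1 [h2]
  exact neg_add_cancel _

theorem n_two_ne {b x : M} (hb : b ≠ 0) (h : x + x ≠ 0) : S.n b x + S.n b x ≠ 0 :=
  S.n_add_ne hb (ne_of_two h) (ne_of_two h) h

include S in
theorem four {z : M} (h : z + z ≠ 0) : (z + z) + (z + z) ≠ 0 := by
  intro h4
  have hz := ne_of_two h
  -- n_z (2z) = -half z ; if 2z is an involution so is half z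
  have h1 := S.n_invol hz h h4
  rw [S.n_x_two h] at h1
  have h2 := S.half_add_half h
  apply hz
  rw [← neg_add_rev, h2] at h1
  exact neg_eq_zero.1 h1

theorem half_unique {w x : M} (h : w + w = x) (hx : x + x ≠ 0) : S.half x = w := by
  subst h
  have hw : w + w ≠ 0 := ne_of_two hx
  have hw0 := ne_of_two hw
  -- n_b (half (2w)) = 2 n_b (2w) = 2 half (n_b w) = n_b w
  have h1 : S.n w (S.half (w + w)) = S.n w w := by
    rw [S.n_half hw0 hx, S.n_two hw0 hw, S.half_add_half (S.n_two_ne hw0 hw)]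
  exact S.n_inj hw0 (S.half_ne hx) hw0 h1

include S in
theorem sq_inj {w z : M} (h : w + w = z + z) (h2 : z + z ≠ 0) : w = z := by
  have h4 := S.four h2
  rw [← S.half_unique h h4]
  exact S.half_unique rfl h4

include S in
/-- the centraliser of an involution has exponent two -/
theorem cent_invol {t x : M} (ht : t ≠ 0) (h2 : t + t = 0) (hc : x + t = t + x) :
    x + x = 0 := by
  by_contra hx
  have h1 : (t + x) + (t + x) = x + x := by
    rw [← add_assoc, add_assoc t x t, hc, ← add_assoc, h2, zero_add]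
  have h3 := S.sq_inj h1 hx
  exact ht (by simpa using h3)

end Pool.Agent.I6.Alg
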