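import Pool.Agent.Lib_MP_f98417_co.Inv

set_option autoImplicit false

namespace Pool.Agent.I6.Alg

variable {M A : Type} [AddGroup M] (S : Alg M A)

/-- the map `n b` is an involution -/
def IsSq (b : M) : Prop := ∀ z : M, z ≠ 0 → S.n b (S.n b z) = z

theorem n_neg_of_sq {b z : M} (hb : b ≠ 0) (h : S.IsSq b) (hz : z ≠ 0) :
    S.n (-b) z = S.n b z := by
  have h1 := S.n_inv hb (S.n_ne hb hz)
  rw [h z hz] at h1
  exact h1

/-- local commutation criterion -/
theorem comm_local (hinv : ∀ z : M, z ≠ 0 → z + z ≠ 0) {b d : M}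
    (h1 : b ≠ 0 → S.IsSq b) (h2 : b + d ≠ 0 → S.IsSq (b + d))
    (h3 : d + b ≠ 0 → S.IsSq (d + b))
    (h4 : d + b + d ≠ 0 → S.IsSq (d + b + d)) : b + d = d + b := by
  by_cases hb : b = 0
  · simp [hb]
  by_cases hd : d = 0
  · simp [hd]
  by_cases hbd : b + d = 0
  · have : d = -b := (neg_eq_of_add_eq_zero_right hbd).symm
    rw [this]; simp
  by_cases hdb : d + b = 0
  · have : b = -d := (neg_eq_of_add_eq_zero_right hdb).symm
    rw [this]; simp
  by_cases hdbd : d + b + d = 0
  · have h1 : d + b = -d := eq_neg_of_add_eq_zero_left hdbd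
    have h2 : b = -d + -d := by
      have : b = -d + (d + b) := by simp
      rw [h1] at this
      exact this
    rw [h2]
    simp [add_assoc]
  -- R2
  have R2 : ∀ b : M, b ≠ 0 → d + b ≠ 0 → S.n (d + b) d = -b - d + S.n b d - b :=
    fun b hb h => S.n_add_left hd hb h
  -- R1
  have R1 : ∀ b : M, b ≠ 0 → b + d ≠ 0 → S.IsSq b → S.IsSq (b + d) →
      S.n (b + d) d = -b + S.n b d - d - b := by
    intro b hb h hs hs'
    have h1 : -d + -b ≠ 0 := by
      rw [← neg_add_rev]; exact neg_ne_zero.2 h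
    have h2 := S.n_sub_left (neg_ne_zero.2 hb) hd h1
    rw [← neg_add_rev, S.n_neg_of_sq h hs' hd, S.n_neg_of_sq hb hs hd] at h2
    rw [h2, sub_eq_add_neg _ b]
  obtain ⟨N, hN⟩ : ∃ N, S.n b d = N := ⟨_, rfl⟩
  have e1 : S.n (d + b + d) d = -b - d + (-b - d) + N + (-b - d + (-b - d)) := by
    rw [R1 (d + b) hdb hdbd (h3 hdb) (h4 hdbd), R2 b hb hdb, hN]
    simp only [sub_eq_add_neg, neg_add_rev, add_assoc]
  have e2 : S.n (d + b + d) d = -d - b + (-d - b) + N + (-d - b + (-d - b)) := by
    rw [add_assoc, R2 (b + d) hbd (by rw [← add_assoc]; exact hdbd), R1 b hb hbd (h1 hb) (h2 hbd), hN]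
    simp only [sub_eq_add_neg, neg_add_rev, add_assoc]
  rw [e1] at e2
  set p1 := -b - d with hp1
  set p2 := -d - b with hp2
  -- p = p1+p1, q = p2+p2 : p + N + p = q + N + q
  have key : p1 + p1 = p2 + p2 := by
    set p := p1 + p1
    set q := p2 + p2
    have h1 : (p - q) + (p + N) + (p - q) = p + N := by
      calc (p - q) + (p + N) + (p - q) = (p - q) + (p + N + p) - q := by
            simp only [sub_eq_add_neg, add_assoc]
        _ = (p - q) + (q + N + q) - q := by rw [e2]
        _ = p + N := by simp [sub_eq_add_neg, add_assoc]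
    have h2 : ((p - q) + (p + N)) + ((p - q) + (p + N)) = (p + N) + (p + N) := by
      rw [← add_assoc, h1]
    have h3 : (p - q) + (p + N) = p + N := by
      by_cases hk : p + N = 0
      · rw [hk] at h2 ⊢
        by_contra hne
        rw [add_zero] at hne h2
        exact hinv _ hne (by simpa using h2)
      · exact S.sq_inj h2 (hinv _ hk)
    have h4 : p - q = 0 := by
      have := add_eq_right.1 h3
      exact this
    exact sub_eq_zero.1 h4
  have hp2ne : p2 ≠ 0 := by
    intro h
    apply hbd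
    have : -(b + d) = 0 := by rw [neg_add_rev, ← sub_eq_add_neg]; exact h
    exact neg_eq_zero.1 this
  have hfin := S.sq_inj key (hinv _ hp2ne)
  have h5 : -(d + b) = -(b + d) := by
    rw [neg_add_rev, neg_add_rev, ← sub_eq_add_neg, ← sub_eq_add_neg]
    exact hfin
  exact (neg_injective h5).symm

/-- the same, in terms of `x = b` and `y = b + d` -/
theorem comm_local' (hinv : ∀ z : M, z ≠ 0 → z + z ≠ 0) {x y : M}
    (h1 : x ≠ 0 → S.IsSq x) (h2 : y ≠ 0 → S.IsSq y)
    (h3 : -x + y + x ≠ 0 → S.IsSq (-x + y + x))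
    (h4 : -x + y + y ≠ 0 → S.IsSq (-x + y + y)) : x + y = y + x := by
  have h := S.comm_local hinv (b := x) (d := -x + y) h1 (by simpa using h2)
    (by simpa [add_assoc] using h3) (by simpa [add_assoc] using h4)
  rw [add_neg_cancel_left] at h
  -- h : y = -x + y + x
  nth_rewrite 1 [h]
  simp [add_assoc]

include S in
/-- if all the maps `n b` are involutions and there are no involutions in `M`,
then `M` is commutative -/
theorem comm_of_all_sq (hinv : ∀ z : M, z ≠ 0 → z + z ≠ 0)
    (hsq : ∀ b z : M, b ≠ 0 → z ≠ 0 → S.n b (S.n b z) = z) (b d : M) : b + d = d + b := by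
  exact S.comm_local hinv (fun h z hz => hsq _ z h hz) (fun h z hz => hsq _ z h hz)
    (fun h z hz => hsq _ z h hz) (fun h z hz => hsq _ z h hz)

end Pool.Agent.I6.Alg
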