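import Mathlib

set_option autoImplicit false

/-!
Algebraic data attached to a projective plane with a group of type I.6 and two base points
`0`, `oo` of `W` minus `v`.

`M` is the root group of `oo`, written additively (not assumed commutative), `A` is the set of
affine points on the line `sigma oo`.  Meaning of the fields: `n b` is the involution type map
swapping `0` and `oo` (`n b = b^{-1} v_b b^{-1}`), `F z` and `E` are permutations of `A`.
All axioms only concern nonzero arguments (`n 0 z`, `n b 0`, `F 0` are junk).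
-/

namespace Pool.Agent.I6

/-- Algebraic structure extracted from an I.6 plane. -/
structure Alg (M A : Type) [AddGroup M] where
  n : M → M → M
  F : M → Equiv.Perm A
  E : Equiv.Perm A
  n_ne : ∀ {b z : M}, b ≠ 0 → z ≠ 0 → n b z ≠ 0
  n_self : ∀ {b : M}, b ≠ 0 → n b b = -b
  n_neg : ∀ {b z : M}, b ≠ 0 → z ≠ 0 → n b (-z) = -(n b z)
  n_inv : ∀ {b z : M}, b ≠ 0 → z ≠ 0 → n (-b) (n b z) = z
  cir_eq : ∀ {x y : M}, x ≠ 0 → y ≠ 0 → x + y ≠ 0 →
    x + n x (x + y) = n (-y) (x + y) + y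
  cir_ne : ∀ {x y : M}, x ≠ 0 → y ≠ 0 → x + y ≠ 0 → x + n x (x + y) ≠ 0
  n_cir : ∀ {b x y : M}, b ≠ 0 → x ≠ 0 → y ≠ 0 → x + y ≠ 0 →
    n b (x + n x (x + y)) = n b x + n b y
  n_add : ∀ {b x y : M}, b ≠ 0 → x ≠ 0 → y ≠ 0 → x + y ≠ 0 →
    n b (x + y) = n b x + n (n b x) (n b x + n b y)
  F_neg_mul : ∀ {x : M}, x ≠ 0 → F (-x) * F x = E
  F_conj : ∀ {b z : M}, b ≠ 0 → z ≠ 0 → F b * F z = F (-(n b z)) * F b
  F_cir : ∀ {x y : M}, x ≠ 0 → y ≠ 0 → x + y ≠ 0 →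
    F (x + n x (x + y)) = F x * (F (x + y))⁻¹ * F y
  E_ne : ∀ a : A, E a ≠ a
  F_ne : ∀ {x : M} (a : A), x ≠ 0 → F x a ≠ a
  F_ne_E : ∀ {x : M} (a : A), x ≠ 0 → F x a ≠ E a
  F_inj : ∀ {x y : M} (a : A), x ≠ 0 → y ≠ 0 → F x a = F y a → x = y
  F_surj : ∀ a b : A, b = a ∨ b = E a ∨ ∃ x : M, x ≠ 0 ∧ F x a = b
  /-- an involution of the two point stabiliser without fixed points on `A` is trivial on `X` -/
  sq_triv : ∀ {b : M}, b ≠ 0 → b + b ≠ 0 → F b * F b * F b * F b = E * E →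
    ∀ {z : M}, z ≠ 0 → n b (n b z) = z

end Pool.Agent.I6
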