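import Pool.Agent.Lib_MP_f98417_co.SysV

set_option autoImplicit false

namespace Pool.Agent.I6

namespace Sys

variable {G Q X : Type} [Group G] [MulAction G Q] [MulAction G X] (S : Sys G Q X)

/-- affine points over `w` -/
abbrev Fib (w : X) : Type := {p : Q // S.pr p = w}

/-- the root group, additively -/
abbrev Rt (w : X) : Type := Additive (S.U w)

/-- underlying group element -/
def g {w : X} (z : S.Rt w) : G := ((Additive.toMul z : S.U w) : G)

variable {w : X}

theorem g_mem (z : S.Rt w) : S.g z ∈ S.U w := (Additive.toMul z).2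

theorem g_add (x y : S.Rt w) : S.g (x + y) = S.g x * S.g y := rfl

theorem g_neg (x : S.Rt w) : S.g (-x) = (S.g x)⁻¹ := rfl

theorem g_zero : S.g (0 : S.Rt w) = 1 := rfl

theorem g_inj {x y : S.Rt w} (h : S.g x = S.g y) : x = y := Subtype.ext h

theorem g_ne {x : S.Rt w} (h : x ≠ 0) : S.g x ≠ 1 := fun h1 => h (S.g_inj h1)

theorem g_add_ne {x y : S.Rt w} (h : x + y ≠ 0) : S.g x * S.g y ≠ 1 := S.g_ne h

/-- package an element of `U w` -/
def pack (z : G) (hz : z ∈ S.U w) : S.Rt w := Additive.ofMul ⟨z, hz⟩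

theorem g_pack (z : G) (hz : z ∈ S.U w) : S.g (S.pack z hz) = z := rfl

variable {o : X}

noncomputable def Fp (how : o ≠ w) (z : S.Rt w) : Equiv.Perm (S.Fib w) := by
  classical
  exact if h : z = 0 then 1 else
    Equiv.ofBijective (fun a => ⟨S.f o w (S.g z) a.1, S.f_pr how (S.g_mem z) a.1⟩)
      ⟨fun a b hab => Subtype.ext
          (S.f_inj how (S.g_mem z) (S.g_ne h) a.2 b.2 (congrArg Subtype.val hab)),
        fun b => by
          obtain ⟨a, ha, hab⟩ := S.f_surj how (S.g_mem z) (S.g_ne h) b.2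
          exact ⟨⟨a, ha⟩, Subtype.ext hab⟩⟩

theorem Fp_apply (how : o ≠ w) {z : S.Rt w} (h : z ≠ 0) (a : S.Fib w) :
    (S.Fp how z a).1 = S.f o w (S.g z) a.1 := by
  unfold Fp
  rw [dif_neg h]
  rfl

noncomputable def Ep (how : o ≠ w) : Equiv.Perm (S.Fib w) :=
  Equiv.ofBijective (fun a => ⟨S.e o w a.1, (S.pr_e a.1).trans a.2⟩)
    ⟨fun a b hab => Subtype.ext (S.e_inj how (congrArg Subtype.val hab)),
      fun b => by
        obtain ⟨a, ha, hab⟩ := S.e_surj how b.1
        exact ⟨⟨a, ha.trans b.2⟩, Subtype.ext hab⟩⟩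

theorem Ep_apply (how : o ≠ w) (a : S.Fib w) : (S.Ep how a).1 = S.e o w a.1 := rfl

noncomputable def na (o : X) (b z : S.Rt w) : S.Rt w :=
  S.pack (S.nact o w (S.g b) (S.g z)) (S.nact_mem _ _)

theorem g_na (b z : S.Rt w) : S.g (S.na o b z) = S.nact o w (S.g b) (S.g z) := rfl

/-- the algebraic structure of a system with two base points -/
noncomputable def toAlg (how : o ≠ w) : Alg (S.Rt w) (S.Fib w) where
  n := S.na o
  F := S.Fp how
  E := S.Ep how
  n_ne := by
    intro b z hb hz h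
    apply S.nact_ne how (S.g_mem b) (S.g_ne hb) (S.g_mem z) (S.g_ne hz)
    rw [← S.g_na, h, S.g_zero]
  n_self := by
    intro b hb
    apply S.g_inj
    rw [S.g_na, S.g_neg, S.nact_self how (S.g_mem b) (S.g_ne hb)]
  n_neg := by
    intro b z hb hz
    apply S.g_inj
    rw [S.g_na, S.g_neg, S.g_neg, S.g_na,
      S.nact_inv how (S.g_mem b) (S.g_ne hb) (S.g_mem z) (S.g_ne hz)]
  n_inv := by
    intro b z hb hz
    apply S.g_inj
    rw [S.g_na, S.g_neg, S.g_na,
      S.nact_inv_nact how (S.g_mem b) (S.g_ne hb) (S.g_mem z) (S.g_ne hz)]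
  cir_eq := by
    intro x y hx hy hxy
    apply S.g_inj
    rw [S.g_add, S.g_na, S.g_add, S.g_add, S.g_na, S.g_neg, S.g_add]
    exact S.cir_eq how (S.g_mem x) (S.g_ne hx) (S.g_mem y) (S.g_ne hy) (S.g_add_ne hxy)
  cir_ne := by
    intro x y hx hy hxy h
    apply S.cir_ne how (S.g_mem x) (S.g_ne hx) (S.g_mem y) (S.g_ne hy) (S.g_add_ne hxy)
    rw [← S.g_add x y, ← S.g_na, ← S.g_add, h, S.g_zero]
  n_cir := by
    intro b x y hb hx hy hxy
    apply S.g_inj
    simp only [S.g_add, S.g_na]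
    exact S.nact_cir how (S.g_mem b) (S.g_ne hb) (S.g_mem x) (S.g_ne hx) (S.g_mem y)
      (S.g_ne hy) (S.g_add_ne hxy)
  n_add := by
    intro b x y hb hx hy hxy
    apply S.g_inj
    simp only [S.g_add, S.g_na]
    exact S.nact_mul how (S.g_mem b) (S.g_ne hb) (S.g_mem x) (S.g_ne hx) (S.g_mem y)
      (S.g_ne hy) (S.g_add_ne hxy)
  F_neg_mul := by
    intro x hx
    ext a
    rw [Equiv.Perm.mul_apply, S.Fp_apply how (neg_ne_zero.2 hx), S.Fp_apply how hx, S.g_neg,
      S.Ep_apply, S.f_inv_f how (S.g_mem x) (S.g_ne hx) a.2]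
  F_conj := by
    intro b z hb hz
    ext a
    have hn : S.na o b z ≠ 0 := by
      intro h
      apply S.nact_ne how (S.g_mem b) (S.g_ne hb) (S.g_mem z) (S.g_ne hz)
      rw [← S.g_na, h, S.g_zero]
    rw [Equiv.Perm.mul_apply, Equiv.Perm.mul_apply, S.Fp_apply how hb, S.Fp_apply how hz,
      S.Fp_apply how (neg_ne_zero.2 hn), S.Fp_apply how hb, S.g_neg, S.g_na,
      S.f_conj how (S.g_mem b) (S.g_ne hb) (S.g_mem z) (S.g_ne hz) a.2]
  F_cir := by
    intro x y hx hy hxy
    have hk : S.na o x (x + y) ≠ 0 := by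
      intro h
      apply S.nact_ne how (S.g_mem x) (S.g_ne hx) (S.g_mem (x + y)) (S.g_ne hxy)
      rw [← S.g_na, h, S.g_zero]
    have hm : x + S.na o x (x + y) ≠ 0 := by
      intro h
      apply S.cir_ne how (S.g_mem x) (S.g_ne hx) (S.g_mem y) (S.g_ne hy) (S.g_add_ne hxy)
      rw [← S.g_add x y, ← S.g_na, ← S.g_add, h, S.g_zero]
    -- F_m = F_k F_x E⁻¹ F_y
    have h1 : S.Fp how (x + S.na o x (x + y))
        = S.Fp how (S.na o x (x + y)) * S.Fp how x * (S.Ep how)⁻¹ * S.Fp how y := by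
      ext a
      simp only [Equiv.Perm.mul_apply]
      rw [S.Fp_apply how hm, S.Fp_apply how hk, S.Fp_apply how hx, S.g_add, S.g_na, S.g_add]
      set c := (S.Ep how)⁻¹ (S.Fp how y a) with hc
      have hc2 : S.Ep how c = S.Fp how y a := by rw [hc]; simp
      have hc3 : S.e o w c.1 = S.f o w (S.g y) a.1 := by
        rw [← S.Ep_apply how, hc2, S.Fp_apply how hy]
      exact S.f_cir how (S.g_mem x) (S.g_ne hx) (S.g_mem y) (S.g_ne hy) (S.g_add_ne hxy)
        a.2 c.2 hc3
    -- F_x F_{-(x+y)} = F_k F_x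
    have hnxy : -(x + y) ≠ 0 := neg_ne_zero.2 hxy
    have h2 : S.Fp how x * S.Fp how (-(x + y)) = S.Fp how (S.na o x (x + y)) * S.Fp how x := by
      ext a
      rw [Equiv.Perm.mul_apply, Equiv.Perm.mul_apply, S.Fp_apply how hx,
        S.Fp_apply how hnxy, S.Fp_apply how hk, S.Fp_apply how hx, S.g_na,
        S.f_conj how (S.g_mem x) (S.g_ne hx) (S.g_mem _) (S.g_ne hnxy) a.2, S.g_neg,
        S.nact_inv how (S.g_mem x) (S.g_ne hx) (S.g_mem _) (S.g_ne hxy), inv_inv]
    -- F_{-(x+y)} = E F_{x+y}⁻¹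
    have h3 : S.Fp how (-(x + y)) = S.Ep how * (S.Fp how (x + y))⁻¹ := by
      rw [eq_mul_inv_iff_mul_eq]
      ext a
      rw [Equiv.Perm.mul_apply, S.Fp_apply how hnxy, S.Fp_apply how hxy, S.g_neg,
        S.Ep_apply, S.f_inv_f how (S.g_mem _) (S.g_ne hxy) a.2]
    -- E commutes with F
    have h4 : ∀ z : S.Rt w, z ≠ 0 → S.Fp how z * S.Ep how = S.Ep how * S.Fp how z := by
      intro z hz
      ext a
      rw [Equiv.Perm.mul_apply, Equiv.Perm.mul_apply, S.Fp_apply how hz, S.Ep_apply,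
        S.Ep_apply, S.Fp_apply how hz, S.f_e how (S.g_mem z)]
    rw [h1, ← h2, h3]
    have h5 : S.Ep how * (S.Fp how (x + y))⁻¹ = (S.Fp how (x + y))⁻¹ * S.Ep how := by
      rw [eq_inv_mul_iff_mul_eq, ← mul_assoc, mul_inv_eq_iff_eq_mul]
      exact h4 _ hxy
    rw [h5]
    group
  E_ne := by
    intro a h
    exact S.e_ne how a.2 (congrArg Subtype.val h)
  F_ne := by
    intro x a hx h
    apply S.f_ne how (S.g_mem x) (S.g_ne hx) a.2
    rw [← S.Fp_apply how hx, h]
  F_ne_E := by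
    intro x a hx h
    apply S.f_ne_e how (S.g_mem x) a.2
    rw [← S.Fp_apply how hx, h, S.Ep_apply]
  F_inj := by
    intro x y a hx hy h
    apply S.g_inj
    apply S.f_inj' how (S.g_mem x) (S.g_mem y) (a := a.1)
    rw [← S.Fp_apply how hx, ← S.Fp_apply how hy, h]
  F_surj := by
    intro a b
    rcases S.f_cover how a.2 b.2 with h | h | ⟨x, hx, hx1, h⟩
    · left; exact Subtype.ext h
    · right; left; exact Subtype.ext h
    · right; right
      have hx0 : S.pack x hx ≠ 0 := by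
        intro h0
        apply hx1
        rw [← S.g_pack x hx, h0, S.g_zero]
      refine ⟨S.pack x hx, hx0, ?_⟩
      apply Subtype.ext
      rw [S.Fp_apply how hx0, S.g_pack]
      exact h
  sq_triv := by
    intro b hb hbb h4 z hz
    have hbm := S.g_mem b
    have hb1 := S.g_ne hb
    -- nn² on the fibre over w
    have hE : ∀ a : S.Fib w, ∃ c : S.Fib w, S.Ep how c = a := (S.Ep how).surjective
    have hg : ∀ a : S.Fib w, S.nn o w (S.g b) • (S.nn o w (S.g b) • (S.Ep how a).1)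
        = (S.Fp how b (S.Fp how b a)).1 := by
      intro a
      obtain ⟨c, hc⟩ := hE (S.Fp how b a)
      have h1 : S.nn o w (S.g b) • (S.Ep how a).1 = S.T (S.Ep how c).1 o := by
        rw [S.Ep_apply, S.nn_e how hbm hb1 a.2, hc, S.Fp_apply how hb]
      rw [h1, S.Ep_apply, S.nn_Te how hbm hb1 c.2, ← S.Fp_apply how hb, ← S.Ep_apply how]
      -- E F_b c = F_b F_b a
      have h5 : S.Ep how (S.Fp how b c) = S.Fp how b (S.Ep how c) := by
        apply Subtype.ext
        rw [S.Ep_apply, S.Fp_apply how hb, S.Fp_apply how hb, S.Ep_apply, S.f_e how hbm]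
      rw [h5, hc]
    have hFE : ∀ c : S.Fib w, S.Fp how b (S.Ep how c) = S.Ep how (S.Fp how b c) := by
      intro c
      apply Subtype.ext
      rw [S.Ep_apply, S.Fp_apply how hb, S.Fp_apply how hb, S.Ep_apply, S.f_e how hbm]
    have hfix : ∀ y : X, (S.nn o w (S.g b) * S.nn o w (S.g b)) • y = y := by
      apply S.fpf how
      · rw [mul_smul, S.nn_o how hbm hb1, S.nn_w how hbm hb1]
      · rw [mul_smul, S.nn_w how hbm hb1, S.nn_o how hbm hb1]
      · intro a ha h
        obtain ⟨c, hc⟩ := hE ⟨a, ha⟩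
        have hc' : (S.Ep how c).1 = a := congrArg Subtype.val hc
        rw [mul_smul, ← hc', hg] at h
        have h6 : S.Fp how b (S.Fp how b c) = S.Ep how c := Subtype.ext h
        have h7 : S.Fp how (-b) (S.Fp how b c) = S.Ep how c := by
          apply Subtype.ext
          rw [S.Fp_apply how (neg_ne_zero.2 hb), S.Fp_apply how hb, S.g_neg, S.Ep_apply,
            S.f_inv_f how hbm hb1 c.2]
        have h8 : S.g b = S.g (-b) := by
          apply S.f_inj' how hbm (S.g_mem (-b)) (a := (S.Fp how b c).1)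
          rw [← S.Fp_apply how hb, ← S.Fp_apply how (neg_ne_zero.2 hb), h6, h7]
        apply hbb
        have h9 : b = -b := S.g_inj h8
        nth_rewrite 2 [h9]
        exact add_neg_cancel b
      · intro a ha
        obtain ⟨c, hc⟩ := hE ⟨a, ha⟩
        obtain ⟨d, hd⟩ := hE c
        have hc' : (S.Ep how c).1 = a := congrArg Subtype.val hc
        have hg' : ∀ a : S.Fib w, (S.nn o w (S.g b) * S.nn o w (S.g b)) • (S.Ep how a).1
            = (S.Fp how b (S.Fp how b a)).1 := by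
          intro a'
          rw [mul_smul]; exact hg a'
        rw [← hc', hg' c, ← hd, hFE, hFE, hg']
        have h10 := congrArg (fun s => s d) h4
        simp only [Equiv.Perm.mul_apply] at h10
        rw [h10]
    apply S.g_inj
    have hn : S.nact o w (S.g b) (S.g z) ≠ 1 :=
      S.nact_ne how hbm hb1 (S.g_mem z) (S.g_ne hz)
    rw [S.g_na, S.g_na]
    apply S.U_eq (S.nact_mem _ _) (S.g_mem z) how
    rw [S.nact_o how hbm hb1 (S.nact_mem _ _) hn, S.nact_o how hbm hb1 (S.g_mem z) (S.g_ne hz),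
      ← mul_smul, hfix]

end Sys

end Pool.Agent.I6
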