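import Pool.Agent.Lib_MP_f98417_co.Tors

set_option autoImplicit false

namespace Pool.Agent.I6.Alg

variable {M A : Type} [AddGroup M] (S : Alg M A)

include S in
theorem prime_order' {b : M} (hb : b ≠ 0) (hfin : IsOfFinAddOrder b) : (addOrderOf b).Prime :=
  S.prime_order hb hfin.addOrderOf_pos (addOrderOf_nsmul_eq_zero b)

theorem sq_one_of_order {b : M} (hp : (addOrderOf b).Prime) (h2 : addOrderOf b ≠ 2) :
    ∀ z : M, z ≠ 0 → S.n b (S.n b z) = z := by
  intro z hz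
  have hb : b ≠ 0 := by
    rintro rfl
    rw [addOrderOf_zero] at hp
    exact Nat.not_prime_one hp
  have hbb : b + b ≠ 0 := by
    intro h
    have h3 : addOrderOf b ∣ 2 := addOrderOf_dvd_of_nsmul_eq_zero (by rw [two_nsmul]; exact h)
    rcases (Nat.dvd_prime Nat.prime_two).1 h3 with h4 | h4
    · rw [h4] at hp; exact Nat.not_prime_one hp
    · exact h2 h4
  have : Fact (addOrderOf b).Prime := ⟨hp⟩
  exact S.sq_of_prime (p := addOrderOf b) hb (addOrderOf_nsmul_eq_zero b) hbb hz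

theorem n_nsmul {b y : M} (hb : b ≠ 0) {k : ℕ} (h : k • y ≠ 0) :
    S.n b (k • y) = S.dv k (S.n b y) := by
  have hy := ne_of_nsmul h
  have h1 : k • S.n b y ≠ 0 := (S.nsmul_n_ne hb hy).2 h
  apply S.n_inj hb (S.n_ne hb h) (S.dv_ne h1)
  rw [S.n_dv hb h1, ← S.phi_apply hb hb h, map_nsmul, S.phi_apply hb hb hy]

include S in
/-- unique divisibility of elements of infinite order -/
theorem nsmul_inj {y y' : M} (hy : ∀ j : ℕ, 0 < j → j • y ≠ 0) (hy' : ∀ j : ℕ, 0 < j → j • y' ≠ 0)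
    {k : ℕ} (hk : 0 < k) (h : k • y = k • y') : y = y' := by
  have hy0 : y ≠ 0 := ne_of_nsmul (hy 1 one_pos)
  have hy0' : y' ≠ 0 := ne_of_nsmul (hy' 1 one_pos)
  have e1 : k • S.n y (k • y) = S.n y y := by
    rw [S.n_nsmul hy0 (hy k hk)]
    exact S.nsmul_dv k hk _ (fun j hj _ => (S.nsmul_n_ne hy0 hy0).2 (hy j hj))
  have e2 : k • S.n y (k • y') = S.n y y' := by
    rw [S.n_nsmul hy0 (hy' k hk)]
    exact S.nsmul_dv k hk _ (fun j hj _ => (S.nsmul_n_ne hy0 hy0').2 (hy' j hj))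
  rw [← h, e1] at e2
  exact S.n_inj hy0 hy0 hy0' e2

include S in
theorem divisible {x : M} (hx : ∀ j : ℕ, 0 < j → j • x ≠ 0) {k : ℕ} (hk : 0 < k) :
    ∃! y : M, k • y = x := by
  refine ⟨S.dv k x, S.nsmul_dv k hk x (fun j hj _ => hx j hj), ?_⟩
  intro y hy
  have hmul : ∀ y : M, k • y = x → ∀ j : ℕ, 0 < j → j • y ≠ 0 := by
    intro y hy j hj h
    apply hx j hj
    rw [← hy, ← mul_nsmul', mul_comm, mul_nsmul', h, nsmul_zero]
  apply S.nsmul_inj (hmul y hy) (hmul _ (S.nsmul_dv k hk x (fun j hj _ => hx j hj))) hk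
  rw [hy]
  exact (S.nsmul_dv k hk x (fun j hj _ => hx j hj)).symm

end Pool.Agent.I6.Alg
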