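import Pool.Agent.Lib_MP_f98417_co.Odd
import Pool.Agent.Lib_MP_f98417_co.TorsB

set_option autoImplicit false

namespace Pool.Agent.I6.Alg

variable {M A : Type} [AddGroup M] (S : Alg M A)

include S in
theorem ord_of_prime {p : ℕ} (hp : p.Prime) {b : M} (hb : b ≠ 0) (hpb : p • b = 0) :
    addOrderOf b = p := by
  have := addOrderOf_dvd_of_nsmul_eq_zero hpb
  rcases (Nat.dvd_prime hp).1 this with h | h
  · exact absurd (AddMonoid.addOrderOf_eq_one_iff.1 h) hb
  · exact h

include S in
/-- an element commuting with an element of order `p` has order dividing `p` -/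
theorem cent_exp {p : ℕ} (hp : p.Prime) {b x : M} (hb : b ≠ 0) (hpb : p • b = 0)
    (hx : x + b = b + x) : p • x = 0 := by
  have hmul : ∀ k : ℕ, k • (x + b) = k • x + k • b :=
    fun k => AddCommute.add_nsmul (show AddCommute x b from hx) k
  by_contra hpx
  have hx0 : x ≠ 0 := by rintro rfl; exact hpx (nsmul_zero p)
  by_cases hinf : ∀ j : ℕ, 0 < j → j • x ≠ 0
  · have hinf' : ∀ j : ℕ, 0 < j → j • (x + b) ≠ 0 := by
      intro j hj h0
      apply hinf (p * j) (Nat.mul_pos hp.pos hj)
      have h1 : p • (j • (x + b)) = 0 := by rw [h0, nsmul_zero]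
      rw [hmul, ] at h1
      have h2 : AddCommute (j • x) (j • b) :=
        ((show AddCommute x b from hx).nsmul_left j).nsmul_right j
      rw [h2.add_nsmul p, ← mul_nsmul' b, mul_comm p j, mul_nsmul' b, hpb, nsmul_zero,
        add_zero, ← mul_nsmul'] at h1
      exact h1
    have h3 := S.nsmul_inj hinf hinf' hp.pos (by rw [hmul, hpb, add_zero])
    apply hb
    have : x + b = x + 0 := by rw [add_zero]; exact h3.symm
    exact add_left_cancel this
  · push Not at hinf
    obtain ⟨j, hj, hjx⟩ := hinf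
    have hq := S.prime_order hx0 hj hjx
    obtain ⟨q, hqd⟩ : ∃ q, q = addOrderOf x := ⟨_, rfl⟩
    rw [← hqd] at hq
    have hqx : q • x = 0 := by rw [hqd]; exact addOrderOf_nsmul_eq_zero x
    have hne : q ≠ p := by
      intro h
      exact hpx (h ▸ hqx)
    have hxb0 : x + b ≠ 0 := by
      intro h0
      apply hpx
      have h1 := hmul p
      rw [h0, nsmul_zero, hpb, add_zero] at h1
      exact h1.symm
    have hpq : (p * q) • (x + b) = 0 := by
      rw [hmul, mul_nsmul' x, hqx, nsmul_zero, mul_comm p q, mul_nsmul' b, hpb, nsmul_zero,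
        add_zero]
    have hr := S.prime_order hxb0 (Nat.mul_pos hp.pos hq.pos) hpq
    have hrd : addOrderOf (x + b) ∣ p * q := addOrderOf_dvd_of_nsmul_eq_zero hpq
    have hrz : addOrderOf (x + b) • (x + b) = 0 := addOrderOf_nsmul_eq_zero _
    rcases (Nat.Prime.dvd_mul hr).1 hrd with h | h
    · have h1 := (Nat.prime_dvd_prime_iff_eq hr hp).1 h
      rw [h1, hmul, hpb, add_zero] at hrz
      exact hpx hrz
    · have h1 := (Nat.prime_dvd_prime_iff_eq hr hq).1 h
      rw [h1, hmul, hqx, zero_add] at hrz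
      have h2 : addOrderOf b ∣ q := addOrderOf_dvd_of_nsmul_eq_zero hrz
      rw [S.ord_of_prime hp hb hpb] at h2
      exact hne ((Nat.prime_dvd_prime_iff_eq hp hq).1 h2).symm

include S in
/-- a nontrivial torsion element forces commutativity -/
theorem comm_of_torsion {z : M} (hz : z ≠ 0) {k : ℕ} (hk : 0 < k) (hkz : k • z = 0) (x y : M) :
    x + y = y + x := by
  by_cases hinv : ∀ z : M, z ≠ 0 → z + z ≠ 0
  · have hp := S.prime_order hz hk hkz
    have hpz := addOrderOf_nsmul_eq_zero z
    obtain ⟨p, hpd⟩ : ∃ p, p = addOrderOf z := ⟨_, rfl⟩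
    rw [← hpd] at hp hpz
    haveI : Fact p.Prime := ⟨hp⟩
    exact S.comm_of_ord (p := p) hinv
      (fun b hb hpb w hw => S.sq_of_prime (p := p) hb hpb (hinv b hb) hw)
      (fun b x hb hpb hx => S.cent_exp hp hb hpb hx) hz hpz x y
  · push Not at hinv
    obtain ⟨t, ht, htt⟩ := hinv
    have h2 := S.exp_two_of_involution ht htt
    have hxy := neg_invol (h2 (x + y))
    rw [neg_add_rev, neg_invol (h2 x), neg_invol (h2 y)] at hxy
    exact hxy.symm

end Pool.Agent.I6.Alg
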