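import Pool.Agent.Lib_MP_f98417_co.PlaneSys
import Pool.Agent.Lib_MP_f98417_co.SysAlg
import Pool.Agent.Lib_MP_f98417_co.Ab
import Pool.Agent.Lib_MP_f98417_co.TorsFree

set_option autoImplicit false

namespace Pool.Agent.I6

open Configuration

/-- purely algebraic conclusion -/
theorem Alg.dichotomy {M A : Type} [AddGroup M] [Nonempty A] (S : Alg M A)
    (hM : ∃ x y : M, x ≠ 0 ∧ y ≠ 0 ∧ x ≠ y) :
    ((∀ x y : M, x + y = y + x) ∧ ∀ z : M, z + z + z = 0) ∨
    ((∃ x y : M, x + y ≠ y + x) ∧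
      (∀ Y : AddSubgroup M, (∀ φ : M ≃+ M, ∀ y ∈ Y, φ y ∈ Y) → Y = ⊥ ∨ Y = ⊤) ∧
      (∀ z : M, z ≠ 0 → ¬ IsOfFinAddOrder z) ∧
      (∀ k : ℕ, 0 < k → ∀ z : M, ∃! y : M, k • y = z)) := by
  by_cases hab : ∀ x y : M, x + y = y + x
  · exact Or.inl ⟨hab, S.abelian_three hab hM⟩
  · right
    have htf : ∀ z : M, z ≠ 0 → ∀ j : ℕ, 0 < j → j • z ≠ 0 := by
      intro z hz j hj h0
      exact hab (fun x y => S.comm_of_torsion hz hj h0 x y)
    have htf' : ∀ z : M, z ≠ 0 → ¬ IsOfFinAddOrder z := by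
      intro z hz hfin
      obtain ⟨j, hj, hjz⟩ := isOfFinAddOrder_iff_nsmul_eq_zero.1 hfin
      exact htf z hz j hj hjz
    have hdiv : ∀ k : ℕ, 0 < k → ∀ z : M, ∃! y : M, k • y = z := by
      intro k hk z
      by_cases hz : z = 0
      · subst hz
        refine ⟨0, nsmul_zero k, ?_⟩
        intro y hy
        by_contra hy0
        exact htf y hy0 k hk hy
      · exact S.divisible (htf z hz) hk
    refine ⟨by push Not at hab; exact hab, ?_, htf', hdiv⟩
    intro Y hY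
    by_cases hbot : Y = ⊥
    · exact Or.inl hbot
    right
    have hne : ∃ y ∈ Y, y ≠ 0 := by
      by_contra hcon
      push Not at hcon
      exact hbot ((AddSubgroup.eq_bot_iff_forall Y).2 hcon)
    have hcomap : ∀ φ : M ≃+ M, ∀ y ∈ Y, φ y ∈ Y := hY
    have hinv : ¬ ∀ z : M, z + z = 0 := by
      intro h2
      apply hab
      intro x y
      have h3 : -(x + y) = x + y := neg_eq_of_add_eq_zero_left (h2 _)
      have hx : -x = x := neg_eq_of_add_eq_zero_left (h2 _)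
      have hy : -y = y := neg_eq_of_add_eq_zero_left (h2 _)
      rw [neg_add_rev, hx, hy] at h3
      exact h3.symm
    have hN : ∀ y ∈ Y, ∀ g : M, g + y + -g ∈ Y := by
      intro y hy g
      exact hcomap (AddAut.addConj g) y hy
    have hI : ∀ b c y : M, b ≠ 0 → c ≠ 0 → y ≠ 0 → y ∈ Y → S.n b (S.n c y) ∈ Y := by
      intro b c y hb hc hy hyY
      rw [← S.phi_apply hb hc hy]
      exact hcomap _ _ hyY
    rcases S.char_simple Y hN hI hne with h | h
    · exact (AddSubgroup.eq_top_iff' Y).2 h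
    · exact absurd h hinv

/-- the conclusion for a multiplicatively written root group -/
theorem Alg.dichotomy_mul {U A : Type} [Group U] [Nonempty A] (S : Alg (Additive U) A)
    (hM : ∃ x y : U, x ≠ 1 ∧ y ≠ 1 ∧ x ≠ y) :
    ((∀ a b : U, a * b = b * a) ∧ ∀ a : U, a ^ 3 = 1) ∨
    ((∃ a b : U, a * b ≠ b * a) ∧
      (∀ K : Subgroup U, K.Characteristic → K = ⊥ ∨ K = ⊤) ∧
      (∀ a : U, a ≠ 1 → ¬ IsOfFinOrder a) ∧
      (∀ k : ℕ, 0 < k → ∀ a : U, ∃! b : U, b ^ k = a)) := by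
  obtain ⟨x, y, hx, hy, hxy⟩ := hM
  rcases S.dichotomy ⟨Additive.ofMul x, Additive.ofMul y, hx, hy, hxy⟩ with h | h
  · left
    refine ⟨fun a b => h.1 (Additive.ofMul a) (Additive.ofMul b), fun a => ?_⟩
    have h3 : a * a * a = 1 := h.2 (Additive.ofMul a)
    rw [pow_succ, pow_two, h3]
  · right
    obtain ⟨⟨a, b, hab⟩, hK, hc, hd⟩ := h
    refine ⟨⟨Additive.toMul a, Additive.toMul b, hab⟩, ?_, ?_, ?_⟩
    · intro K hchar
      have h1 := hK K.toAddSubgroup (by
        intro φ y hy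
        have h2 := hchar.fixed (MulEquiv.toAdditive.symm φ)
        have h3 : Additive.toMul y ∈ K.comap (MulEquiv.toAdditive.symm φ).toMonoidHom := by
          rw [h2]; exact hy
        exact h3)
      rcases h1 with h1 | h1
      · left
        rw [Subgroup.eq_bot_iff_forall]
        intro z hz
        exact (AddSubgroup.eq_bot_iff_forall _).1 h1 (Additive.ofMul z) hz
      · right
        rw [Subgroup.eq_top_iff']
        intro z
        exact (AddSubgroup.eq_top_iff' _).1 h1 (Additive.ofMul z)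
    · intro c hc1 hfin
      have h4 := (isOfFinAddOrder_ofMul_iff (x := c)).2 hfin
      exact hc (Additive.ofMul c) hc1 h4
    · intro k hk z
      obtain ⟨y, hy, hyu⟩ := hd k hk (Additive.ofMul z)
      refine ⟨Additive.toMul y, hy, ?_⟩
      intro y' hy'
      exact hyu (Additive.ofMul y') hy'

section Plane

variable {P L : Type} [Membership P L] [ProjectivePlane P L] [Infinite P]
  {Γ : Subgroup (Equiv.Perm P × Equiv.Perm L)} {v : P} {W : L} {σ : P → L}

theorem exists_Xfin (W : L) (F : Set P) (hF : F.Finite) : ∃ y : P, y ∈ W ∧ y ∉ F := by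
  obtain ⟨y, hy⟩ := ((line_infinite (P := P) W).sdiff hF).nonempty
  exact ⟨y, hy.1, hy.2⟩

/-- the dichotomy for root groups -/
theorem dichotomy_plane (H : TypeI6 Γ v W σ) {x : P} (hx : x ∈ W) (hxv : x ≠ v) :
    ((∀ a b : persp Γ x (σ x), a * b = b * a) ∧ ∀ a : persp Γ x (σ x), a ^ 3 = 1) ∨
    ((∃ a b : persp Γ x (σ x), a * b ≠ b * a) ∧
      (∀ K : Subgroup (persp Γ x (σ x)), K.Characteristic → K = ⊥ ∨ K = ⊤) ∧
      (∀ a : persp Γ x (σ x), a ≠ 1 → ¬ IsOfFinOrder a) ∧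
      (∀ k : ℕ, 0 < k → ∀ a : persp Γ x (σ x), ∃! b : persp Γ x (σ x), b ^ k = a)) := by
  letI := actQ H
  letI := actX H
  let S := toSys H
  obtain ⟨o', ho', ho'v, ho'x⟩ := exists_X2 (P := P) W v x
  let w : Xs (P := P) W v := ⟨x, hx, hxv⟩
  let o : Xs (P := P) W v := ⟨o', ho', ho'v⟩
  have how : o ≠ w := fun h => ho'x (congrArg Subtype.val h)
  let Al : Alg (Additive (persp Γ x (σ x))) (S.Fib w) := S.toAlg how
  haveI : Nonempty (S.Fib w) := ⟨⟨S.T S.pt w, S.pr_T _ _⟩⟩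
  -- two further points
  obtain ⟨y1, hy1, hy1F⟩ := exists_Xfin (P := P) W {v, x, o'} (by simp)
  obtain ⟨y2, hy2, hy2F⟩ := exists_Xfin (P := P) W {v, x, o', y1} (by simp)
  simp only [Set.mem_insert_iff, Set.mem_singleton_iff, not_or] at hy1F hy2F
  obtain ⟨u1, hu1, hu1o⟩ := S.U_trans w o ⟨y1, hy1, hy1F.1⟩ how
    (fun h => hy1F.2.1 (congrArg Subtype.val h))
  obtain ⟨u2, hu2, hu2o⟩ := S.U_trans w o ⟨y2, hy2, hy2F.1⟩ how
    (fun h => hy2F.2.1 (congrArg Subtype.val h))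
  have hM : ∃ a b : persp Γ x (σ x), a ≠ 1 ∧ b ≠ 1 ∧ a ≠ b := by
    refine ⟨⟨u1, hu1⟩, ⟨u2, hu2⟩, ?_, ?_, ?_⟩
    · intro h
      have h1 : u1 = 1 := congrArg Subtype.val h
      rw [h1, one_smul] at hu1o
      exact hy1F.2.2 (congrArg Subtype.val hu1o).symm
    · intro h
      have h1 : u2 = 1 := congrArg Subtype.val h
      rw [h1, one_smul] at hu2o
      exact hy2F.2.2.1 (congrArg Subtype.val hu2o).symm
    · intro h
      have h1 : u1 = u2 := congrArg Subtype.val h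
      rw [h1, hu2o] at hu1o
      exact hy2F.2.2.2 (congrArg Subtype.val hu1o)
  exact Al.dichotomy_mul hM

end Plane

end Pool.Agent.I6
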