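import Pool.Agent.Lib_MP_f98417_co.Simple

set_option autoImplicit false

namespace Pool.Agent.I6.Alg

variable {M A : Type} [AddGroup M] (S : Alg M A)

theorem neg_invol {t : M} (h : t + t = 0) : -t = t := neg_eq_of_add_eq_zero_left h

include S in
/-- commuting is transitive through an involution -/
theorem comm_trans {t x y : M} (ht : t ≠ 0) (h2 : t + t = 0) (hx : x + t = t + x)
    (hy : y + t = t + y) : x + y = y + x := by
  have hxx := S.cent_invol ht h2 hx
  have hyy := S.cent_invol ht h2 hy
  have hxy : (x + y) + t = t + (x + y) := by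
    rw [add_assoc, hy, ← add_assoc, hx, add_assoc]
  have h := neg_invol (S.cent_invol ht h2 hxy)
  rw [neg_add_rev, neg_invol hxx, neg_invol hyy] at h
  exact h.symm

theorem n_comm {s t : M} (hs : s ≠ 0) (hs2 : s + s = 0) (ht : t ≠ 0) (ht2 : t + t = 0)
    (hst : t ≠ s) : S.n s t + t = t + S.n s t ∧ S.n s t ≠ t := by
  have hne : t + s ≠ 0 := by
    intro h
    apply hst
    have := neg_eq_of_add_eq_zero_left h
    rw [neg_invol hs2] at this
    exact this.symm
  have e := S.n_add_left ht hs hne
  have i1 := S.n_invol hne ht ht2
  have n1 := S.n_ne hne ht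
  have i2 := S.n_invol hs ht ht2
  simp only [sub_eq_add_neg, neg_invol hs2, neg_invol ht2] at e
  rw [e] at i1 n1
  constructor
  · have h3 : s + ((t + S.n s t) + (t + S.n s t)) + s = 0 := by
      calc s + ((t + S.n s t) + (t + S.n s t)) + s
          = (s + t + S.n s t) + (t + S.n s t + s) := by simp only [add_assoc]
        _ = (s + t + S.n s t) + (s + s) + (t + S.n s t + s) := by rw [hs2, add_zero]
        _ = (s + t + S.n s t + s) + (s + t + S.n s t + s) := by simp only [add_assoc]
        _ = 0 := i1
    have h4 : (t + S.n s t) + (t + S.n s t) = 0 := by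
      have : s + (s + ((t + S.n s t) + (t + S.n s t)) + s) + s = s + 0 + s := by rw [h3]
      rw [← add_assoc, ← add_assoc, hs2, zero_add, add_assoc _ s s, hs2, add_zero, add_zero,
        hs2] at this
      exact this
    have h5 := neg_invol h4
    rw [neg_add_rev, neg_invol i2, neg_invol ht2] at h5
    exact h5
  · intro h
    apply n1
    rw [h, add_assoc s, ht2, add_zero, hs2]

theorem n_comm' {s t : M} (hs : s ≠ 0) (hs2 : s + s = 0) (ht : t ≠ 0) (ht2 : t + t = 0) :
    S.n s t + t = t + S.n s t := by
  by_cases h : t = s
  · subst h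
    rw [S.n_self ht, neg_invol ht2]
  · exact (S.n_comm hs hs2 ht ht2 h).1

theorem conj_ne {x t : M} (ht : t ≠ 0) : x + t + -x ≠ 0 := by
  intro h
  apply ht
  have : -x + (x + t + -x) + x = -x + 0 + x := by rw [h]
  simpa [add_assoc] using this

theorem conj_two {x t : M} (ht : t + t = 0) : (x + t + -x) + (x + t + -x) = 0 := by
  have : (x + t + -x) + (x + t + -x) = x + (t + t) + -x := by
    simp [add_assoc]
  rw [this, ht]; simp

theorem conj_comm {x s t : M} (h : s + t = t + s) :
    (x + s + -x) + (x + t + -x) = (x + t + -x) + (x + s + -x) := by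
  have e1 : (x + s + -x) + (x + t + -x) = x + (s + t) + -x := by simp [add_assoc]
  have e2 : (x + t + -x) + (x + s + -x) = x + (t + s) + -x := by simp [add_assoc]
  rw [e1, e2, h]

include S in
theorem involutions_commute {r s : M} (hr : r ≠ 0) (hr2 : r + r = 0) (hs : s ≠ 0)
    (hs2 : s + s = 0) : r + s = s + r := by
  by_contra hrs
  -- no nonzero element commutes with both
  have hno : ∀ c : M, c + r = r + c → c + s = s + c → c = 0 := by
    intro c h1 h2
    by_contra hc
    have hcc := S.cent_invol hr hr2 h1
    exact hrs (S.comm_trans hc hcc h1.symm h2.symm)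
  -- the set K
  let K : M → Prop := fun k => ∀ t : M, t ≠ 0 → t + t = 0 → (k + t + -k) + t = t + (k + t + -k)
  have Kneg : ∀ k, K k → K (-k) := by
    intro k hk t ht ht2
    have h := conj_comm (x := -k) (hk t ht ht2)
    have e1 : -k + (k + t + -k) + -(-k) = t := by simp [add_assoc]
    rw [e1] at h
    exact h.symm
  have Kcomm : ∀ k, K k → ∀ t, t ≠ 0 → t + t = 0 → k + t = t + k := by
    intro k hk t ht ht2
    -- c = k + t - k + t
    set c := k + t + -k + t with hc
    have hct : c + t = t + c := by
      have h1 := hk t ht ht2
      calc c + t = (k + t + -k + t) + t := rfl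
        _ = t + (k + t + -k) + t := by rw [h1]
        _ = t + c := by rw [hc, add_assoc t]
    have Kc : K c := by
      intro u hu hu2
      -- s1 = t + u + t
      have s1ne := conj_ne (x := t) hu
      have s1two := conj_two (x := t) hu2
      have a1 := Kneg k hk _ s1ne s1two
      -- s2 = -k + s1 + k
      have a2 := conj_comm (x := t) a1
      have e0 : t + (t + u + -t) + -t = u := by
        have ht' : -t = t := neg_invol ht2
        rw [ht']
        calc t + (t + u + t) + t = (t + t) + u + (t + t) := by simp only [add_assoc]
          _ = u := by rw [ht2]; simp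
      rw [e0] at a2
      -- s3 commutes with u
      have s3ne : t + (-k + (t + u + -t) + -(-k)) + -t ≠ 0 := conj_ne (conj_ne s1ne)
      have s3two : (t + (-k + (t + u + -t) + -(-k)) + -t) + (t + (-k + (t + u + -t) + -(-k)) + -t)
          = 0 := conj_two (conj_two s1two)
      have a3 := hk _ s3ne s3two
      have a4 := S.comm_trans s3ne s3two a3 a2.symm
      have e1 : c + u + -c
          = k + (t + (-k + (t + u + -t) + -(-k)) + -t) + -k := by
        rw [hc]
        have ht' : -t = t := neg_invol ht2
        simp only [neg_add_rev, neg_neg, add_assoc, ht']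
      rw [e1]
      exact a4
    have hc0 : c = 0 := by
      by_contra hcne
      have hcc := S.cent_invol ht ht2 hct
      have hall : ∀ u, u ≠ 0 → u + u = 0 → u + c = c + u := by
        intro u hu hu2
        have h1 := Kc u hu hu2
        rw [neg_invol hcc] at h1
        -- h1 : c + u + c + u = u + (c + u + c)
        have h2 : (c + u + c + u) + u = u + (c + u + c + u) := by
          rw [← add_assoc u (c + u + c) u, ← h1]
        have h3 := S.cent_invol hu hu2 h2
        have h4 : (c + u) + (c + u) = 0 := by
          by_contra hne
          apply S.four hne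
          have : (c + u) + (c + u) = c + u + c + u := by simp only [add_assoc]
          rw [this]
          exact h3
        have h5 := neg_invol h4
        rw [neg_add_rev, neg_invol hcc, neg_invol hu2] at h5
        exact h5
      exact hcne (hno c (hall r hr hr2).symm (hall s hs hs2).symm)
    have h6 : k + t + -k = -t := eq_neg_of_add_eq_zero_left hc0
    rw [neg_invol ht2] at h6
    have h7 : k + t + -k + k = t + k := by rw [h6]
    simpa [add_assoc] using h7
  have K0 : ∀ k, K k → k = 0 := fun k hk =>
    hno k (Kcomm k hk r hr hr2) (Kcomm k hk s hs hs2)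
  -- the automorphism
  have hα : ∀ t, t ≠ 0 → t + t = 0 → S.phi hr hs t ≠ 0 ∧ S.phi hr hs t + S.phi hr hs t = 0 ∧
      S.phi hr hs t + t = t + S.phi hr hs t := by
    intro t ht ht2
    rw [S.phi_apply hr hs ht]
    have h1 := S.n_ne hs ht
    have h2 := S.n_invol hs ht ht2
    refine ⟨S.n_ne hr h1, S.n_invol hr h1 h2, ?_⟩
    exact S.comm_trans h1 h2 (S.n_comm' hr hr2 h1 h2) (S.n_comm' hs hs2 ht ht2).symm
  have hid : ∀ x, S.phi hr hs x = x := by
    intro x
    set α := S.phi hr hs with hαdef
    have hK : K (-x + α x) := by
      intro t ht ht2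
      -- t = α t'
      obtain ⟨t', rfl⟩ := α.surjective t
      have ht' : t' ≠ 0 := by rintro rfl; exact ht (map_zero α)
      have ht2' : t' + t' = 0 := by
        apply α.injective
        rw [map_add, ht2, map_zero]
      have h1 := hα t' ht' ht2'
      have h2 := hα (x + t' + -x) (conj_ne ht') (conj_two ht2')
      rw [map_add, map_add, map_neg] at h2
      have h3 := conj_comm (x := -x) h2.2.2
      have e1 : -x + (x + t' + -x) + -(-x) = t' := by simp [add_assoc]
      have e2 : -x + (α x + α t' + -(α x)) + -(-x) = (-x + α x) + α t' + -(-x + α x) := by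
        simp [add_assoc]
      rw [e1, e2] at h3
      exact S.comm_trans ht' ht2' h3 h1.2.2
    have := K0 _ hK
    have h4 : x + (-x + α x) = x + 0 := by rw [this]
    simpa using h4
  have hrs' : s ≠ r := by rintro rfl; exact hrs rfl
  apply (S.n_comm hr hr2 hs hs2 hrs').2
  have h := hid s
  rw [S.phi_apply hr hs hs, S.n_self hs, neg_invol hs2] at h
  exact h

include S in
/-- an involution forces exponent two -/
theorem exp_two_of_involution {t : M} (ht : t ≠ 0) (ht2 : t + t = 0) : ∀ z : M, z + z = 0 := by
  let Y : AddSubgroup M :=
    { carrier := {z | z + z = 0}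
      zero_mem' := by simp
      add_mem' := by
        intro x y hx hy
        change (x + y) + (x + y) = 0
        replace hx : x + x = 0 := hx
        replace hy : y + y = 0 := hy
        by_cases hx0 : x = 0
        · simpa [hx0] using hy
        by_cases hy0 : y = 0
        · simpa [hy0] using hx
        have h := S.involutions_commute hx0 hx hy0 hy
        calc (x + y) + (x + y) = x + (y + x) + y := by simp only [add_assoc]
          _ = x + (x + y) + y := by rw [← h]
          _ = (x + x) + (y + y) := by simp only [add_assoc]
          _ = 0 := by rw [hx, hy, add_zero]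
      neg_mem' := by
        intro x hx
        replace hx : x + x = 0 := hx
        change -x + -x = 0
        rw [← neg_add_rev, hx, neg_zero] }
  have := S.char_simple Y (fun y hy g => conj_two hy)
    (fun b c y hb hc hy0 hy => S.n_invol hb (S.n_ne hc hy0) (S.n_invol hc hy0 hy))
    ⟨t, ht2, ht⟩
  rcases this with h | h
  · exact h
  · exact h

end Pool.Agent.I6.Alg
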