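import Pool.Agent.Lib_MP_f98417_co.Comm

set_option autoImplicit false

namespace Pool.Agent.I6.Alg

variable {M A : Type} [AddGroup M] (S : Alg M A)

theorem nsmul_conj (p : ℕ) (g x : M) : p • (g + x + -g) = g + p • x + -g := by
  have h := map_nsmul (AddAut.addConj g) p x
  simpa [AddAut.addConj_apply] using h.symm

theorem n_ord {p : ℕ} {b z : M} (hb : b ≠ 0) (hz : z ≠ 0) (hp : p • z = 0) :
    p • (S.n b z) = 0 := by
  have hz' : -z ≠ 0 := neg_ne_zero.2 hz
  have h1 : S.n b z = S.phi hb hz' (-z) := by
    rw [S.phi_apply hb hz' hz', S.n_self hz', neg_neg]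
  rw [h1, ← map_nsmul]
  have : p • (-z) = 0 := by rw [neg_nsmul, hp, neg_zero]
  rw [this, map_zero]

/-- if `x + x` commutes with `b` so does `x` (no involutions) -/
theorem comm_of_two (hinv : ∀ z : M, z ≠ 0 → z + z ≠ 0) (S : Alg M A) {x b : M}
    (h : (x + x) + b = b + (x + x)) : x + b = b + x := by
  by_cases hx : x = 0
  · simp [hx]
  have h1 : (b + x + -b) + (b + x + -b) = x + x := by
    have : (b + x + -b) + (b + x + -b) = b + (x + x) + -b := by simp [add_assoc]
    rw [this, ← h]; simp
  have h2 := S.sq_inj h1 (hinv x hx)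
  have h3 : b + x + -b + b = x + b := by rw [h2]
  rw [← h3]; simp

variable {p : ℕ} (hinv : ∀ z : M, z ≠ 0 → z + z ≠ 0)
  (hJ : ∀ x : M, x ≠ 0 → p • x = 0 → S.IsSq x)
  (hC : ∀ b x : M, b ≠ 0 → p • b = 0 → x + b = b + x → p • x = 0)

include hinv hJ in
theorem comm_P {x y : M} (hx : p • x = 0) (hy : p • y = 0) (hxy : p • (-x + y + y) = 0) :
    x + y = y + x := by
  apply S.comm_local' hinv (fun h => hJ x h hx) (fun h => hJ y h hy) (fun h => hJ _ h ?_)
    (fun h => hJ _ h hxy)
  have := nsmul_conj p (-x) y
  rw [neg_neg] at this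
  rw [this, hy]; simp

include hinv hJ in
theorem step4 {b d : M} (hb : b ≠ 0) (hbp : p • b = 0) (hd : d ≠ 0) (hdp : p • d = 0)
    (h1 : d + b ≠ 0) (h2 : d + -b ≠ 0) :
    (-d + S.n b d) + b = b + (-d + S.n b d) ∧ p • (-d + S.n b d) = 0 := by
  have hbb : b + b ≠ 0 := hinv b hb
  have e1 := S.n_add_left hd hb h1
  have e2 := S.n_add_left hd (neg_ne_zero.2 hb) h2
  rw [S.n_neg_of_sq hb (hJ b hb hbp) hd] at e2
  have p1 := S.n_ord h1 hd hdp
  have p2 := S.n_ord h2 hd hdp
  rw [e1] at p1
  rw [e2] at p2
  set N := S.n b d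
  have hA : p • ((-d + N) + (-b + -b)) = 0 := by
    have h3 := nsmul_conj p b (-b - d + N - b)
    rw [p1] at h3
    have h4 : b + (-b - d + N - b) + -b = (-d + N) + (-b + -b) := by
      simp [sub_eq_add_neg, add_assoc]
    rw [← h4, h3]; simp
  have hB : p • ((-d + N) + (b + b)) = 0 := by
    have h3 := nsmul_conj p (-b) (-(-b) - d + N - -b)
    rw [p2] at h3
    have h4 : -b + (-(-b) - d + N - -b) + -(-b) = (-d + N) + (b + b) := by
      simp [sub_eq_add_neg, add_assoc]
    rw [← h4, h3]; simp
  obtain ⟨c, hc⟩ : ∃ c, -d + N = c := ⟨_, rfl⟩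
  rw [hc] at hA hB ⊢
  have hbb2 : p • (b + b) = 0 := by
    rw [AddCommute.add_nsmul (AddCommute.refl b), hbp, add_zero]
  have key := S.comm_P hinv hJ (x := -(c + (b + b))) (y := -(b + b))
    (by rw [neg_nsmul, hB, neg_zero]) (by rw [neg_nsmul, hbb2, neg_zero]) (by
      have : -(-(c + (b + b))) + -(b + b) + -(b + b) = c + (-b + -b) := by
        simp [add_assoc]
      rw [this]; exact hA)
  have h5 : (b + b) + (c + (b + b)) = (c + (b + b)) + (b + b) := by
    rw [← neg_add_rev (b + b) (c + (b + b)), ← neg_add_rev (c + (b + b)) (b + b)] at key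
    exact neg_injective key
  have h6 : (b + b) + c = c + (b + b) := by
    rw [← add_assoc] at h5
    exact add_right_cancel h5
  have h7 : b + c = c + b := comm_of_two hinv S h6
  refine ⟨h7.symm, ?_⟩
  have h8 := AddCommute.add_nsmul (show AddCommute c (b + b) from h6.symm) p
  rw [hB, hbb2, add_zero] at h8
  exact h8.symm

include hinv hJ hC in
theorem comm_via {b x y : M} (hb : b ≠ 0) (hbp : p • b = 0) (hx : x + b = b + x)
    (hy : y + b = b + y) : x + y = y + x := by
  apply S.comm_P hinv hJ (hC b x hb hbp hx) (hC b y hb hbp hy)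
  apply hC b _ hb hbp
  have hnx : -x + b = b + -x := (show AddCommute x b from hx).neg_left
  calc -x + y + y + b = -x + (y + (y + b)) := by simp only [add_assoc]
    _ = -x + (y + (b + y)) := by rw [hy]
    _ = -x + ((y + b) + y) := by simp only [add_assoc]
    _ = -x + ((b + y) + y) := by rw [hy]
    _ = (-x + b) + y + y := by simp only [add_assoc]
    _ = (b + -x) + y + y := by rw [hnx]
    _ = b + (-x + y + y) := by simp only [add_assoc]

include hinv hJ hC in
theorem normalise {b d v : M} (hb : b ≠ 0) (hbp : p • b = 0) (hd : d ≠ 0) (hdp : p • d = 0)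
    (hv : v ≠ 0) (hvb : v + b = b + v) (hdv : (d + v + -d) + b = b + (d + v + -d)) :
    d + b = b + d := by
  have hvp : p • v = 0 := hC b v hb hbp hvb
  have hv'ne : d + v + -d ≠ 0 := conj_ne hv
  have hv'p : p • (d + v + -d) = 0 := hC b _ hb hbp hdv
  -- conjugation by d preserves C(b)
  have hconj : ∀ u, u + b = b + u → (d + u + -d) + b = b + (d + u + -d) := by
    intro u hu
    have h1 : u + v = v + u := S.comm_via hinv hJ hC hb hbp hu hvb
    have h2 := conj_comm (x := d) h1
    exact S.comm_via hinv hJ hC hv'ne hv'p h2 hdv.symm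
  have hconjk : ∀ k : ℕ, ∀ u, u + b = b + u →
      (k • d + u + -(k • d)) + b = b + (k • d + u + -(k • d)) := by
    intro k
    induction k with
    | zero => intro u hu; simpa using hu
    | succ k ih =>
      intro u hu
      have h1 := ih _ (hconj u hu)
      have h2 : (k + 1) • d + u + -((k + 1) • d) = k • d + (d + u + -d) + -(k • d) := by
        rw [succ_nsmul, neg_add_rev]; simp only [add_assoc]
      rw [h2]; exact h1
  by_contra hdb
  have hcl : ∀ u, u + b = b + u → p • (u + d) = 0 := by
    intro u hu
    have hk : ∀ k : ℕ, ∃ t, t + b = b + t ∧ k • (u + d) = t + k • d := by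
      intro k
      induction k with
      | zero => exact ⟨0, by simp, by simp⟩
      | succ k ih =>
        obtain ⟨t, ht, htk⟩ := ih
        refine ⟨t + (k • d + u + -(k • d)), ?_, ?_⟩
        · have h3 := hconjk k u hu
          calc t + (k • d + u + -(k • d)) + b = t + ((k • d + u + -(k • d)) + b) :=
                add_assoc _ _ _
            _ = t + (b + (k • d + u + -(k • d))) := by rw [h3]
            _ = (t + b) + (k • d + u + -(k • d)) := (add_assoc _ _ _).symm
            _ = (b + t) + (k • d + u + -(k • d)) := by rw [ht]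
            _ = b + (t + (k • d + u + -(k • d))) := add_assoc _ _ _
        · rw [succ_nsmul, htk, succ_nsmul]
          simp [add_assoc]
    obtain ⟨t, ht, htp⟩ := hk p
    rw [hdp, add_zero] at htp
    -- z = p•(u+d) = t commutes with u + d and with u, hence with d
    have c1 : p • (u + d) + (u + d) = (u + d) + p • (u + d) :=
      (AddCommute.refl (u + d)).nsmul_left p
    rw [htp] at c1 ⊢
    have c2 : t + u = u + t := S.comm_via hinv hJ hC hb hbp ht hu
    have c3 : t + d = d + t := by
      rw [← add_assoc, c2, add_assoc, add_assoc] at c1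
      exact add_left_cancel c1
    by_contra htne
    apply hdb
    have htp' : p • t = 0 := hC b t hb hbp ht
    exact S.comm_via hinv hJ hC htne htp' c3.symm ht.symm
  -- x = b + d, y = d
  have hx := hcl b rfl
  have hnd : -(b + d) + d + d = (-d + -b + d) + d := by
    rw [neg_add_rev]
  have hcb : (-d + -b + d) + b = b + (-d + -b + d) := by
    by_cases hp0 : p = 0
    · -- p = 0 : the hypothesis hcl is empty; use conjugation invariance differently
      exfalso
      have h0 := hC b d
      subst hp0
      -- every element satisfies 0 • x = 0, so every nonzero n is a square: M commutative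
      apply hdb
      exact S.comm_P (p := 0) hinv hJ (zero_nsmul _) (zero_nsmul _) (zero_nsmul _)
    · have h1 := hconjk (p - 1) (-b) (by simp)
      have h2 : (p - 1) • d = -d := by
        have h3 : (p - 1) • d + d = 0 := by
          rw [← succ_nsmul, Nat.sub_add_cancel (Nat.one_le_iff_ne_zero.2 hp0), hdp]
        exact eq_neg_of_add_eq_zero_left h3
      rw [h2, neg_neg] at h1
      exact h1
  have hkey := S.comm_P hinv hJ hx hdp (by rw [hnd]; exact hcl _ hcb)
  apply hdb
  -- b + d commutes with d, so b commutes with d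
  rw [add_assoc] at hkey
  have h9 : b + d + d = d + b + d := by rw [add_assoc, hkey, add_assoc]
  exact (add_right_cancel h9).symm

include hinv hJ hC in
theorem step5 {b d : M} (hb : b ≠ 0) (hbp : p • b = 0) (hd : d ≠ 0) (hdp : p • d = 0)
    (hdb : d + b ≠ b + d) : S.n b d = d := by
  have h1 : d + b ≠ 0 := by
    intro h
    apply hdb
    have : b = -d := (neg_eq_of_add_eq_zero_right h).symm
    rw [this]; simp
  have h2 : d + -b ≠ 0 := by
    intro h
    apply hdb
    have : d = b := by
      have := add_neg_eq_zero.1 h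
      exact this
    rw [this]
  obtain ⟨c1, c2⟩ := S.step4 hinv hJ hb hbp hd hdp h1 h2
  obtain ⟨c3, c4⟩ := S.step4 hinv hJ hb hbp (neg_ne_zero.2 hd) (by rw [neg_nsmul, hdp, neg_zero])
    (d := -d) (by
      intro h
      apply h2
      rw [← neg_eq_zero]
      have h' := congrArg (fun t => b + t + -b) h
      simpa [add_assoc, neg_add_rev] using h') (by
      intro h
      apply h1
      rw [← neg_eq_zero, neg_add_rev]
      have h' := congrArg (fun t => -b + t + b) h
      simpa [add_assoc] using h')
  rw [S.n_neg hb hd, neg_neg] at c3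
  obtain ⟨c, hc⟩ : ∃ c, -d + S.n b d = c := ⟨_, rfl⟩
  have hN : S.n b d = d + c := by rw [← hc]; simp
  rw [hc] at c1
  rw [hN, neg_add_rev] at c3
  by_contra hne
  have hcne : c ≠ 0 := by
    rintro rfl
    apply hne
    rw [hN, add_zero]
  apply hdb
  apply S.normalise hinv hJ hC hb hbp hd hdp (v := -c) (neg_ne_zero.2 hcne)
  · exact (show AddCommute c b from c1).neg_left
  · have h4 : d + -c + -d = d + (-c + -d) := by rw [add_assoc]
    rw [h4]
    exact c3

include hinv hJ hC in
theorem step6a {b b' : M} (hb : b ≠ 0) (hbp : p • b = 0) (hb' : b' ≠ 0) (hbp' : p • b' = 0)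
    (hne : b + b' ≠ b' + b) {d : M} (hd : d ≠ 0) (hdp : p • d = 0)
    (h1 : d + b ≠ b + d) (h2 : d + b' ≠ b' + d) :
    (d + b + -d) + b' = b' + (d + b + -d) := by
  by_contra he
  have hene : d + b + -d ≠ 0 := conj_ne hb
  have hep : p • (d + b + -d) = 0 := by rw [nsmul_conj, hbp]; simp
  have heb : (d + b + -d) + b ≠ b + (d + b + -d) := by
    intro h
    exact h1 (S.normalise hinv hJ hC hb hbp hd hdp hb rfl h)
  have f1 : S.phi hb hb' d = d := by
    rw [S.phi_apply hb hb' hd, S.step5 hinv hJ hC hb' hbp' hd hdp h2,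
      S.step5 hinv hJ hC hb hbp hd hdp h1]
  have f2 : S.phi hb hb' (d + b + -d) = d + b + -d := by
    rw [S.phi_apply hb hb' hene, S.step5 hinv hJ hC hb' hbp' hene hep he,
      S.step5 hinv hJ hC hb hbp hene hep heb]
  have f3 : S.phi hb hb' b = -b := by
    rw [S.phi_apply hb hb' hb, S.step5 hinv hJ hC hb' hbp' hb hbp hne, S.n_self hb]
  rw [map_add, map_add, map_neg, f1, f3] at f2
  have f4 : -b = b := by
    have := add_right_cancel f2
    exact add_left_cancel this
  apply hinv b hb
  nth_rewrite 1 [← f4]
  exact neg_add_cancel b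

include hinv hJ hC in
/-- all elements of order `p` commute -/
theorem ord_commute {b b' : M} (hbp : p • b = 0) (hbp' : p • b' = 0) : b + b' = b' + b := by
  by_cases hb : b = 0
  · simp [hb]
  by_cases hb' : b' = 0
  · simp [hb']
  by_contra hne
  have hne' : b' + b ≠ b + b' := fun h => hne h.symm
  -- no element of order p outside C(b) and C(b')
  have hcov : ∀ d : M, d ≠ 0 → p • d = 0 → d + b ≠ b + d → d + b' ≠ b' + d → False := by
    intro d hd hdp h1 h2
    have g1 := S.step6a hinv hJ hC hb hbp hb' hbp' hne hd hdp h1 h2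
    have g2 := S.step6a hinv hJ hC hb' hbp' hb hbp hne' hd hdp h2 h1
    have hv2ne : d + b' + -d ≠ 0 := conj_ne hb'
    have hv2p : p • (d + b' + -d) = 0 := by rw [nsmul_conj, hbp']; simp
    -- conjugation by d maps C(b') into C(b)
    have g3 : ∀ u, u + b' = b' + u → (d + u + -d) + b = b + (d + u + -d) := by
      intro u hu
      have h3 := conj_comm (x := d) hu
      exact S.comm_via hinv hJ hC hv2ne hv2p h3 g2.symm
    have g4 := g3 _ g1
    have h5 : d + (d + b + -d) + -d = (d + d) + b + -(d + d) := by
      rw [neg_add_rev]; simp only [add_assoc]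
    rw [h5] at g4
    have h6 := S.normalise hinv hJ hC hb hbp (hinv d hd)
      (by rw [AddCommute.add_nsmul (AddCommute.refl d), hdp, add_zero]) hb rfl g4
    exact h1 (comm_of_two hinv S h6)
  have hd : b' + b + -b' ≠ 0 := conj_ne hb
  have hdp : p • (b' + b + -b') = 0 := by rw [nsmul_conj, hbp]; simp
  refine hcov _ hd hdp ?_ ?_
  · intro h
    exact hne' (S.normalise hinv hJ hC hb hbp hb' hbp' hb rfl h)
  · intro h
    apply hne
    have h1 := conj_comm (x := -b') h
    have e1 : -b' + (b' + b + -b') + -(-b') = b := by simp [add_assoc]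
    have e2 : -b' + b' + -(-b') = b' := by simp
    rw [e1, e2] at h1
    exact h1

include S hinv hJ hC in
/-- an element of order `p` forces commutativity -/
theorem comm_of_ord {b : M} (hb : b ≠ 0) (hbp : p • b = 0) (x y : M) : x + y = y + x := by
  let Y : AddSubgroup M :=
    { carrier := {z | p • z = 0}
      zero_mem' := by simp
      add_mem' := by
        intro x y hx hy
        change p • (x + y) = 0
        replace hx : p • x = 0 := hx
        replace hy : p • y = 0 := hy
        rw [AddCommute.add_nsmul (show AddCommute x y from S.ord_commute hinv hJ hC hx hy), hx,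
          hy, add_zero]
      neg_mem' := by
        intro x hx
        change p • (-x) = 0
        replace hx : p • x = 0 := hx
        rw [neg_nsmul, hx, neg_zero] }
  have h := S.char_simple Y
    (fun y hy g => by
      change p • (g + y + -g) = 0
      rw [nsmul_conj, show p • y = 0 from hy]; simp)
    (fun b c y hb hc hy0 hy => S.n_ord hb (S.n_ne hc hy0) (S.n_ord hc hy0 hy))
    ⟨b, hbp, hb⟩
  rcases h with h | h
  · exact S.ord_commute hinv hJ hC (h x) (h y)
  · exact absurd (h b) (hinv b hb)

end Pool.Agent.I6.Alg
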