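import Pool.Agent.Lib_MP_f98417_co.Sys

set_option autoImplicit false

namespace Pool.Agent.I6

open Configuration

section Basic

variable {P L : Type} [Membership P L] [ProjectivePlane P L]

theorem pt_unique {l m : L} (h : l ≠ m) {p q : P} (hpl : p ∈ l) (hpm : p ∈ m) (hql : q ∈ l)
    (hqm : q ∈ m) : p = q :=
  (Nondegenerate.eq_or_eq hpl hql hpm hqm).resolve_right h

theorem ln_unique {p q : P} (h : p ≠ q) {l m : L} (hpl : p ∈ l) (hql : q ∈ l) (hpm : p ∈ m)
    (hqm : q ∈ m) : l = m :=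
  (Nondegenerate.eq_or_eq hpl hql hpm hqm).resolve_left h

theorem exists_meet {l m : L} (h : l ≠ m) : ∃ p : P, p ∈ l ∧ p ∈ m :=
  ⟨_, HasPoints.mkPoint_ax h⟩

theorem exists_join {p q : P} (h : p ≠ q) : ∃ l : L, p ∈ l ∧ q ∈ l :=
  ⟨_, HasLines.mkLine_ax h⟩

/-- there is a point off any two lines -/
theorem exists_off_two (l m : L) : ∃ p : P, p ∉ l ∧ p ∉ m := by
  by_contra hcon
  push Not at hcon
  have hcov : ∀ p : P, p ∈ l ∨ p ∈ m := fun p => by
    by_cases h : p ∈ l
    · exact Or.inl h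
    · exact Or.inr (hcon p h)
  obtain ⟨p1, p2, p3, l1, l2, l3, h12, h13, h21, h22, h23, h31, h32, h33⟩ :=
    ProjectivePlane.exists_config (P := P) (L := L)
  have p2p3 : p2 ≠ p3 := by rintro rfl; exact h33 h23
  have l12 : l1 ≠ l2 := by rintro rfl; exact h21 h22
  have l13 : l1 ≠ l3 := by rintro rfl; exact h21 h23
  have l23 : l2 ≠ l3 := by rintro rfl; exact h33 h32
  have p1p3 : p1 ≠ p3 := by rintro rfl; exact h12 h32
  have p1p2 : p1 ≠ p2 := by rintro rfl; exact h12 h22
  obtain ⟨t, ht1, ht2⟩ := exists_meet (P := P) l12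
  have tp2 : t ≠ p2 := by rintro rfl; exact h21 ht1
  have tp3 : t ≠ p3 := by rintro rfl; exact h31 ht1
  have key : ∀ m' : L, (∀ p : P, p ∈ l2 ∨ p ∈ m') → False := by
    intro m' hc
    obtain ⟨n13, hn1, hn3⟩ := exists_join (L := L) p1p3
    obtain ⟨n12, hn1', hn2⟩ := exists_join (L := L) p1p2
    have hp2n : p2 ∉ n13 := by
      intro h
      have := ln_unique p2p3 h hn3 h22 h32
      exact h12 (this ▸ hn1)
    have hn12l2 : n12 ≠ l2 := by rintro rfl; exact h12 hn1'
    have hn1213 : n12 ≠ n13 := by rintro rfl; exact hp2n hn2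
    have hn13l3 : n13 ≠ l3 := by rintro rfl; exact hp2n h23
    obtain ⟨q, hq1, hq2⟩ := exists_meet (P := P) hn13l3
    have hq : q ∉ l2 := by
      intro h
      have := pt_unique l23 h hq2 h22 h23
      exact hp2n (this ▸ hq1)
    have hqp1 : q ≠ p1 := by rintro rfl; exact h13 hq2
    have hm : m' = n13 :=
      ln_unique hqp1 ((hc q).resolve_left hq) ((hc p1).resolve_left h12) hq1 hn1
    by_cases hp1 : p1 ∈ l1
    · obtain ⟨s, hs1, hs3⟩ := exists_meet (P := P) l13
      have hs : s ∉ l2 := by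
        intro h
        have := pt_unique l23 h hs3 h22 h23
        exact h21 (this ▸ hs1)
      have hs' : s ∈ n13 := hm ▸ ((hc s).resolve_left hs)
      have hne : n13 ≠ l1 := by rintro rfl; exact h31 hn3
      have := pt_unique hne hs' hs1 hn1 hp1
      exact h13 (this ▸ hs3)
    · have hne : n12 ≠ l1 := by rintro rfl; exact h21 hn2
      obtain ⟨r, hr1, hr2⟩ := exists_meet (P := P) hne
      have hr : r ∉ l2 := by
        intro h
        have := pt_unique hn12l2 hr1 h hn2 h22
        exact h21 (this ▸ hr2)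
      have hr' : r ∈ n13 := hm ▸ ((hc r).resolve_left hr)
      have := pt_unique hn1213 hr1 hr' hn1' hn1
      exact hp1 (this ▸ hr2)
  have hl2 : l2 = l ∨ l2 = m := by
    rcases hcov p2 with a | a <;> rcases hcov p3 with b | b <;> rcases hcov t with c | c
    · exact Or.inl (ln_unique p2p3 h22 h32 a b)
    · exact Or.inl (ln_unique p2p3 h22 h32 a b)
    · exact Or.inl (ln_unique tp2 ht2 h22 c a)
    · exact Or.inr (ln_unique tp3 ht2 h32 c b)
    · exact Or.inl (ln_unique tp3 ht2 h32 c b)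
    · exact Or.inr (ln_unique tp2 ht2 h22 c a)
    · exact Or.inr (ln_unique p2p3 h22 h32 a b)
    · exact Or.inr (ln_unique p2p3 h22 h32 a b)
  rcases hl2 with h | h
  · exact key m (fun p => by rw [h]; exact hcov p)
  · exact key l (fun p => by rw [h]; exact (hcov p).symm)

theorem exists_pt_ne (L : Type) [Membership P L] [ProjectivePlane P L] (p : P) :
    ∃ q : P, q ≠ p := by
  obtain ⟨l, hl⟩ := Nondegenerate.exists_line (L := L) p
  obtain ⟨m, hm⟩ : ∃ m : L, m ≠ l := by
    obtain ⟨q, hq⟩ := Nondegenerate.exists_point (P := P) l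
    by_contra hcon
    push Not at hcon
    obtain ⟨m, hm⟩ := Nondegenerate.exists_line (L := L) q
    obtain ⟨p1, p2, p3, l1, l2, l3, h12, h13, h21, h22, h23, h31, h32, h33⟩ :=
      ProjectivePlane.exists_config (P := P) (L := L)
    have := (hcon l2).trans (hcon l3).symm
    exact h33 (this ▸ h32)
  obtain ⟨q, hq1, hq2⟩ := exists_meet (P := P) hm
  exact ⟨q, by rintro rfl; exact hl hq2⟩

/-- two points on every line -/
theorem two_points (l : L) : ∃ a b : P, a ≠ b ∧ a ∈ l ∧ b ∈ l := by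
  obtain ⟨p, hp⟩ := Nondegenerate.exists_point (P := P) l
  obtain ⟨q, hq⟩ := exists_pt_ne L p
  obtain ⟨n1, hn1, hn1'⟩ := exists_join (L := L) hq.symm
  obtain ⟨r, hr⟩ := Nondegenerate.exists_point (P := P) n1
  have hpr : p ≠ r := by rintro rfl; exact hr hn1
  obtain ⟨n2, hn2, hn2'⟩ := exists_join (L := L) hpr
  have hn12 : n1 ≠ n2 := by rintro rfl; exact hr hn2'
  have h1 : n1 ≠ l := by rintro rfl; exact hp hn1
  have h2 : n2 ≠ l := by rintro rfl; exact hp hn2
  obtain ⟨a, ha, ha'⟩ := exists_meet (P := P) h1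
  obtain ⟨b, hb, hb'⟩ := exists_meet (P := P) h2
  refine ⟨a, b, ?_, ha', hb'⟩
  rintro rfl
  have := pt_unique hn12 ha hb hn1 hn2
  exact hp (this ▸ ha')

/-- perspectivity: if one line is finite so is every other line (via an external point) -/
theorem finite_of_finite {l m : L} (hl : {p : P | p ∈ l}.Finite) : {p : P | p ∈ m}.Finite := by
  classical
  obtain ⟨c, hcl, hcm⟩ := exists_off_two (P := P) l m
  -- map a point q of m to the intersection of c q with l
  have hf : ∀ q : P, ∃ t : P, q ∈ m → t ∈ l ∧ ∃ n : L, c ∈ n ∧ q ∈ n ∧ t ∈ n := by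
    intro q
    by_cases hq : q ∈ m
    · have hcq : c ≠ q := by rintro rfl; exact hcm hq
      obtain ⟨n, hn1, hn2⟩ := exists_join (L := L) hcq
      have hnl : n ≠ l := by rintro rfl; exact hcl hn1
      obtain ⟨t, ht1, ht2⟩ := exists_meet (P := P) hnl
      exact ⟨t, fun _ => ⟨ht2, n, hn1, hn2, ht1⟩⟩
    · exact ⟨q, fun h => absurd h hq⟩
  choose f hf using hf
  apply Set.Finite.of_finite_image (f := f)
  · apply hl.subset
    rintro _ ⟨q, hq, rfl⟩
    exact (hf q hq).1
  · intro q hq q' hq' hqq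
    obtain ⟨ht, n, hn1, hn2, hn3⟩ := hf q hq
    obtain ⟨ht', n', hn1', hn2', hn3'⟩ := hf q' hq'
    have hct : c ≠ f q := by intro h; exact hcl (h ▸ ht)
    rw [← hqq] at hn3'
    have hnn : n = n' := ln_unique hct hn1 hn3 hn1' hn3'
    subst hnn
    have hnm : n ≠ m := by rintro rfl; exact hcm hn1
    exact pt_unique hnm hn2 hq hn2' hq'

/-- in an infinite plane every line is infinite -/
theorem line_infinite [Infinite P] (l : L) : {p : P | p ∈ l}.Infinite := by
  classical
  intro hl
  have hall : ∀ m : L, {p : P | p ∈ m}.Finite := fun m => finite_of_finite hl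
  obtain ⟨c, hc⟩ := Nondegenerate.exists_point (P := P) l
  -- the plane is the union of the lines joining c with the points of l
  have hn : ∀ t : P, ∃ n : L, t ∈ l → c ∈ n ∧ t ∈ n := by
    intro t
    by_cases ht : t ∈ l
    · have hct : c ≠ t := by rintro rfl; exact hc ht
      obtain ⟨n, h1, h2⟩ := exists_join (L := L) hct
      exact ⟨n, fun _ => ⟨h1, h2⟩⟩
    · exact ⟨l, fun h => absurd h ht⟩
  choose g hg using hn
  have hfin : (⋃ t ∈ {p : P | p ∈ l}, {p : P | p ∈ g t}).Finite :=
    hl.biUnion (fun t _ => hall (g t))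
  have huniv : (Set.univ : Set P) ⊆ (⋃ t ∈ {p : P | p ∈ l}, {p : P | p ∈ g t}) ∪ {c} := by
    intro q _
    by_cases hqc : q = c
    · right; exact hqc
    · left
      obtain ⟨n, h1, h2⟩ := exists_join (L := L) hqc
      have hnl : n ≠ l := by rintro rfl; exact hc h2
      obtain ⟨t, ht1, ht2⟩ := exists_meet (P := P) hnl
      have hct : c ≠ t := by rintro rfl; exact hc ht2
      have : g t = n := ln_unique hct (hg t ht2).1 (hg t ht2).2 h2 ht1
      simp only [Set.mem_iUnion]
      exact ⟨t, ht2, by show q ∈ g t; rw [this]; exact h1⟩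
  exact Set.infinite_univ ((hfin.union (Set.finite_singleton c)).subset huniv)

end Basic

end Pool.Agent.I6
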