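import Mathlib

set_option autoImplicit false

/-!
Definitions for the hand-in on MP_f98417_co.
-/

namespace Pool.Agent.I6

open Configuration

variable {P L : Type} [Membership P L] [ProjectivePlane P L]

/-- The group `Γ(x,Y)` of all `(x,Y)`-perspectivities in `Γ`: the elements of `Γ` fixing every
point of the line `Y` and every line through the point `x`. -/
def persp (Γ : Subgroup (Equiv.Perm P × Equiv.Perm L)) (x : P) (Y : L) : Subgroup Γ where
  carrier := {γ | (∀ r : P, r ∈ Y → γ.1.1 r = r) ∧ ∀ N : L, x ∈ N → γ.1.2 N = N}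
  one_mem' := ⟨fun _ _ => rfl, fun _ _ => rfl⟩
  mul_mem' := by
    intro a b ha hb
    refine ⟨fun r hr => ?_, fun N hN => ?_⟩
    · change a.1.1 (b.1.1 r) = r
      rw [hb.1 r hr, ha.1 r hr]
    · change a.1.2 (b.1.2 N) = N
      rw [hb.2 N hN, ha.2 N hN]
  inv_mem' := by
    intro a ha
    refine ⟨fun r hr => ?_, fun N hN => ?_⟩
    · change a.1.1.symm r = r
      rw [Equiv.symm_apply_eq, ha.1 r hr]
    · change a.1.2.symm N = N
      rw [Equiv.symm_apply_eq, ha.2 N hN]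

/-- `Γ` is `(x,Y)`-transitive. -/
def IsTransitive (Γ : Subgroup (Equiv.Perm P × Equiv.Perm L)) (x : P) (Y : L) : Prop :=
  ∀ M : L, x ∈ M → M ≠ Y → ∀ p q : P, p ∈ M → q ∈ M → p ≠ x → q ≠ x → p ∉ Y → q ∉ Y →
    ∃ γ ∈ Γ, (∀ r : P, r ∈ Y → γ.1 r = r) ∧ (∀ N : L, x ∈ N → γ.2 N = N) ∧ γ.1 p = q

/-- `Γ` is a group of collineations of Lenz-Barlotti type I.6, with respect to the flag `(v,W)`
and the bijection `σ` from the points of `W` other than `v` onto the lines through `v` other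
than `W`. (Literally the hypotheses of the frozen statement.) -/
structure TypeI6 (Γ : Subgroup (Equiv.Perm P × Equiv.Perm L)) (v : P) (W : L) (σ : P → L) :
    Prop where
  inc : ∀ γ ∈ Γ, ∀ (p : P) (l : L), p ∈ l ↔ γ.1 p ∈ γ.2 l
  flag : v ∈ W
  sig : ∀ x : P, x ∈ W → x ≠ v → v ∈ σ x ∧ σ x ≠ W
  inj : ∀ x y : P, x ∈ W → x ≠ v → y ∈ W → y ≠ v → σ x = σ y → x = y
  surj : ∀ M : L, v ∈ M → M ≠ W → ∃ x : P, x ∈ W ∧ x ≠ v ∧ σ x = M
  tr : ∀ (x : P) (Y : L), IsTransitive Γ x Y ↔ (x ∈ W ∧ x ≠ v ∧ Y = σ x)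

end Pool.Agent.I6
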