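import Pool.Agent.Lib_MP_f98417_co.Plane
import Pool.Agent.Lib_MP_f98417_co.TypeI6

set_option autoImplicit false
set_option linter.unusedSectionVars false
set_option linter.unusedVariables false

namespace Pool.Agent.I6

open Configuration

variable {P L : Type} [Membership P L] [ProjectivePlane P L]
  {Γ : Subgroup (Equiv.Perm P × Equiv.Perm L)} {v : P} {W : L} {σ : P → L}

theorem mem_smul_line (H : TypeI6 Γ v W σ) (g : Γ) (p : P) (l : L) :
    p ∈ g.1.2 l ↔ (g⁻¹).1.1 p ∈ l := by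
  have h := H.inc g.1 g.2 ((g⁻¹).1.1 p) l
  have e : g.1.1 ((g⁻¹).1.1 p) = p := by
    change g.1.1 (g.1.1.symm p) = p
    exact g.1.1.apply_symm_apply p
  rw [e] at h
  exact h.symm

theorem inv_app (g : Γ) (p : P) : (g⁻¹).1.1 (g.1.1 p) = p := g.1.1.symm_apply_apply p

theorem app_inv (g : Γ) (p : P) : g.1.1 ((g⁻¹).1.1 p) = p := g.1.1.apply_symm_apply p

theorem inv_app2 (g : Γ) (l : L) : (g⁻¹).1.2 (g.1.2 l) = l := g.1.2.symm_apply_apply l

theorem app_inv2 (g : Γ) (l : L) : g.1.2 ((g⁻¹).1.2 l) = l := g.1.2.apply_symm_apply l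

/-- transitivity is transported by the elements of `Γ` -/
theorem trans_conj (H : TypeI6 Γ v W σ) (g : Γ) {x : P} {Y : L} (h : IsTransitive Γ x Y) :
    IsTransitive Γ (g.1.1 x) (g.1.2 Y) := by
  intro M hxM hMY p q hp hq hpx hqx hpY hqY
  have hM : (g⁻¹).1.2 M ≠ Y := by
    intro h'
    apply hMY
    rw [← h', app_inv2]
  have mem' : ∀ r : P, r ∈ M → (g⁻¹).1.1 r ∈ (g⁻¹).1.2 M := fun r hr =>
    (H.inc (g⁻¹).1 (g⁻¹).2 r M).1 hr
  have hxM' : x ∈ (g⁻¹).1.2 M := by
    have := mem' _ hxM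
    rwa [inv_app] at this
  have ne' : ∀ r : P, r ≠ g.1.1 x → (g⁻¹).1.1 r ≠ x := by
    intro r hr h'
    apply hr
    rw [← h', app_inv]
  have nm' : ∀ r : P, r ∉ g.1.2 Y → (g⁻¹).1.1 r ∉ Y := by
    intro r hr h'
    exact hr ((mem_smul_line H g r Y).2 h')
  obtain ⟨γ, hγ, h1, h2, h3⟩ := h _ hxM' hM ((g⁻¹).1.1 p) ((g⁻¹).1.1 q) (mem' p hp) (mem' q hq)
    (ne' p hpx) (ne' q hqx) (nm' p hpY) (nm' q hqY)
  refine ⟨g.1 * γ * (g⁻¹).1, Γ.mul_mem (Γ.mul_mem g.2 hγ) (g⁻¹).2, ?_, ?_, ?_⟩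
  · intro r hr
    change g.1.1 (γ.1 ((g⁻¹).1.1 r)) = r
    rw [h1 _ ((mem_smul_line H g r Y).1 hr), app_inv]
  · intro N hN
    change g.1.2 (γ.2 ((g⁻¹).1.2 N)) = N
    have hxN : x ∈ (g⁻¹).1.2 N := by
      have := (H.inc (g⁻¹).1 (g⁻¹).2 (g.1.1 x) N).1 hN
      rwa [inv_app] at this
    rw [h2 _ hxN, app_inv2]
  · change g.1.1 (γ.1 ((g⁻¹).1.1 p)) = q
    rw [h3, app_inv]

theorem move (H : TypeI6 Γ v W σ) (g : Γ) {x : P} (hx : x ∈ W) (hxv : x ≠ v) :
    g.1.1 x ∈ W ∧ g.1.1 x ≠ v ∧ g.1.2 (σ x) = σ (g.1.1 x) :=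
  (H.tr _ _).1 (trans_conj H g ((H.tr x (σ x)).2 ⟨hx, hxv, rfl⟩))

variable [Infinite P]

theorem exists_X (W : L) (v : P) : ∃ x : P, x ∈ W ∧ x ≠ v := by
  have h := (line_infinite (P := P) W).sdiff (Set.finite_singleton v)
  obtain ⟨x, hx⟩ := h.nonempty
  exact ⟨x, hx.1, hx.2⟩

theorem exists_X2 (W : L) (v x : P) : ∃ y : P, y ∈ W ∧ y ≠ v ∧ y ≠ x := by
  have h := (line_infinite (P := P) W).sdiff ((Set.finite_singleton x).insert v)
  obtain ⟨y, hy⟩ := h.nonempty
  refine ⟨y, hy.1, ?_, ?_⟩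
  · rintro rfl; exact hy.2 (Set.mem_insert _ _)
  · rintro rfl; exact hy.2 (Set.mem_insert_of_mem _ rfl)

theorem fixW (H : TypeI6 Γ v W σ) (g : Γ) : g.1.2 W = W := by
  obtain ⟨x, hx, hxv⟩ := exists_X W v
  obtain ⟨y, hy, hyv, hyx⟩ := exists_X2 W v x
  have h1 := (move H g hx hxv).1
  have h2 := (move H g hy hyv).1
  have h3 : g.1.1 x ∈ g.1.2 W := (H.inc g.1 g.2 x W).1 hx
  have h4 : g.1.1 y ∈ g.1.2 W := (H.inc g.1 g.2 y W).1 hy
  have hne : g.1.1 x ≠ g.1.1 y := fun h => hyx (g.1.1.injective h).symm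
  exact ln_unique hne h3 h4 h1 h2

theorem fixv (H : TypeI6 Γ v W σ) (g : Γ) : g.1.1 v = v := by
  obtain ⟨x, hx, hxv⟩ := exists_X W v
  have h := move H g hx hxv
  have h1 : g.1.1 v ∈ g.1.2 (σ x) := (H.inc g.1 g.2 v (σ x)).1 (H.sig x hx hxv).1
  rw [h.2.2] at h1
  have h2 : g.1.1 v ∈ W := by
    have := (H.inc g.1 g.2 v W).1 H.flag
    rwa [fixW H g] at this
  have h3 := H.sig _ h.1 h.2.1
  exact pt_unique h3.2 h1 h2 h3.1 H.flag

/-- affine points -/
abbrev Aff (W : L) : Type := {p : P // p ∉ W}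

/-- points of `W` other than `v` -/
abbrev Xs (W : L) (v : P) : Type := {x : P // x ∈ W ∧ x ≠ v}

theorem move_aff (H : TypeI6 Γ v W σ) (g : Γ) {p : P} (hp : p ∉ W) : g.1.1 p ∉ W := by
  intro h
  apply hp
  rw [H.inc g.1 g.2 p W, fixW H g]
  exact h

@[reducible] def actQ (H : TypeI6 Γ v W σ) : MulAction Γ (Aff (P := P) W) where
  smul g p := ⟨g.1.1 p.1, move_aff H g p.2⟩
  one_smul _ := rfl
  mul_smul _ _ _ := rfl

@[reducible] def actX (H : TypeI6 Γ v W σ) : MulAction Γ (Xs W v) where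
  smul g x := ⟨g.1.1 x.1, (move H g x.2.1 x.2.2).1, (move H g x.2.1 x.2.2).2.1⟩
  one_smul _ := rfl
  mul_smul _ _ _ := rfl

omit [Infinite P] in
theorem not_sig (H : TypeI6 Γ v W σ) {x y : P} (hx : x ∈ W) (hxv : x ≠ v) (hy : y ∈ W)
    (hyv : y ≠ v) : y ∉ σ x := by
  intro h
  have h1 := H.sig x hx hxv
  exact hyv (pt_unique h1.2 h hy h1.1 H.flag)

omit [Infinite P] in
theorem exists_pr (H : TypeI6 Γ v W σ) (p : Aff (P := P) W) :
    ∃ x : Xs (P := P) W v, p.1 ∈ σ x.1 := by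
  have hpv : p.1 ≠ v := by intro h; exact p.2 (h ▸ H.flag)
  obtain ⟨l, hl1, hl2⟩ := exists_join (L := L) hpv
  have hlW : l ≠ W := by intro h; exact p.2 (h ▸ hl1)
  obtain ⟨x, hx, hxv, hxl⟩ := H.surj l hl2 hlW
  exact ⟨⟨x, hx, hxv⟩, by rw [hxl]; exact hl1⟩

noncomputable def prj (H : TypeI6 Γ v W σ) (p : Aff (P := P) W) : Xs (P := P) W v :=
  Classical.choose (exists_pr H p)

omit [Infinite P] in
theorem prj_mem (H : TypeI6 Γ v W σ) (p : Aff (P := P) W) : p.1 ∈ σ (prj H p).1 :=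
  Classical.choose_spec (exists_pr H p)

omit [Infinite P] in
theorem prj_eq (H : TypeI6 Γ v W σ) (p : Aff (P := P) W) (x : Xs (P := P) W v)
    (h : p.1 ∈ σ x.1) : prj H p = x := by
  have h1 := prj_mem H p
  have hpv : p.1 ≠ v := by intro h; exact p.2 (h ▸ H.flag)
  have h2 : σ (prj H p).1 = σ x.1 :=
    ln_unique hpv h1 (H.sig _ (prj H p).2.1 (prj H p).2.2).1 h (H.sig _ x.2.1 x.2.2).1
  exact Subtype.ext (H.inj _ _ (prj H p).2.1 (prj H p).2.2 x.2.1 x.2.2 h2)

omit [Infinite P] in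
theorem exists_ln (H : TypeI6 Γ v W σ) (p : Aff (P := P) W) :
    ∃ l : L, p.1 ∈ l ∧ (prj H p).1 ∈ l := by
  apply exists_join
  intro h
  exact p.2 (h ▸ (prj H p).2.1)

/-- the affine line joining `p` and `prj p` -/
noncomputable def ln (H : TypeI6 Γ v W σ) (p : Aff (P := P) W) : L :=
  Classical.choose (exists_ln H p)

omit [Infinite P] in
theorem ln_mem (H : TypeI6 Γ v W σ) (p : Aff (P := P) W) :
    p.1 ∈ ln H p ∧ (prj H p).1 ∈ ln H p := Classical.choose_spec (exists_ln H p)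

omit [Infinite P] in
theorem aff_ne (H : TypeI6 Γ v W σ) (p : Aff (P := P) W) (x : Xs (P := P) W v) :
    p.1 ≠ x.1 := by
  intro h
  exact p.2 (h ▸ x.2.1)

omit [Infinite P] in
theorem ln_eq (H : TypeI6 Γ v W σ) (p : Aff (P := P) W) {l : L} (h1 : p.1 ∈ l)
    (h2 : (prj H p).1 ∈ l) : ln H p = l :=
  ln_unique (aff_ne H p _) (ln_mem H p).1 (ln_mem H p).2 h1 h2

omit [Infinite P] in
theorem ln_ne_W (H : TypeI6 Γ v W σ) (p : Aff (P := P) W) : ln H p ≠ W := by
  intro h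
  have h1 := (ln_mem H p).1
  rw [h] at h1
  exact p.2 h1

omit [Infinite P] in
theorem ln_ne_sig (H : TypeI6 Γ v W σ) (p : Aff (P := P) W) (y : Xs (P := P) W v) :
    ln H p ≠ σ y.1 := by
  intro h
  have h1 := (ln_mem H p).2
  rw [h] at h1
  exact not_sig H y.2.1 y.2.2 (prj H p).2.1 (prj H p).2.2 h1

omit [Infinite P] in
theorem exists_T (H : TypeI6 Γ v W σ) (p : Aff (P := P) W) (y : Xs (P := P) W v) :
    ∃ q : Aff (P := P) W, q.1 ∈ ln H p ∧ q.1 ∈ σ y.1 := by
  obtain ⟨q, hq1, hq2⟩ := exists_meet (P := P) (ln_ne_sig H p y)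
  refine ⟨⟨q, ?_⟩, hq1, hq2⟩
  intro hqW
  have h1 : q = (prj H p).1 := pt_unique (ln_ne_W H p) hq1 hqW (ln_mem H p).2 (prj H p).2.1
  rw [h1] at hq2
  exact not_sig H y.2.1 y.2.2 (prj H p).2.1 (prj H p).2.2 hq2

noncomputable def TT (H : TypeI6 Γ v W σ) (p : Aff (P := P) W) (y : Xs (P := P) W v) :
    Aff (P := P) W := Classical.choose (exists_T H p y)

omit [Infinite P] in
theorem TT_mem (H : TypeI6 Γ v W σ) (p : Aff (P := P) W) (y : Xs (P := P) W v) :
    (TT H p y).1 ∈ ln H p ∧ (TT H p y).1 ∈ σ y.1 := Classical.choose_spec (exists_T H p y)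

omit [Infinite P] in
theorem TT_eq (H : TypeI6 Γ v W σ) (p q : Aff (P := P) W) (y : Xs (P := P) W v)
    (h1 : q.1 ∈ ln H p) (h2 : q.1 ∈ σ y.1) : TT H p y = q :=
  Subtype.ext (pt_unique (ln_ne_sig H p y) (TT_mem H p y).1 (TT_mem H p y).2 h1 h2)

omit [Infinite P] in
theorem prj_TT (H : TypeI6 Γ v W σ) (p : Aff (P := P) W) (y : Xs (P := P) W v) :
    prj H (TT H p y) = y := prj_eq H _ _ (TT_mem H p y).2

omit [Infinite P] in
theorem ln_inj (H : TypeI6 Γ v W σ) {p q : Aff (P := P) W} (h : ln H p = ln H q) : p = q := by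
  have h1 : prj H p = prj H q := by
    by_contra hne
    have h2 := (ln_mem H p).2
    have h3 := (ln_mem H q).2
    rw [← h] at h3
    have hne' : (prj H p).1 ≠ (prj H q).1 := fun h => hne (Subtype.ext h)
    exact ln_ne_W H p (ln_unique hne' h2 h3 (prj H p).2.1 (prj H q).2.1)
  apply Subtype.ext
  have h4 := (ln_mem H q).1
  rw [← h] at h4
  have h5 := prj_mem H q
  rw [← h1] at h5
  exact pt_unique (ln_ne_sig H p (prj H p)) (ln_mem H p).1 (prj_mem H p) h4 h5

omit [Infinite P] in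
/-- every affine line not through `v` is of the form `ln r` -/
theorem exists_ln_eq (H : TypeI6 Γ v W σ) {l : L} (hl : l ≠ W) (hv : v ∉ l) :
    ∃ r : Aff (P := P) W, ln H r = l ∧ (prj H r).1 ∈ l := by
  obtain ⟨x, hx1, hx2⟩ := exists_meet (P := P) hl
  have hxv : x ≠ v := by rintro rfl; exact hv hx1
  have hls : l ≠ σ x := by
    intro h
    exact hv (h ▸ (H.sig x hx2 hxv).1)
  obtain ⟨r, hr1, hr2⟩ := exists_meet (P := P) hls
  have hrW : r ∉ W := by
    intro hrW
    have h1 : r = x := pt_unique hl hr1 hrW hx1 hx2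
    rw [h1] at hr2
    exact not_sig H hx2 hxv hx2 hxv hr2
  have hp : prj H ⟨r, hrW⟩ = ⟨x, hx2, hxv⟩ := prj_eq H _ _ hr2
  refine ⟨⟨r, hrW⟩, ?_, ?_⟩
  · apply ln_eq
    · exact hr1
    · rw [hp]; exact hx1
  · rw [hp]; exact hx1

theorem exists_aff (W : L) : ∃ p : P, p ∉ W := Nondegenerate.exists_point W

theorem line_through (x : P) (hx : x ∈ W) : ∃ N : L, N ≠ W ∧ x ∈ N := by
  obtain ⟨p, hp⟩ := exists_aff (P := P) W
  have hne : x ≠ p := by rintro rfl; exact hp hx
  obtain ⟨N, h1, h2⟩ := exists_join (L := L) hne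
  exact ⟨N, by rintro rfl; exact hp h2, h1⟩

/-- a perspectivity with an additional fixed point is trivial -/
theorem persp_free (H : TypeI6 Γ v W σ) (x y : Xs (P := P) W v) (u : Γ)
    (hu : u ∈ persp Γ x.1 (σ x.1)) (hy : y ≠ x) (huy : u.1.1 y.1 = y.1) : u = 1 := by
  obtain ⟨hu1, hu2⟩ := hu
  have hW : u.1.2 W = W := fixW H u
  have hxy : x.1 ≠ y.1 := fun h => hy (Subtype.ext h.symm)
  -- a line with two distinct fixed points is fixed
  have fixl : ∀ (a b : P) (n : L), a ≠ b → a ∈ n → b ∈ n → u.1.1 a = a → u.1.1 b = b →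
      u.1.2 n = n := by
    intro a b n hab ha hb hua hub
    have h1 := (H.inc u.1 u.2 a n).1 ha
    have h2 := (H.inc u.1 u.2 b n).1 hb
    rw [hua] at h1
    rw [hub] at h2
    exact ln_unique hab h1 h2 ha hb
  -- lines through y
  have hly : ∀ n : L, y.1 ∈ n → u.1.2 n = n := by
    intro n hn
    by_cases hnW : n = W
    · rw [hnW, hW]
    have hns : n ≠ σ x.1 := by
      intro h
      exact not_sig H x.2.1 x.2.2 y.2.1 y.2.2 (h ▸ hn)
    obtain ⟨t, ht1, ht2⟩ := exists_meet (P := P) hns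
    have hty : t ≠ y.1 := by
      rintro rfl
      exact not_sig H x.2.1 x.2.2 y.2.1 y.2.2 ht2
    exact fixl t y.1 n hty ht1 hn (hu1 t ht2) huy
  have haff : ∀ p : P, p ∉ W → u.1.1 p = p := by
    intro p hp
    have hpx : p ≠ x.1 := by rintro rfl; exact hp x.2.1
    have hpy : p ≠ y.1 := by rintro rfl; exact hp y.2.1
    obtain ⟨n1, h1, h1'⟩ := exists_join (L := L) hpx
    obtain ⟨n2, h2, h2'⟩ := exists_join (L := L) hpy
    have hne : n1 ≠ n2 := by
      rintro rfl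
      have := ln_unique hxy h1' h2' x.2.1 y.2.1
      exact hp (this ▸ h1)
    have m1 := (H.inc u.1 u.2 p n1).1 h1
    have m2 := (H.inc u.1 u.2 p n2).1 h2
    rw [hu2 n1 h1'] at m1
    rw [hly n2 h2'] at m2
    exact pt_unique hne m1 m2 h1 h2
  have hall : ∀ p : P, u.1.1 p = p := by
    intro p
    by_cases hp : p ∈ W
    · obtain ⟨q, hq1, hq2⟩ := exists_off_two (P := P) W (σ x.1)
      have hpq : p ≠ q := by rintro rfl; exact hq1 hp
      obtain ⟨n, hn1, hn2⟩ := exists_join (L := L) hpq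
      have hnW : n ≠ W := by rintro rfl; exact hq1 hn2
      have hns : n ≠ σ x.1 := by rintro rfl; exact hq2 hn2
      obtain ⟨t, ht1, ht2⟩ := exists_meet (P := P) hns
      have htq : t ≠ q := by rintro rfl; exact hq2 ht2
      have hn := fixl t q n htq ht1 hn2 (hu1 t ht2) (haff q hq1)
      have m1 := (H.inc u.1 u.2 p n).1 hn1
      have m2 := (H.inc u.1 u.2 p W).1 hp
      rw [hn] at m1
      rw [hW] at m2
      exact pt_unique hnW m1 m2 hn1 hp
    · exact haff p hp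
  have hlines : ∀ l : L, u.1.2 l = l := by
    intro l
    obtain ⟨a, b, hab, ha, hb⟩ := two_points (P := P) l
    exact fixl a b l hab ha hb (hall a) (hall b)
  apply Subtype.ext
  apply Prod.ext
  · exact Equiv.ext hall
  · exact Equiv.ext hlines

/-- the system attached to a group of type I.6 of an infinite plane -/
noncomputable def toSys (H : TypeI6 Γ v W σ) :
    @Sys Γ (Aff (P := P) W) (Xs (P := P) W v) _ (actQ H) (actX H) := by
  letI := actQ H
  letI := actX H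
  exact
  { pt := ⟨Classical.choose (exists_aff (P := P) W), Classical.choose_spec (exists_aff (P := P) W)⟩
    pr := prj H
    T := TT H
    U := fun x => persp Γ x.1 (σ x.1)
    pr_T := prj_TT H
    T_self := fun p => TT_eq H p p _ (ln_mem H p).1 (prj_mem H p)
    pr_smul := by
      intro g p
      apply prj_eq
      change g.1.1 p.1 ∈ σ (g.1.1 (prj H p).1)
      rw [← (move H g (prj H p).2.1 (prj H p).2.2).2.2]
      exact (H.inc g.1 g.2 _ _).1 (prj_mem H p)
    T_smul := by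
      intro g p x
      symm
      apply TT_eq
      · have h1 : ln H (g • p) = g.1.2 (ln H p) := by
          apply ln_eq
          · exact (H.inc g.1 g.2 _ _).1 (ln_mem H p).1
          · have h2 : prj H (g • p) = g • prj H p := by
              apply prj_eq
              change g.1.1 p.1 ∈ σ (g.1.1 (prj H p).1)
              rw [← (move H g (prj H p).2.1 (prj H p).2.2).2.2]
              exact (H.inc g.1 g.2 _ _).1 (prj_mem H p)
            rw [h2]
            exact (H.inc g.1 g.2 _ _).1 (ln_mem H p).2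
        rw [h1]
        exact (H.inc g.1 g.2 _ _).1 (TT_mem H p x).1
      · change g.1.1 (TT H p x).1 ∈ σ (g.1.1 x.1)
        rw [← (move H g x.2.1 x.2.2).2.2]
        exact (H.inc g.1 g.2 _ _).1 (TT_mem H p x).2
    join := by
      intro p q hpq
      have hne : p.1 ≠ q.1 := by
        intro h
        exact hpq (congrArg (prj H) (Subtype.ext h))
      obtain ⟨l, hl1, hl2⟩ := exists_join (L := L) hne
      have hlW : l ≠ W := by rintro rfl; exact p.2 hl1
      have hvl : v ∉ l := by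
        intro hv
        apply hpq
        obtain ⟨x, hx, hxv, hxl⟩ := H.surj l hv hlW
        rw [prj_eq H p ⟨x, hx, hxv⟩ (by rw [hxl]; exact hl1),
          prj_eq H q ⟨x, hx, hxv⟩ (by rw [hxl]; exact hl2)]
      obtain ⟨r, hr, _⟩ := exists_ln_eq H hlW hvl
      exact ⟨r, TT_eq H _ _ _ (by rw [hr]; exact hl1) (prj_mem H p),
        TT_eq H _ _ _ (by rw [hr]; exact hl2) (prj_mem H q)⟩
    line_unique := by
      intro r s x y hxy h1 h2
      apply ln_inj H
      have hne : (TT H r x).1 ≠ (TT H r y).1 := by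
        intro h
        apply hxy
        rw [← prj_TT H r x, ← prj_TT H r y, Subtype.ext h]
      have m1 := (TT_mem H s x).1
      have m2 := (TT_mem H s y).1
      rw [← h1] at m1
      rw [← h2] at m2
      exact ln_unique hne (TT_mem H r x).1 (TT_mem H r y).1 m1 m2
    meet := by
      intro p q hpq
      have hne : ln H p ≠ ln H q := by
        intro h
        exact hpq (congrArg (prj H) (ln_inj H h))
      obtain ⟨t, ht1, ht2⟩ := exists_meet (P := P) hne
      have htW : t ∉ W := by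
        intro htW
        apply hpq
        have e1 := pt_unique (ln_ne_W H p) ht1 htW (ln_mem H p).2 (prj H p).2.1
        have e2 := pt_unique (ln_ne_W H q) ht2 htW (ln_mem H q).2 (prj H q).2.1
        exact Subtype.ext (e1.symm.trans e2)
      refine ⟨prj H ⟨t, htW⟩, ?_⟩
      rw [TT_eq H p ⟨t, htW⟩ _ ht1 (prj_mem H _), TT_eq H q ⟨t, htW⟩ _ ht2 (prj_mem H _)]
    lift := by
      intro q x hx
      obtain ⟨l, hl1, hl2⟩ := exists_join (L := L) (aff_ne H q x)
      have hlW : l ≠ W := by rintro rfl; exact q.2 hl1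
      have hls : l ≠ σ x.1 := by
        intro h
        apply hx
        exact (prj_eq H q x (h ▸ hl1)).symm
      obtain ⟨p, hp1, hp2⟩ := exists_meet (P := P) hls
      have hpW : p ∉ W := by
        intro hpW
        have h1 : p = x.1 := pt_unique hlW hp1 hpW hl2 x.2.1
        rw [h1] at hp2
        exact not_sig H x.2.1 x.2.2 x.2.1 x.2.2 hp2
      have hpx : prj H ⟨p, hpW⟩ = x := prj_eq H _ _ hp2
      refine ⟨⟨p, hpW⟩, hpx, ?_⟩
      have hln : ln H ⟨p, hpW⟩ = l := by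
        apply ln_eq
        · exact hp1
        · rw [hpx]; exact hl2
      exact TT_eq H _ _ _ (by rw [hln]; exact hl1) (prj_mem H q)
    lift_unique := by
      intro p q y hpq hy h
      apply ln_inj H
      have m1 := (TT_mem H p y).1
      have m2 := (TT_mem H q y).1
      rw [← h] at m2
      have m3 := (ln_mem H p).2
      have m4 := (ln_mem H q).2
      rw [← hpq] at m4
      exact ln_unique (aff_ne H (TT H p y) (prj H p)) m1 m3 m2 m4
    U_fix := by
      intro x u hu p hp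
      apply Subtype.ext
      apply hu.1
      rw [← hp]
      exact prj_mem H p
    U_fix' := by
      intro x u hu
      apply Subtype.ext
      obtain ⟨N, hN, hxN⟩ := line_through (P := P) x.1 x.2.1
      have m1 := (H.inc u.1 u.2 x.1 N).1 hxN
      have m2 := (H.inc u.1 u.2 x.1 W).1 x.2.1
      rw [hu.2 N hxN] at m1
      rw [fixW H u] at m2
      exact pt_unique hN m1 m2 hxN x.2.1
    U_trans := by
      intro x y z hy hz
      obtain ⟨γ, hγ, h1, h2, h3⟩ := (H.tr x.1 (σ x.1)).2 ⟨x.2.1, x.2.2, rfl⟩ W x.2.1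
        (H.sig x.1 x.2.1 x.2.2).2.symm y.1 z.1 y.2.1 z.2.1 (fun h => hy (Subtype.ext h))
        (fun h => hz (Subtype.ext h)) (not_sig H x.2.1 x.2.2 y.2.1 y.2.2)
        (not_sig H x.2.1 x.2.2 z.2.1 z.2.2)
      exact ⟨⟨γ, hγ⟩, ⟨h1, h2⟩, Subtype.ext h3⟩
    U_free := by
      intro x u hu y hy huy
      exact persp_free H x y u hu hy (congrArg Subtype.val huy)
    U_conj := by
      intro g x u hu
      have hs := (move H g x.2.1 x.2.2).2.2
      refine ⟨fun r hr => ?_, fun N hN => ?_⟩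
      · change g.1.1 (u.1.1 ((g⁻¹).1.1 r)) = r
        have hr' : r ∈ g.1.2 (σ x.1) := by
          rw [hs]; exact hr
        rw [hu.1 _ ((mem_smul_line H g r _).1 hr'), app_inv]
      · change g.1.2 (u.1.2 ((g⁻¹).1.2 N)) = N
        have hxN : x.1 ∈ (g⁻¹).1.2 N := by
          have h5 : g.1.1 x.1 ∈ N := hN
          have := (H.inc (g⁻¹).1 (g⁻¹).2 (g.1.1 x.1) N).1 h5
          rwa [inv_app] at this
        rw [hu.2 _ hxN, app_inv2] }

end Pool.Agent.I6
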