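import Pool.Agent.Lib_MP_f98417_co.Basic

set_option autoImplicit false

namespace Pool.Agent.I6.Alg

variable {M A : Type} [AddGroup M] (S : Alg M A)

/-- Characteristic simplicity of the root group: a normal subgroup invariant under the maps
`n b ∘ n c` is trivial or everything, unless the group has exponent two. -/
theorem char_simple (Y : AddSubgroup M) (hN : ∀ y ∈ Y, ∀ g : M, g + y + -g ∈ Y)
    (hY : ∀ b c y : M, b ≠ 0 → c ≠ 0 → y ≠ 0 → y ∈ Y → S.n b (S.n c y) ∈ Y)
    (hne : ∃ y ∈ Y, y ≠ 0) : (∀ z : M, z ∈ Y) ∨ ∀ z : M, z + z = 0 := by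
  have h1 : ∀ b y : M, b ≠ 0 → y ≠ 0 → y ∈ Y → S.n b y ∈ Y := by
    intro b y hb hy hyY
    have h := hY b (-y) (-y) hb (neg_ne_zero.2 hy) (neg_ne_zero.2 hy) (Y.neg_mem hyY)
    rwa [S.n_self (neg_ne_zero.2 hy), neg_neg] at h
  have h2 : ∀ c : M, c + c ∈ Y := by
    intro c
    obtain ⟨y, hyY, hy⟩ := hne
    by_cases hc : c = 0
    · subst hc; simpa using Y.zero_mem
    by_cases hyc : y + c = 0
    · have hcY : c ∈ Y := by
        have : c = -y := (neg_eq_of_add_eq_zero_right hyc).symm
        rw [this]; exact Y.neg_mem hyY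
      exact Y.add_mem hcY hcY
    · have e := S.n_add_left hy hc hyc
      have m1 : S.n (y + c) y ∈ Y := h1 _ _ hyc hy hyY
      have m2 : S.n c y ∈ Y := h1 _ _ hc hy hyY
      have q : -y + S.n c y ∈ Y := Y.add_mem (Y.neg_mem hyY) m2
      have q2 : -c + (-y + S.n c y) + -(-c) ∈ Y := hN _ q (-c)
      rw [e] at m1
      have m3 : -(-c + (-y + S.n c y) + -(-c)) + (-c - y + S.n c y - c) ∈ Y :=
        Y.add_mem (Y.neg_mem q2) m1
      have e2 : -(-c + (-y + S.n c y) + -(-c)) + (-c - y + S.n c y - c) = -(c + c) := by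
        simp only [sub_eq_add_neg, neg_add_rev, neg_neg, add_assoc]
        simp
      rw [e2] at m3
      exact (Y.neg_mem_iff).1 m3
  have h3 : ∀ c : M, c ∉ Y → c + c = 0 := by
    intro c hc
    by_contra h
    have h4 := S.four h
    have h5 := S.half_unique (w := c) rfl h4
    apply hc
    rw [← h5]
    exact Y.add_mem (h2 c) (h1 _ _ h h4 (h2 (c + c)))
  by_cases hM : ∀ z : M, z ∈ Y
  · exact Or.inl hM
  right
  push Not at hM
  obtain ⟨i, hi⟩ := hM
  have h4 : ∀ c y : M, c ∉ Y → y ∈ Y → c + y + c = -y := by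
    intro c y hc hy
    have hcy : c + y ∉ Y := by
      intro h
      apply hc
      have := Y.add_mem h (Y.neg_mem hy)
      simpa using this
    have h5 := h3 _ hcy
    have : c + y + c + y = 0 := by rw [add_assoc (c + y)]; exact h5
    exact eq_neg_of_add_eq_zero_left this
  by_contra hex
  push Not at hex
  have hb : ∃ b ∈ Y, b + b ≠ 0 := by
    by_contra hcon
    push Not at hcon
    obtain ⟨z, hz⟩ := hex
    by_cases hzY : z ∈ Y
    · exact hz (hcon z hzY)
    · exact hz (h3 z hzY)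
  obtain ⟨b, hbY, hbb⟩ := hb
  have hb0 := ne_of_two hbb
  have hi0 : i ≠ 0 := by rintro rfl; exact hi Y.zero_mem
  have hbi : b + i ∉ Y := by
    intro h
    apply hi
    have := Y.add_mem (Y.neg_mem hbY) h
    simpa using this
  have hbi0 : b + i ≠ 0 := by intro h; exact hbi (h ▸ Y.zero_mem)
  have hout : ∀ b' z : M, b' ≠ 0 → z ∉ Y → S.n b' z ∉ Y := by
    intro b' z hb' hz h
    have hz0 : z ≠ 0 := by rintro rfl; exact hz Y.zero_mem
    apply hz
    rw [← S.n_inv hb' hz0]
    exact h1 _ _ (neg_ne_zero.2 hb') (S.n_ne hb' hz0) h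
  have hcd : ∀ c d : M, c ∉ Y → d ∉ Y → c + d ∈ Y := by
    intro c d hc hd
    by_contra h
    have e1 := h4 c b hc hbY
    have e2 := h4 d b hd hbY
    have e3 := h4 (c + d) b h hbY
    have e4 := h3 _ h
    have e5 : c + d = d + c := by
      have hcc := h3 c hc
      have hdd := h3 d hd
      have n1 : -c = c := neg_eq_of_add_eq_zero_left hcc
      have n2 : -d = d := neg_eq_of_add_eq_zero_left hdd
      have n3 : -(c + d) = c + d := neg_eq_of_add_eq_zero_left e4
      rw [neg_add_rev, n1, n2] at n3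
      exact n3.symm
    rw [show c + d + b + (c + d) = c + d + b + (d + c) by rw [e5]] at e3
    have e6 : c + d + b + (d + c) = c + (d + b + d) + c := by
      simp only [add_assoc]
    rw [e6, e2] at e3
    have e7 := h4 c (-b) hc (Y.neg_mem hbY)
    rw [e7, neg_neg] at e3
    apply hbb
    nth_rewrite 2 [e3]
    exact add_neg_cancel b
  have hkey := S.cir_eq hb0 hi0 hbi0
  have l1 : b + S.n b (b + i) ∉ Y := by
    intro h
    apply hout b _ hb0 hbi
    have := Y.add_mem (Y.neg_mem hbY) h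
    simpa using this
  apply l1
  rw [hkey]
  exact hcd _ _ (hout _ _ (neg_ne_zero.2 hi0) hbi) hi

end Pool.Agent.I6.Alg
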