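import Pool.Agent.Lib_MP_f98417_co.Defs

set_option autoImplicit false

/-!
Intermediate structure: affine points `Q`, the set `X` (points of `W` other than `v`), the
projection `pr` from `v`, and `T p y` = the affine point over `y` on the line joining `p` with
`pr p` (points and affine lines not through `v` correspond to each other).
-/

namespace Pool.Agent.I6

structure Sys (G Q X : Type) [Group G] [MulAction G Q] [MulAction G X] where
  pt : Q
  pr : Q → X
  T : Q → X → Q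
  U : X → Subgroup G
  pr_T : ∀ p x, pr (T p x) = x
  T_self : ∀ p, T p (pr p) = p
  pr_smul : ∀ (g : G) p, pr (g • p) = g • pr p
  T_smul : ∀ (g : G) p x, g • T p x = T (g • p) (g • x)
  join : ∀ p q, pr p ≠ pr q → ∃ r, T r (pr p) = p ∧ T r (pr q) = q
  line_unique : ∀ r s x y, x ≠ y → T r x = T s x → T r y = T s y → r = s
  meet : ∀ p q, pr p ≠ pr q → ∃ y, T p y = T q y
  lift : ∀ q x, x ≠ pr q → ∃ p, pr p = x ∧ T p (pr q) = q
  lift_unique : ∀ p q y, pr p = pr q → y ≠ pr p → T p y = T q y → p = q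
  U_fix : ∀ x, ∀ u ∈ U x, ∀ p, pr p = x → u • p = p
  U_fix' : ∀ x, ∀ u ∈ U x, u • x = x
  U_trans : ∀ x y z, y ≠ x → z ≠ x → ∃ u ∈ U x, u • y = z
  U_free : ∀ x, ∀ u ∈ U x, ∀ y, y ≠ x → u • y = y → u = 1
  U_conj : ∀ (g : G) x, ∀ u ∈ U x, g * u * g⁻¹ ∈ U (g • x)

namespace Sys

variable {G Q X : Type} [Group G] [MulAction G Q] [MulAction G X] (S : Sys G Q X)

theorem U_eq {x y : X} {u u' : G} (hu : u ∈ S.U x) (hu' : u' ∈ S.U x) (hy : y ≠ x)
    (h : u • y = u' • y) : u = u' := by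
  have h1 : (u'⁻¹ * u) • y = y := by
    rw [mul_smul, h, inv_smul_smul]
  have h2 := S.U_free x _ ((S.U x).mul_mem ((S.U x).inv_mem hu') hu) y hy h1
  exact (inv_mul_eq_one.1 h2).symm

theorem U_ne {x y : X} {u : G} (hu : u ∈ S.U x) (hy : y ≠ x) : u • y ≠ x := by
  intro h
  apply hy
  have h1 := S.U_fix' x u hu
  exact MulAction.injective u (h.trans h1.symm)

/-! ### the elation `e` -/

theorem e_indep (p : Q) {y y' : X} (hy : y ≠ S.pr p) (hy' : y' ≠ S.pr p) :
    S.T (S.T p y) (S.pr p) = S.T (S.T p y') (S.pr p) := by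
  obtain ⟨u, hu, huy⟩ := S.U_trans (S.pr p) y y' hy hy'
  have h1 := S.U_fix _ u hu (S.T (S.T p y) (S.pr p)) (S.pr_T _ _)
  rw [S.T_smul, S.T_smul, S.U_fix _ u hu p rfl, huy, S.U_fix' _ u hu] at h1
  exact h1.symm

open Classical in
/-- the central elation, as a map of affine points -/
noncomputable def e (o w : X) (p : Q) : Q :=
  S.T (S.T p (if S.pr p = w then o else w)) (S.pr p)

variable {o w : X}

theorem e_eq (how : o ≠ w) (p : Q) {y : X} (hy : y ≠ S.pr p) :
    S.T (S.T p y) (S.pr p) = S.e o w p := by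
  unfold e
  split_ifs with h
  · exact S.e_indep p hy (by rw [h]; exact how)
  · exact S.e_indep p hy (Ne.symm h)

theorem pr_e (p : Q) : S.pr (S.e o w p) = S.pr p := S.pr_T _ _

theorem exists_ne (how : o ≠ w) (x : X) : ∃ y : X, y ≠ x := by
  by_cases h : o = x
  · exact ⟨w, by rw [← h]; exact how.symm⟩
  · exact ⟨o, h⟩

theorem e_smul (how : o ≠ w) (g : G) (p : Q) : g • S.e o w p = S.e o w (g • p) := by
  obtain ⟨y, hy⟩ := exists_ne how (S.pr p)
  rw [← S.e_eq how p hy, S.T_smul, S.T_smul, ← S.pr_smul]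
  apply S.e_eq how
  rw [S.pr_smul]
  intro h
  exact hy (MulAction.injective g h)

theorem e_T (how : o ≠ w) (p : Q) (y : X) : S.e o w (S.T p y) = S.T (S.e o w p) y := by
  by_cases hy : y = S.pr p
  · subst hy
    rw [S.T_self]
    have := S.T_self (S.e o w p)
    rw [S.pr_e] at this
    exact this.symm
  · have h1 : S.pr p ≠ S.pr (S.T p y) := by rw [S.pr_T]; exact Ne.symm hy
    rw [← S.e_eq how (S.T p y) h1, S.pr_T, S.e_eq how p hy]

theorem e_inj (how : o ≠ w) {p q : Q} (h : S.e o w p = S.e o w q) : p = q := by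
  have hpq : S.pr p = S.pr q := by rw [← S.pr_e (o := o) (w := w) p, h, S.pr_e]
  obtain ⟨y, hy⟩ := exists_ne how (S.pr p)
  rw [← S.e_eq how p hy, ← S.e_eq how q (hpq ▸ hy)] at h
  have h1 : S.T p y = S.T q y := by
    apply S.lift_unique _ _ (S.pr p)
    · rw [S.pr_T, S.pr_T]
    · rw [S.pr_T]; exact Ne.symm hy
    · rw [h, hpq]
  exact S.lift_unique _ _ y hpq hy h1

theorem e_surj (how : o ≠ w) (p : Q) : ∃ q, S.pr q = S.pr p ∧ S.e o w q = p := by
  obtain ⟨y, hy⟩ := exists_ne how (S.pr p)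
  obtain ⟨r, hr, hr'⟩ := S.lift p y hy
  obtain ⟨q, hq, hq'⟩ := S.lift r (S.pr p) (by rw [hr]; exact Ne.symm hy)
  refine ⟨q, hq, ?_⟩
  rw [← S.e_eq how q (y := y) (by rw [hq]; exact hy)]
  rw [hr] at hq'
  rw [hq', hq, hr']

/-! ### lifting -/

open Classical in
noncomputable def lam (x : X) (q : Q) : Q :=
  if h : x ≠ S.pr q then Classical.choose (S.lift q x h) else q

theorem lam_spec {x : X} {q : Q} (h : x ≠ S.pr q) :
    S.pr (S.lam x q) = x ∧ S.T (S.lam x q) (S.pr q) = q := by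
  unfold lam
  rw [dif_pos h]
  exact Classical.choose_spec (S.lift q x h)

theorem lam_eq {x : X} {q p : Q} (h : x ≠ S.pr q) (h1 : S.pr p = x)
    (h2 : S.T p (S.pr q) = q) : S.lam x q = p := by
  have h3 := S.lam_spec h
  apply S.lift_unique _ _ (S.pr q)
  · rw [h3.1, h1]
  · rw [h3.1]; exact Ne.symm h
  · rw [h3.2, h2]

/-! ### the maps `F` -/

/-- `f z a`, for `a` over `w` -/
noncomputable def f (o w : X) (z : G) (a : Q) : Q := S.lam w (S.T (S.T a o) (z • o))

theorem f_pr (how : o ≠ w) {z : G} (hz : z ∈ S.U w) (a : Q) : S.pr (S.f o w z a) = w := by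
  apply (S.lam_spec _).1
  rw [S.pr_T]
  exact (S.U_ne hz how).symm

theorem f_T (how : o ≠ w) {z : G} (hz : z ∈ S.U w) (a : Q) :
    S.T (S.f o w z a) (z • o) = S.T (S.T a o) (z • o) := by
  have := (S.lam_spec (x := w) (q := S.T (S.T a o) (z • o))
    (by rw [S.pr_T]; exact (S.U_ne hz how).symm)).2
  rw [S.pr_T] at this
  exact this

theorem f_eq (how : o ≠ w) {z : G} (hz : z ∈ S.U w) {a p : Q} (hp : S.pr p = w)
    (h : S.T p (z • o) = S.T (S.T a o) (z • o)) : S.f o w z a = p := by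
  apply S.lam_eq
  · rw [S.pr_T]; exact (S.U_ne hz how).symm
  · exact hp
  · rw [S.pr_T]; exact h

theorem zo_ne (how : o ≠ w) {z : G} (hz : z ∈ S.U w) (h1 : z ≠ 1) : z • o ≠ o :=
  fun h => h1 (S.U_free w z hz o how h)

theorem f_inj (how : o ≠ w) {z : G} (hz : z ∈ S.U w) (h1 : z ≠ 1) {a b : Q}
    (ha : S.pr a = w) (hb : S.pr b = w) (h : S.f o w z a = S.f o w z b) : a = b := by
  have h2 : S.T (S.T a o) (z • o) = S.T (S.T b o) (z • o) := by
    rw [← S.f_T how hz, ← S.f_T how hz, h]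
  have h3 : S.T a o = S.T b o := by
    apply S.lift_unique _ _ (z • o)
    · rw [S.pr_T, S.pr_T]
    · rw [S.pr_T]; exact S.zo_ne how hz h1
    · exact h2
  exact S.lift_unique _ _ o (ha.trans hb.symm) (by rw [ha]; exact how) h3

theorem f_surj (how : o ≠ w) {z : G} (hz : z ∈ S.U w) (h1 : z ≠ 1) {b : Q}
    (hb : S.pr b = w) : ∃ a, S.pr a = w ∧ S.f o w z a = b := by
  obtain ⟨r, hr, hr'⟩ := S.lift (S.T b (z • o)) o
    (by rw [S.pr_T]; exact (S.zo_ne how hz h1).symm)
  obtain ⟨a, ha, ha'⟩ := S.lift r w (by rw [hr]; exact how.symm)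
  refine ⟨a, ha, S.f_eq how hz hb ?_⟩
  rw [hr] at ha'
  rw [S.pr_T] at hr'
  rw [ha', hr']

theorem f_e (how : o ≠ w) {z : G} (hz : z ∈ S.U w) (a : Q) :
    S.f o w z (S.e o w a) = S.e o w (S.f o w z a) := by
  apply S.f_eq how hz
  · rw [S.pr_e, S.f_pr how hz]
  · rw [← S.e_T how, ← S.e_T how, ← S.e_T how, S.f_T how hz]

theorem Tfo (how : o ≠ w) {z : G} (hz : z ∈ S.U w) {a : Q} (_ha : S.pr a = w) :
    S.T (S.f o w z a) o = S.T (z⁻¹ • S.T a o) o := by
  have h1 : z⁻¹ • S.T (S.f o w z a) (z • o) = S.T (S.f o w z a) o := by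
    rw [S.T_smul, S.U_fix w _ ((S.U w).inv_mem hz) _ (S.f_pr how hz a), inv_smul_smul]
  rw [← h1, S.f_T how hz, S.T_smul, inv_smul_smul]

theorem f_inv_f (how : o ≠ w) {z : G} (hz : z ∈ S.U w) (h1 : z ≠ 1) {a : Q}
    (ha : S.pr a = w) : S.f o w z⁻¹ (S.f o w z a) = S.e o w a := by
  have hz' := (S.U w).inv_mem hz
  apply S.f_eq how hz'
  · rw [S.pr_e, ha]
  · rw [S.Tfo how hz ha, ← S.e_T how]
    have h2 : S.pr (z⁻¹ • S.T a o) = z⁻¹ • o := by rw [S.pr_smul, S.pr_T]
    have h3 : o ≠ S.pr (z⁻¹ • S.T a o) := by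
      rw [h2]
      exact (S.zo_ne how hz' (inv_ne_one.2 h1)).symm
    have h4 := S.e_eq how (z⁻¹ • S.T a o) h3
    rw [h2] at h4
    rw [h4, S.T_smul, S.U_fix w _ hz' a ha]

theorem f_inj' (how : o ≠ w) {x y : G} (hx : x ∈ S.U w) (hy : y ∈ S.U w) {a : Q}
    (h : S.f o w x a = S.f o w y a) : x = y := by
  by_contra hne
  have h1 : x • o ≠ y • o := fun h2 => hne (S.U_eq hx hy how h2)
  have h2 : S.f o w x a = S.T a o := by
    apply S.line_unique _ _ (x • o) (y • o) h1
    · exact S.f_T how hx a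
    · rw [h]; exact S.f_T how hy a
  have h3 : w = o := by
    rw [← S.f_pr how hx a, h2, S.pr_T]
  exact how h3.symm

theorem f_ne (how : o ≠ w) {x : G} (hx : x ∈ S.U w) (h1 : x ≠ 1) {a : Q}
    (ha : S.pr a = w) : S.f o w x a ≠ a := by
  intro h
  have h2 : a = S.T a o := by
    apply S.line_unique _ _ (x • o) o (S.zo_ne how hx h1)
    · have := S.f_T how hx a
      rw [h] at this
      exact this
    · have := S.T_self (S.T a o)
      rw [S.pr_T] at this
      exact this.symm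
  have h3 : w = o := by rw [← ha]; nth_rewrite 1 [h2]; exact S.pr_T _ _
  exact how h3.symm

theorem f_ne_e (how : o ≠ w) {x : G} (hx : x ∈ S.U w) {a : Q}
    (ha : S.pr a = w) : S.f o w x a ≠ S.e o w a := by
  intro h
  have h2 : S.e o w a = S.T a o := by
    apply S.line_unique _ _ (x • o) w (S.U_ne hx how)
    · rw [← h]; exact S.f_T how hx a
    · have h4 := S.T_self (S.e o w a)
      rw [S.pr_e, ha] at h4
      rw [h4]
      have h5 := S.e_eq how a (y := o) (by rw [ha]; exact how)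
      rw [ha] at h5
      exact h5.symm
  have h3 : w = o := by
    rw [← ha, ← S.pr_e (o := o) (w := w) a, h2, S.pr_T]
  exact how h3.symm

theorem e_ne (how : o ≠ w) {a : Q} (ha : S.pr a = w) : S.e o w a ≠ a := by
  intro h
  have h5 := S.e_eq how a (y := o) (by rw [ha]; exact how)
  rw [ha, h] at h5
  have h2 : S.T a o = a := by
    apply S.line_unique _ _ w o how.symm
    · rw [h5]
      have h6 := S.T_self a
      rw [ha] at h6
      exact h6.symm
    · have := S.T_self (S.T a o)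
      rw [S.pr_T] at this
      exact this
  have h3 : o = w := by rw [← ha, ← h2, S.pr_T]
  exact how h3

theorem f_cover (how : o ≠ w) {a b : Q} (ha : S.pr a = w) (hb : S.pr b = w) :
    b = a ∨ b = S.e o w a ∨ ∃ x ∈ S.U w, x ≠ 1 ∧ S.f o w x a = b := by
  obtain ⟨y, hy⟩ := S.meet b (S.T a o) (by rw [hb, S.pr_T]; exact how.symm)
  by_cases hyw : y = w
  · right; left
    rw [hyw] at hy
    have h6 := S.T_self b
    rw [hb] at h6
    have h5 := S.e_eq how a (y := o) (by rw [ha]; exact how)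
    rw [ha] at h5
    rw [← h6, hy, h5]
  by_cases hyo : y = o
  · left
    rw [hyo] at hy
    have := S.T_self (S.T a o)
    rw [S.pr_T] at this
    rw [this] at hy
    exact S.lift_unique _ _ o (hb.trans ha.symm) (by rw [hb]; exact how) hy
  · right; right
    obtain ⟨x, hx, hxo⟩ := S.U_trans w o y how hyw
    refine ⟨x, hx, ?_, ?_⟩
    · rintro rfl
      apply hyo
      rw [← hxo, one_smul]
    · apply S.f_eq how hx hb
      rw [hxo]
      exact hy

end Sys

end Pool.Agent.I6
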