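import Pool.Agent.Lib_MP_f98417_co.Sys

set_option autoImplicit false

namespace Pool.Agent.I6

namespace Sys

variable {G Q X : Type} [Group G] [MulAction G Q] [MulAction G X] (S : Sys G Q X)

open Classical in
/-- the element of `U o` taking `w` to `b • o` -/
noncomputable def vv (o w : X) (b : G) : G :=
  if h : ∃ v ∈ S.U o, v • w = b • o then Classical.choose h else 1

/-- the map swapping `o` and `w` -/
noncomputable def nn (o w : X) (b : G) : G := b⁻¹ * S.vv o w b * b⁻¹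

open Classical in
/-- the element of `U w` taking `o` to `x` -/
noncomputable def tr (o w : X) (x : X) : G :=
  if h : ∃ z ∈ S.U w, z • o = x then Classical.choose h else 1

noncomputable def nact (o w : X) (b z : G) : G := S.tr o w (S.nn o w b • (z • o))

variable {o w : X}

theorem tr_mem (x : X) : S.tr o w x ∈ S.U w := by
  unfold tr
  split_ifs with h
  · exact (Classical.choose_spec h).1
  · exact (S.U w).one_mem

theorem tr_spec (how : o ≠ w) {x : X} (hx : x ≠ w) : S.tr o w x • o = x := by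
  have h : ∃ z ∈ S.U w, z • o = x := S.U_trans w o x how hx
  unfold tr
  rw [dif_pos h]
  exact (Classical.choose_spec h).2

theorem vv_spec (how : o ≠ w) {b : G} (hb : b ∈ S.U w) (h1 : b ≠ 1) :
    S.vv o w b ∈ S.U o ∧ S.vv o w b • w = b • o := by
  have h : ∃ v ∈ S.U o, v • w = b • o :=
    S.U_trans o w (b • o) how.symm (S.zo_ne how hb h1)
  unfold vv
  rw [dif_pos h]
  exact Classical.choose_spec h

theorem e_eq' (how : o ≠ w) {a : Q} (ha : S.pr a = w) :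
    S.T (S.T a o) w = S.e o w a := by
  have h5 := S.e_eq how a (y := o) (by rw [ha]; exact how)
  rw [ha] at h5
  exact h5

theorem vv_e (how : o ≠ w) {b : G} (hb : b ∈ S.U w) (h1 : b ≠ 1) {a : Q} (ha : S.pr a = w) :
    S.vv o w b • S.e o w a = S.T (S.f o w b a) (b • o) := by
  have hv := S.vv_spec how hb h1
  rw [← S.e_eq' how ha, S.T_smul, hv.2, S.U_fix o _ hv.1 _ (S.pr_T _ _), S.f_T how hb]

theorem special (how : o ≠ w) {b : G} (hb : b ∈ S.U w) (h1 : b ≠ 1) :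
    S.vv o w b • (b⁻¹ • o) = w := by
  have hv := S.vv_spec how hb h1
  have hne : (S.vv o w b)⁻¹ • w ≠ w := by
    intro h
    have h2 : S.vv o w b • w = w := (inv_smul_eq_iff.1 h).symm
    rw [hv.2] at h2
    exact S.U_ne hb how h2
  obtain ⟨c, hc, hco⟩ := S.U_trans w o _ how hne
  have hvc : S.vv o w b • (c • o) = w := by rw [hco, smul_inv_smul]
  have ha : S.pr (S.T S.pt w) = w := S.pr_T _ _
  set a := S.T S.pt w
  -- (B)
  have hB : S.vv o w b • (c • S.T (S.f o w c a) o) = S.e o w a := by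
    rw [S.T_smul c, S.U_fix w c hc _ (S.f_pr how hc a), S.f_T how hc, S.T_smul, hvc,
      S.U_fix o _ hv.1 _ (S.pr_T _ _), S.e_eq' how ha]
  obtain ⟨a', ha', hea'⟩ := S.e_surj how (S.f o w c a)
  rw [S.f_pr how hc] at ha'
  have hA : S.vv o w b • (c • S.T (S.e o w a') o) = S.e o w (S.f o w b a') := by
    rw [S.T_smul c, S.U_fix w c hc _ (by rw [S.pr_e, ha']), S.T_smul, hvc,
      S.vv_e how hb h1 ha']
    have h5 := S.e_eq how (S.f o w b a') (y := b • o)
      (by rw [S.f_pr how hb]; exact S.U_ne hb how)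
    rw [S.f_pr how hb] at h5
    exact h5
  rw [hea', hB] at hA
  have h6 : S.f o w b a' = a := (S.e_inj how hA).symm
  have h7 : S.f o w b (S.f o w c a) = S.f o w b (S.f o w b⁻¹ a) := by
    rw [← hea', S.f_e how hb, h6]
    have h8 := S.f_inv_f how ((S.U w).inv_mem hb) (inv_ne_one.2 h1) ha
    rw [inv_inv] at h8
    exact h8.symm
  have h9 := S.f_inj how hb h1 (S.f_pr how hc a) (S.f_pr how ((S.U w).inv_mem hb) a) h7
  have h10 := S.f_inj' how hc ((S.U w).inv_mem hb) h9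
  rw [← h10]
  exact hvc

theorem vv_inv (how : o ≠ w) {b : G} (hb : b ∈ S.U w) (h1 : b ≠ 1) :
    S.vv o w b⁻¹ = (S.vv o w b)⁻¹ := by
  have hv := S.vv_spec how hb h1
  have hv' := S.vv_spec how ((S.U w).inv_mem hb) (inv_ne_one.2 h1)
  apply S.U_eq hv'.1 ((S.U o).inv_mem hv.1) how.symm
  rw [hv'.2, eq_inv_smul_iff]
  exact S.special how hb h1

theorem vv_inj (how : o ≠ w) {b c : G} (hb : b ∈ S.U w) (h1 : b ≠ 1) (hc : c ∈ S.U w)
    (h2 : c ≠ 1) (h : S.vv o w b = S.vv o w c) : b = c := by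
  apply S.U_eq hb hc how
  rw [← (S.vv_spec how hb h1).2, ← (S.vv_spec how hc h2).2, h]

theorem nn_o (how : o ≠ w) {b : G} (hb : b ∈ S.U w) (h1 : b ≠ 1) : S.nn o w b • o = w := by
  unfold nn
  rw [mul_smul, mul_smul, S.special how hb h1, S.U_fix' w _ ((S.U w).inv_mem hb)]

theorem nn_w (how : o ≠ w) {b : G} (hb : b ∈ S.U w) (h1 : b ≠ 1) : S.nn o w b • w = o := by
  unfold nn
  rw [mul_smul, mul_smul, S.U_fix' w _ ((S.U w).inv_mem hb), (S.vv_spec how hb h1).2,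
    inv_smul_smul]

theorem nn_inv_o (how : o ≠ w) {b : G} (hb : b ∈ S.U w) (h1 : b ≠ 1) :
    (S.nn o w b)⁻¹ • o = w := by
  rw [inv_smul_eq_iff, S.nn_w how hb h1]

theorem nn_inv_w (how : o ≠ w) {b : G} (hb : b ∈ S.U w) (h1 : b ≠ 1) :
    (S.nn o w b)⁻¹ • w = o := by
  rw [inv_smul_eq_iff, S.nn_o how hb h1]

theorem nn_inv (how : o ≠ w) {b : G} (hb : b ∈ S.U w) (h1 : b ≠ 1) :
    S.nn o w b⁻¹ = (S.nn o w b)⁻¹ := by
  unfold nn
  rw [S.vv_inv how hb h1]
  group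

theorem nn_zo_ne (how : o ≠ w) {b z : G} (hb : b ∈ S.U w) (h1 : b ≠ 1) (hz : z ∈ S.U w)
    (h2 : z ≠ 1) : S.nn o w b • (z • o) ≠ w := by
  intro h
  exact S.zo_ne how hz h2 (MulAction.injective (S.nn o w b) (h.trans (S.nn_o how hb h1).symm))

theorem nact_mem (b z : G) : S.nact o w b z ∈ S.U w := S.tr_mem _

theorem nact_o (how : o ≠ w) {b z : G} (hb : b ∈ S.U w) (h1 : b ≠ 1) (hz : z ∈ S.U w)
    (h2 : z ≠ 1) : S.nact o w b z • o = S.nn o w b • (z • o) :=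
  S.tr_spec how (S.nn_zo_ne how hb h1 hz h2)

theorem nact_ne (how : o ≠ w) {b z : G} (hb : b ∈ S.U w) (h1 : b ≠ 1) (hz : z ∈ S.U w)
    (h2 : z ≠ 1) : S.nact o w b z ≠ 1 := by
  intro h
  have h3 := S.nact_o how hb h1 hz h2
  rw [h, one_smul] at h3
  have h4 : w = z • o := MulAction.injective (S.nn o w b) ((S.nn_w how hb h1).trans h3)
  exact S.U_ne hz how h4.symm

theorem C1 (how : o ≠ w) {b z : G} (hb : b ∈ S.U w) (h1 : b ≠ 1) (hz : z ∈ S.U w)
    (h2 : z ≠ 1) : S.nn o w b * z * (S.nn o w b)⁻¹ = S.vv o w (S.nact o w b z) := by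
  have h3 := S.U_conj (S.nn o w b) w z hz
  rw [S.nn_w how hb h1] at h3
  have hv := S.vv_spec how (S.nact_mem b z) (S.nact_ne how hb h1 hz h2)
  apply S.U_eq h3 hv.1 how.symm
  rw [hv.2, mul_smul, mul_smul, S.nn_inv_w how hb h1, S.nact_o how hb h1 hz h2]

theorem C2 (how : o ≠ w) {b z : G} (hb : b ∈ S.U w) (h1 : b ≠ 1) (hz : z ∈ S.U w)
    (h2 : z ≠ 1) : S.nn o w b * S.vv o w z * (S.nn o w b)⁻¹ = S.nact o w b z := by
  have hv := S.vv_spec how hz h2
  have h3 := S.U_conj (S.nn o w b) o _ hv.1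
  rw [S.nn_o how hb h1] at h3
  apply S.U_eq h3 (S.nact_mem b z) how
  rw [mul_smul, mul_smul, S.nn_inv_o how hb h1, hv.2, S.nact_o how hb h1 hz h2]

theorem nact_self (how : o ≠ w) {b : G} (hb : b ∈ S.U w) (h1 : b ≠ 1) :
    S.nact o w b b = b⁻¹ := by
  apply S.U_eq (S.nact_mem b b) ((S.U w).inv_mem hb) how
  rw [S.nact_o how hb h1 hb h1]
  unfold nn
  rw [mul_smul, mul_smul, inv_smul_smul, S.U_fix' o _ (S.vv_spec how hb h1).1]

theorem nact_inv (how : o ≠ w) {b z : G} (hb : b ∈ S.U w) (h1 : b ≠ 1) (hz : z ∈ S.U w)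
    (h2 : z ≠ 1) : S.nact o w b z⁻¹ = (S.nact o w b z)⁻¹ := by
  have hz' := (S.U w).inv_mem hz
  have h2' := inv_ne_one.2 h2
  have hn := S.nact_ne how hb h1 hz h2
  apply S.vv_inj how (S.nact_mem _ _) (S.nact_ne how hb h1 hz' h2')
    ((S.U w).inv_mem (S.nact_mem _ _)) (inv_ne_one.2 hn)
  rw [← S.C1 how hb h1 hz' h2', S.vv_inv how (S.nact_mem _ _) hn, ← S.C1 how hb h1 hz h2]
  group

theorem nact_inv_nact (how : o ≠ w) {b z : G} (hb : b ∈ S.U w) (h1 : b ≠ 1) (hz : z ∈ S.U w)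
    (h2 : z ≠ 1) : S.nact o w b⁻¹ (S.nact o w b z) = z := by
  apply S.U_eq (S.nact_mem _ _) hz how
  rw [S.nact_o how ((S.U w).inv_mem hb) (inv_ne_one.2 h1) (S.nact_mem _ _)
    (S.nact_ne how hb h1 hz h2), S.nn_inv how hb h1, S.nact_o how hb h1 hz h2, inv_smul_smul]

theorem cir_o (how : o ≠ w) {x y : G} (hx : x ∈ S.U w) (hx1 : x ≠ 1) (hy : y ∈ S.U w)
    (hy1 : y ≠ 1) (hxy : x * y ≠ 1) :
    (x * S.nact o w x (x * y)) • o = S.vv o w x • (S.vv o w y • w) := by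
  have hxym := (S.U w).mul_mem hx hy
  rw [mul_smul, S.nact_o how hx hx1 hxym hxy, (S.vv_spec how hy hy1).2]
  unfold nn
  simp only [mul_smul, inv_smul_smul, smul_inv_smul]

theorem cir_ne (how : o ≠ w) {x y : G} (hx : x ∈ S.U w) (hx1 : x ≠ 1) (hy : y ∈ S.U w)
    (hy1 : y ≠ 1) (hxy : x * y ≠ 1) : x * S.nact o w x (x * y) ≠ 1 := by
  intro h
  have h1 := S.cir_o how hx hx1 hy hy1 hxy
  rw [h, one_smul, ← mul_smul] at h1
  have h2 := S.U_fix' o _ ((S.U o).mul_mem (S.vv_spec how hx hx1).1 (S.vv_spec how hy hy1).1)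
  exact how (MulAction.injective _ (h2.trans h1))

theorem cir_mem {x y : G} (hx : x ∈ S.U w) :
    x * S.nact o w x (x * y) ∈ S.U w := (S.U w).mul_mem hx (S.nact_mem _ _)

theorem vv_cir (how : o ≠ w) {x y : G} (hx : x ∈ S.U w) (hx1 : x ≠ 1) (hy : y ∈ S.U w)
    (hy1 : y ≠ 1) (hxy : x * y ≠ 1) :
    S.vv o w (x * S.nact o w x (x * y)) = S.vv o w x * S.vv o w y := by
  have hv := S.vv_spec how (S.cir_mem (y := y) hx) (S.cir_ne how hx hx1 hy hy1 hxy)
  apply S.U_eq hv.1 ((S.U o).mul_mem (S.vv_spec how hx hx1).1 (S.vv_spec how hy hy1).1)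
    how.symm
  rw [hv.2, S.cir_o how hx hx1 hy hy1 hxy, mul_smul]

theorem cir_eq (how : o ≠ w) {x y : G} (hx : x ∈ S.U w) (hx1 : x ≠ 1) (hy : y ∈ S.U w)
    (hy1 : y ≠ 1) (hxy : x * y ≠ 1) :
    x * S.nact o w x (x * y) = S.nact o w y⁻¹ (x * y) * y := by
  have hx' := (S.U w).inv_mem hx
  have hy' := (S.U w).inv_mem hy
  have hxym := (S.U w).mul_mem hx hy
  have hne' : y⁻¹ * x⁻¹ ≠ 1 := by
    rw [← mul_inv_rev]; exact inv_ne_one.2 hxy
  have h1 := S.vv_cir how hy' (inv_ne_one.2 hy1) hx' (inv_ne_one.2 hx1) hne'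
  have hcn := S.cir_ne how hx hx1 hy hy1 hxy
  have h2 : S.vv o w (x * S.nact o w x (x * y))⁻¹
      = S.vv o w (y⁻¹ * S.nact o w y⁻¹ (y⁻¹ * x⁻¹)) := by
    rw [h1, S.vv_inv how (S.cir_mem hx) hcn, S.vv_cir how hx hx1 hy hy1 hxy,
      S.vv_inv how hx hx1, S.vv_inv how hy hy1, mul_inv_rev]
  have h3 := S.vv_inj how ((S.U w).inv_mem (S.cir_mem hx)) (inv_ne_one.2 hcn)
    (S.cir_mem hy') (S.cir_ne how hy' (inv_ne_one.2 hy1) hx' (inv_ne_one.2 hx1) hne') h2
  rw [← mul_inv_rev, S.nact_inv how hy' (inv_ne_one.2 hy1) hxym hxy] at h3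
  rw [← inv_inv (x * S.nact o w x (x * y)), h3]
  group

theorem nact_cir (how : o ≠ w) {b x y : G} (hb : b ∈ S.U w) (h1 : b ≠ 1) (hx : x ∈ S.U w)
    (hx1 : x ≠ 1) (hy : y ∈ S.U w) (hy1 : y ≠ 1) (hxy : x * y ≠ 1) :
    S.nact o w b (x * S.nact o w x (x * y)) = S.nact o w b x * S.nact o w b y := by
  rw [← S.C2 how hb h1 (S.cir_mem hx) (S.cir_ne how hx hx1 hy hy1 hxy),
    S.vv_cir how hx hx1 hy hy1 hxy, ← S.C2 how hb h1 hx hx1, ← S.C2 how hb h1 hy hy1]
  group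

theorem nact_mul_ne (how : o ≠ w) {b x y : G} (hb : b ∈ S.U w) (h1 : b ≠ 1) (hx : x ∈ S.U w)
    (hx1 : x ≠ 1) (hy : y ∈ S.U w) (hy1 : y ≠ 1) (hxy : x * y ≠ 1) :
    S.nact o w b x * S.nact o w b y ≠ 1 := by
  intro h
  have h2 : S.nact o w b y = S.nact o w b x⁻¹ := by
    rw [S.nact_inv how hb h1 hx hx1]
    exact (inv_eq_of_mul_eq_one_right h).symm
  have h3 : y = x⁻¹ := by
    rw [← S.nact_inv_nact how hb h1 hy hy1, h2,
      S.nact_inv_nact how hb h1 ((S.U w).inv_mem hx) (inv_ne_one.2 hx1)]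
  apply hxy
  rw [h3, mul_inv_cancel]

theorem nact_mul (how : o ≠ w) {b x y : G} (hb : b ∈ S.U w) (h1 : b ≠ 1) (hx : x ∈ S.U w)
    (hx1 : x ≠ 1) (hy : y ∈ S.U w) (hy1 : y ≠ 1) (hxy : x * y ≠ 1) :
    S.nact o w b (x * y) = S.nact o w b x *
      S.nact o w (S.nact o w b x) (S.nact o w b x * S.nact o w b y) := by
  have hxym := (S.U w).mul_mem hx hy
  have m1 := S.nact_mem (o := o) (w := w) b x
  have m2 := S.nact_mem (o := o) (w := w) b y
  have n1 := S.nact_ne how hb h1 hx hx1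
  have n2 := S.nact_ne how hb h1 hy hy1
  have n3 := S.nact_mul_ne how hb h1 hx hx1 hy hy1 hxy
  apply S.vv_inj how (S.nact_mem _ _) (S.nact_ne how hb h1 hxym hxy) (S.cir_mem m1)
    (S.cir_ne how m1 n1 m2 n2 n3)
  rw [S.vv_cir how m1 n1 m2 n2 n3, ← S.C1 how hb h1 hxym hxy, ← S.C1 how hb h1 hx hx1,
    ← S.C1 how hb h1 hy hy1]
  group

/-! ### action on the affine points over `w` -/

theorem nn_e (how : o ≠ w) {b : G} (hb : b ∈ S.U w) (h1 : b ≠ 1) {a : Q} (ha : S.pr a = w) :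
    S.nn o w b • S.e o w a = S.T (S.f o w b a) o := by
  unfold nn
  rw [mul_smul, mul_smul, S.U_fix w _ ((S.U w).inv_mem hb) (S.e o w a) (by rw [S.pr_e, ha]),
    S.vv_e how hb h1 ha, S.T_smul, inv_smul_smul,
    S.U_fix w _ ((S.U w).inv_mem hb) _ (S.f_pr how hb a)]

theorem nn_Te (how : o ≠ w) {b : G} (hb : b ∈ S.U w) (h1 : b ≠ 1) {a : Q}
    (ha : S.pr a = w) :
    S.nn o w b • S.T (S.e o w a) o = S.e o w (S.f o w b a) := by
  rw [S.T_smul, S.nn_e how hb h1 ha, S.nn_o how hb h1, S.e_eq' how (S.f_pr how hb a)]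

theorem f_conj (how : o ≠ w) {b z : G} (hb : b ∈ S.U w) (h1 : b ≠ 1) (hz : z ∈ S.U w)
    (h2 : z ≠ 1) {a : Q} (ha : S.pr a = w) :
    S.f o w b (S.f o w z a) = S.f o w (S.nact o w b z)⁻¹ (S.f o w b a) := by
  set k := S.nact o w b z with hk
  have hkm : k ∈ S.U w := S.nact_mem _ _
  have hk1 : k ≠ 1 := S.nact_ne how hb h1 hz h2
  have hko : k • o = S.nn o w b • (z • o) := S.nact_o how hb h1 hz h2
  have hfz := S.f_pr how hz a
  -- apply nn b to T (F_z (e a)) (z o) = T (T (e a) o) (z o)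
  have h3 : S.T (S.f o w z (S.e o w a)) (z • o) = S.T (S.T (S.e o w a) o) (z • o) :=
    S.f_T how hz _
  have h4 : S.nn o w b • S.T (S.f o w z (S.e o w a)) (z • o)
      = S.nn o w b • S.T (S.T (S.e o w a) o) (z • o) := by rw [h3]
  rw [S.T_smul, S.T_smul (S.nn o w b) (S.T (S.e o w a) o), S.f_e how hz,
    S.nn_e how hb h1 hfz, S.nn_Te how hb h1 ha, ← hko] at h4
  -- h4 : T (T (F_b F_z a) o) (k o) = T (e (F_b a)) (k o)
  have h5 : S.f o w k (S.f o w b (S.f o w z a)) = S.e o w (S.f o w b a) := by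
    apply S.f_eq how hkm
    · rw [S.pr_e, S.f_pr how hb]
    · exact h4.symm
  have hki := (S.U w).inv_mem hkm
  have h6 : S.e o w (S.f o w b (S.f o w z a))
      = S.e o w (S.f o w k⁻¹ (S.f o w b a)) := by
    rw [← S.f_e how hki, ← h5, S.f_inv_f how hkm hk1 (S.f_pr how hb _)]
  exact S.e_inj how h6

/-- `F_{x ⊞ y} F_y^{-1} ... `, in the form `F_m a = F_{n x (x y)} F_x c` where `e c = F_y a` -/
theorem f_cir (how : o ≠ w) {x y : G} (hx : x ∈ S.U w) (hx1 : x ≠ 1) (hy : y ∈ S.U w)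
    (hy1 : y ≠ 1) (hxy : x * y ≠ 1) {a c : Q} (ha : S.pr a = w) (hc : S.pr c = w)
    (hec : S.e o w c = S.f o w y a) :
    S.f o w (x * S.nact o w x (x * y)) a
      = S.f o w (S.nact o w x (x * y)) (S.f o w x c) := by
  set k := S.nact o w x (x * y) with hk
  have hkm : k ∈ S.U w := S.nact_mem _ _
  have hm : x * k ∈ S.U w := (S.U w).mul_mem hx hkm
  have hm1 : x * k ≠ 1 := S.cir_ne how hx hx1 hy hy1 hxy
  have e1 : S.vv o w (x * k) • S.e o w a = S.T (S.f o w (x * k) a) ((x * k) • o) :=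
    S.vv_e how hm hm1 ha
  have e2 : S.vv o w (x * k) • S.e o w a
      = S.T (S.T (S.f o w x c) (x • o)) ((x * k) • o) := by
    rw [S.vv_cir how hx hx1 hy hy1 hxy, mul_smul, S.vv_e how hy hy1 ha, S.T_smul,
      ← hec, S.vv_e how hx hx1 hc, S.cir_o how hx hx1 hy hy1 hxy, (S.vv_spec how hy hy1).2]
  have hd := S.f_pr how hx c
  set d := S.f o w x c
  -- T (T d (x o)) (x k o) = x T (T d o) (k o)
  have e3 : S.T (S.T d (x • o)) ((x * k) • o) = S.T (S.f o w k d) ((x * k) • o) := by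
    have e4 : S.T (S.T d (x • o)) ((x * k) • o) = x • S.T (S.T d o) (k • o) := by
      rw [S.T_smul, S.T_smul, S.U_fix w x hx d hd, mul_smul]
    rw [e4, ← S.f_T how hkm, S.T_smul, S.U_fix w x hx _ (S.f_pr how hkm d), mul_smul]
  rw [e1, e3] at e2
  apply S.lift_unique _ _ ((x * k) • o)
  · rw [S.f_pr how hm, S.f_pr how hkm]
  · rw [S.f_pr how hm]; exact S.U_ne hm how
  · exact e2

/-- an element of the two point stabiliser acting on `A` as a fixed point free involution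
is trivial on `X` -/
theorem fpf (how : o ≠ w) {g : G} (ho : g • o = o) (hw : g • w = w)
    (hf : ∀ a, S.pr a = w → g • a ≠ a) (h2 : ∀ a, S.pr a = w → g • (g • a) = a)
    (y : X) : g • y = y := by
  by_contra hne
  have hyw : y ≠ w := by rintro rfl; exact hne hw
  have ha : S.pr (S.T S.pt w) = w := S.pr_T _ _
  set a := S.T S.pt w
  have hgg : g • (g • y) = y := by
    obtain ⟨z, hz, hzo⟩ := S.U_trans w o y how hyw
    have hggw : g • (g • y) ≠ w := by
      intro h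
      apply hyw
      have h3 : g • (g • w) = w := by rw [hw, hw]
      exact MulAction.injective g (MulAction.injective g (h.trans h3.symm))
    obtain ⟨z', hz', hzo'⟩ := S.U_trans w o (g • (g • y)) how hggw
    have h3 : S.T (S.f o w z a) (z • o) = S.T (S.T a o) (z • o) := S.f_T how hz a
    have h4 : g • (g • S.T (S.f o w z a) (z • o)) = g • (g • S.T (S.T a o) (z • o)) := by
      rw [h3]
    rw [S.T_smul, S.T_smul, S.T_smul g (S.T a o), S.T_smul g (g • S.T a o), S.T_smul g a,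
      S.T_smul g (g • a), h2 _ (S.f_pr how hz a), h2 a ha, ho, ho, hzo, ← hzo'] at h4
    have h5 : S.f o w z' a = S.f o w z a := S.f_eq how hz' (S.f_pr how hz a) h4
    have h6 := S.f_inj' how hz' hz h5
    rw [← hzo', h6, hzo]
  -- a point over y
  set p := S.T a y with hp
  have hpp : g • (g • p) = p := by
    rw [hp, S.T_smul, S.T_smul, h2 a ha, hgg]
  have hprp : S.pr p = y := S.pr_T _ _
  have hprgp : S.pr (g • p) = g • y := by rw [S.pr_smul, hprp]
  obtain ⟨r, hr1, hr2⟩ := S.join p (g • p) (by rw [hprp, hprgp]; exact Ne.symm hne)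
  rw [hprp] at hr1
  rw [hprgp] at hr2
  have hgr : g • r = r := by
    apply S.line_unique _ _ y (g • y) (Ne.symm hne)
    · have : g • S.T r (g • y) = g • (g • p) := by rw [hr2]
      rw [S.T_smul, hgg, hpp] at this
      rw [this, hr1]
    · have : g • S.T r y = g • p := by rw [hr1]
      rw [S.T_smul] at this
      rw [this, hr2]
  apply hf (S.T r w) (S.pr_T _ _)
  rw [S.T_smul, hgr, hw]

end Sys

end Pool.Agent.I6
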