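import Mathlib

set_option autoImplicit false

namespace Pool.Agent.I6

/-- word computation for the next lemma -/
theorem tors_word {G : Type} [Group G] {D X Y zi zj : G} (hXY : X * Y = Y * X)
    (ziD : zi * D = D * zi) (ziX : zi * X = X * zi)
    (zjD : zj * D = D * zj) (zjX : zj * X = X * zj) (zjY : zj * Y = Y * zj)
    (hX : D * X = zi * X⁻¹ * D) (hY : D * Y = zj * Y⁻¹ * D)
    (hDX : D * D * X = X * (D * D)) (hDY : D * D * Y = Y * (D * D)) :
    (X * D * X⁻¹) * D * (Y * D * Y⁻¹) * (X * Y * D * (X * Y)⁻¹) = D * D * D * D := by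
  have inv1 : ∀ {Z z : G}, z * Z = Z * z → D * Z = z * Z⁻¹ * D → D * Z⁻¹ = z⁻¹ * Z * D := by
    intro Z z hz hZ
    have h1 : D = z * Z⁻¹ * D * Z⁻¹ := by rw [← hZ]; group
    calc D * Z⁻¹ = z⁻¹ * (z * Z) * Z⁻¹ * D * Z⁻¹ := by group
      _ = z⁻¹ * (Z * z) * Z⁻¹ * D * Z⁻¹ := by rw [hz]
      _ = z⁻¹ * Z * (z * Z⁻¹ * D * Z⁻¹) := by group
      _ = z⁻¹ * Z * D := by rw [← h1]
  have hX' := inv1 ziX hX
  have hY' := inv1 zjY hY
  have hYXY : Y⁻¹ * (X * Y) = X := by rw [hXY]; group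
  have hXYX : X⁻¹ * Y⁻¹ * X = Y⁻¹ := by
    calc X⁻¹ * Y⁻¹ * X = (Y * X)⁻¹ * X := by group
      _ = (X * Y)⁻¹ * X := by rw [hXY]
      _ = Y⁻¹ := by group
  have hD4 : (X * Y) * (D * D * D * D) = (D * D * D * D) * (X * Y) := by
    calc (X * Y) * (D * D * D * D) = X * (Y * (D * D)) * (D * D) := by group
      _ = X * (D * D * Y) * (D * D) := by rw [hDY]
      _ = (X * (D * D)) * (Y * (D * D)) := by group
      _ = (D * D * X) * (D * D * Y) := by rw [hDX, hDY]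
      _ = D * D * (X * (D * D)) * Y := by group
      _ = D * D * (D * D * X) * Y := by rw [hDX]
      _ = (D * D * D * D) * (X * Y) := by group
  have zjXi : X⁻¹ * zj = zj * X⁻¹ := by
    calc X⁻¹ * zj = X⁻¹ * (zj * X) * X⁻¹ := by group
      _ = X⁻¹ * (X * zj) * X⁻¹ := by rw [zjX]
      _ = zj * X⁻¹ := by group
  calc (X * D * X⁻¹) * D * (Y * D * Y⁻¹) * (X * Y * D * (X * Y)⁻¹)
      = X * D * X⁻¹ * D * Y * D * (Y⁻¹ * (X * Y)) * D * (X * Y)⁻¹ := by group
    _ = X * D * X⁻¹ * (D * Y) * (D * X) * D * (X * Y)⁻¹ := by rw [hYXY]; group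
    _ = X * D * X⁻¹ * (zj * Y⁻¹ * D) * (zi * X⁻¹ * D) * D * (X * Y)⁻¹ := by rw [hX, hY]
    _ = X * D * X⁻¹ * zj * Y⁻¹ * (D * zi) * X⁻¹ * D * D * (X * Y)⁻¹ := by group
    _ = X * D * X⁻¹ * zj * Y⁻¹ * (zi * D) * X⁻¹ * D * D * (X * Y)⁻¹ := by rw [← ziD]
    _ = X * D * X⁻¹ * zj * Y⁻¹ * zi * (D * X⁻¹) * D * D * (X * Y)⁻¹ := by group
    _ = X * D * X⁻¹ * zj * Y⁻¹ * zi * (zi⁻¹ * X * D) * D * D * (X * Y)⁻¹ := by rw [hX']
    _ = X * D * (X⁻¹ * zj) * Y⁻¹ * X * D * D * D * (X * Y)⁻¹ := by group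
    _ = X * D * (zj * X⁻¹) * Y⁻¹ * X * D * D * D * (X * Y)⁻¹ := by rw [zjXi]
    _ = X * (D * zj) * (X⁻¹ * Y⁻¹ * X) * D * D * D * (X * Y)⁻¹ := by group
    _ = X * (zj * D) * Y⁻¹ * D * D * D * (X * Y)⁻¹ := by rw [hXYX, ← zjD]
    _ = X * zj * (D * Y⁻¹) * D * D * D * (X * Y)⁻¹ := by group
    _ = X * zj * (zj⁻¹ * Y * D) * D * D * D * (X * Y)⁻¹ := by rw [hY']
    _ = (X * Y) * (D * D * D * D) * (X * Y)⁻¹ := by group
    _ = (D * D * D * D) * (X * Y) * (X * Y)⁻¹ := by rw [hD4]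
    _ = D * D * D * D := by group

theorem tors_group {G : Type} [Group G] {p : ℕ} [hp : Fact p.Prime] (f : ZMod p → G) (E : G)
    (h1 : ∀ r s, r ≠ 0 → s ≠ 0 → f s * f r = f (s * s * r⁻¹) * f s)
    (h2 : ∀ r, r ≠ 0 → f (-r) * f r = E)
    (h3 : ∀ r s, r ≠ 0 → s ≠ 0 → r + s ≠ 0 →
      f (r * s * (r + s)⁻¹) = f r * (f (r + s))⁻¹ * f s) :
    f 1 * f 1 * f 1 * f 1 = E * E := by
  have h2' : ∀ r, r ≠ 0 → f r * f (-r) = E := by
    intro r hr
    have := h2 (-r) (neg_ne_zero.2 hr)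
    rwa [neg_neg] at this
  have hE : ∀ r, r ≠ 0 → E * f r = f r * E := by
    intro r hr
    calc E * f r = (f r * f (-r)) * f r := by rw [h2' r hr]
      _ = f r * (f (-r) * f r) := by group
      _ = f r * E := by rw [h2 r hr]
  have one_ne : (1 : ZMod p) ≠ 0 := one_ne_zero
  have hphi : ∀ r s, r ≠ 0 → s ≠ 0 → f r * f r * f s = f s * (f r * f r) := by
    intro r s hr hs
    have hrs : r * r * s⁻¹ ≠ 0 := mul_ne_zero (mul_ne_zero hr hr) (inv_ne_zero hs)
    have e1 := h1 s r hs hr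
    have e2 := h1 (r * r * s⁻¹) r hrs hr
    have e3 : r * r * (r * r * s⁻¹)⁻¹ = s := by field_simp
    rw [e3] at e2
    calc f r * f r * f s = f r * (f r * f s) := by group
      _ = f r * (f (r * r * s⁻¹) * f r) := by rw [e1]
      _ = (f r * f (r * r * s⁻¹)) * f r := by group
      _ = f s * f r * f r := by rw [e2]
      _ = f s * (f r * f r) := by group
  set D := f 1 with hD
  by_cases hsq : IsSquare (-1 : ZMod p)
  · obtain ⟨w, hw⟩ := hsq
    have hw0 : w ≠ 0 := by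
      rintro rfl
      rw [mul_zero] at hw
      exact one_ne (neg_eq_zero.1 hw)
    have e1 := h1 1 w one_ne hw0
    rw [inv_one, mul_one, ← hw, ← hD] at e1
    -- f w * D = f (-1) * f w
    have e2 := hphi 1 w one_ne hw0
    rw [← hD] at e2
    have e3 : f (-1) * f (-1) = D * D := by
      calc f (-1) * f (-1) = (f (-1) * f w) * (f w)⁻¹ * f (-1) := by group
        _ = (f w * D) * (f w)⁻¹ * f (-1) := by rw [← e1]
        _ = f w * D * (f w)⁻¹ * (f (-1) * f w) * (f w)⁻¹ := by group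
        _ = f w * D * (f w)⁻¹ * (f w * D) * (f w)⁻¹ := by rw [← e1]
        _ = (f w * (D * D)) * (f w)⁻¹ := by group
        _ = (D * D * f w) * (f w)⁻¹ := by rw [e2]
        _ = D * D := by group
    have e4 : f (-1) * D = E := h2 1 one_ne
    have e5 : D * f (-1) = E := h2' 1 one_ne
    calc D * D * D * D = (D * D) * D * D := by group
      _ = (f (-1) * f (-1)) * D * D := by rw [e3]
      _ = f (-1) * (f (-1) * D) * D := by group
      _ = f (-1) * (E * D) := by rw [e4]; group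
      _ = f (-1) * (D * E) := by rw [hE 1 one_ne]
      _ = (f (-1) * D) * E := by group
      _ = E * E := by rw [e4]
  · obtain ⟨x, y, hxy⟩ := ZMod.sq_add_sq p (-1)
    have hx : x ≠ 0 := by
      rintro rfl
      exact hsq ⟨y, by rw [← hxy]; ring⟩
    have hy : y ≠ 0 := by
      rintro rfl
      exact hsq ⟨x, by rw [← hxy]; ring⟩
    obtain ⟨g, hg⟩ := IsCyclic.exists_generator (α := (ZMod p)ˣ)
    obtain ⟨i, hi⟩ := (Submonoid.mem_powers_iff _ _).1
      (mem_powers_iff_mem_zpowers.2 (hg (Units.mk0 x hx)))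
    obtain ⟨j, hj⟩ := (Submonoid.mem_powers_iff _ _).1
      (mem_powers_iff_mem_zpowers.2 (hg (Units.mk0 y hy)))
    have hi' : (g : ZMod p) ^ i = x := by
      rw [← Units.val_pow_eq_pow_val, hi, Units.val_mk0]
    have hj' : (g : ZMod p) ^ j = y := by
      rw [← Units.val_pow_eq_pow_val, hj, Units.val_mk0]
    obtain ⟨c, hc⟩ : ∃ c : ZMod p, c = g := ⟨_, rfl⟩
    rw [← hc] at hi' hj'
    have hc0 : c ≠ 0 := by rw [hc]; exact g.ne_zero
    obtain ⟨a, ha⟩ : ∃ a : G, a = f c * D⁻¹ := ⟨_, rfl⟩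
    obtain ⟨z, hz⟩ : ∃ z : G, z = f c * f c * (D * D)⁻¹ := ⟨_, rfl⟩
    have cc := hphi c 1 hc0 one_ne
    have DDc := hphi 1 c one_ne hc0
    rw [← hD] at cc DDc
    -- a conj
    have hconj : ∀ r, r ≠ 0 → f (c * c * r) = a * f r * a⁻¹ := by
      intro r hr
      have e1 := h1 r 1 hr one_ne
      rw [mul_one, one_mul, ← hD] at e1
      -- D * f r = f r⁻¹ * D
      have e1' := h1 r⁻¹ 1 (inv_ne_zero hr) one_ne
      rw [mul_one, one_mul, inv_inv, ← hD] at e1'
      have e2 := h1 r⁻¹ c (inv_ne_zero hr) hc0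
      rw [inv_inv] at e2
      -- f c * f r⁻¹ = f (c c r) * f c ; D * f r⁻¹ = f r * D
      calc f (c * c * r) = (f (c * c * r) * f c) * (f c)⁻¹ := by group
        _ = f c * f r⁻¹ * (f c)⁻¹ := by rw [← e2]
        _ = f c * D⁻¹ * (D * f r⁻¹) * (f c)⁻¹ := by group
        _ = f c * D⁻¹ * (f r * D) * (f c)⁻¹ := by rw [e1']
        _ = a * f r * a⁻¹ := by rw [ha]; group
    have hpow : ∀ k : ℕ, f (c ^ k * c ^ k) = a ^ k * D * (a ^ k)⁻¹ := by
      intro k
      induction k with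
      | zero => simp [hD]
      | succ n ih =>
        have : c ^ (n + 1) * c ^ (n + 1) = c * c * (c ^ n * c ^ n) := by ring
        rw [this, hconj _ (mul_ne_zero (pow_ne_zero _ hc0) (pow_ne_zero _ hc0)), ih, pow_succ']
        group
    have cF : Commute (f c * f c) D := cc
    have dF : Commute (D * D) (f c) := DDc
    have zD : Commute z D :=
      hz ▸ cF.mul_left (((Commute.refl D).mul_left (Commute.refl D)).inv_left)
    have zF : Commute z (f c) :=
      hz ▸ ((Commute.refl (f c)).mul_left (Commute.refl (f c))).mul_left dF.inv_left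
    have za : Commute z a := ha ▸ zF.mul_right zD.inv_right
    have dda : Commute (D * D) a :=
      ha ▸ dF.mul_right (((Commute.refl D).mul_left (Commute.refl D)).inv_right)
    have hDa : D * a = z * a⁻¹ * D := by
      rw [ha, hz]
      calc D * (f c * D⁻¹) = D⁻¹ * (D * D * f c) * D⁻¹ := by group
        _ = D⁻¹ * (f c * (D * D)) * D⁻¹ := by rw [DDc]
        _ = D⁻¹ * (f c * f c * D) * D⁻¹ * (f c)⁻¹ * D := by group
        _ = D⁻¹ * (D * (f c * f c)) * D⁻¹ * (f c)⁻¹ * D := by rw [cc]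
        _ = f c * f c * (D * D)⁻¹ * (f c * D⁻¹)⁻¹ * D := by group
    have hDk : ∀ k : ℕ, D * a ^ k = z ^ k * (a ^ k)⁻¹ * D := by
      intro k
      induction k with
      | zero => simp
      | succ n ih =>
        have e1 : (a ^ n)⁻¹ * z = z * (a ^ n)⁻¹ := ((za.pow_right n).inv_right).symm
        calc D * a ^ (n + 1) = (D * a ^ n) * a := by rw [pow_succ]; group
          _ = z ^ n * (a ^ n)⁻¹ * (D * a) := by rw [ih]; group
          _ = z ^ n * ((a ^ n)⁻¹ * z) * a⁻¹ * D := by rw [hDa]; group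
          _ = z ^ n * (z * (a ^ n)⁻¹) * a⁻¹ * D := by rw [e1]
          _ = z ^ (n + 1) * (a ^ (n + 1))⁻¹ * D := by
            rw [pow_succ z, pow_succ' a, mul_inv_rev]; group
    have key := tors_word (D := D) (X := a ^ i) (Y := a ^ j) (zi := z ^ i) (zj := z ^ j)
      (by rw [← pow_add, ← pow_add, add_comm]) (zD.pow_left i) ((za.pow_left i).pow_right i)
      (zD.pow_left j) ((za.pow_left j).pow_right i) ((za.pow_left j).pow_right j)
      (hDk i) (hDk j) (dda.pow_right i) (dda.pow_right j)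
    rw [← hpow i, ← hpow j, ← pow_add a i j, ← hpow (i + j)] at key
    rw [← key]
    have hxx : c ^ i * c ^ i ≠ 0 := mul_ne_zero (pow_ne_zero _ hc0) (pow_ne_zero _ hc0)
    have hyy : c ^ j * c ^ j ≠ 0 := mul_ne_zero (pow_ne_zero _ hc0) (pow_ne_zero _ hc0)
    have hxxyy : c ^ (i + j) * c ^ (i + j) ≠ 0 :=
      mul_ne_zero (pow_ne_zero _ hc0) (pow_ne_zero _ hc0)
    have hsum : c ^ i * c ^ i + c ^ j * c ^ j = -1 := by
      rw [hi', hj', ← hxy]; ring
    have e1 := h3 _ _ hxx hyy (by rw [hsum]; exact neg_ne_zero.2 one_ne)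
    rw [hsum] at e1
    have e2 : c ^ i * c ^ i * (c ^ j * c ^ j) * (-1)⁻¹ = -(c ^ (i + j) * c ^ (i + j)) := by
      rw [pow_add, inv_neg, inv_one]; ring
    rw [e2] at e1
    have e3 := h2 _ hxxyy
    have e4 : f (-1) * D = E := h2 1 one_ne
    have e5 : (f (-1))⁻¹ = D * E⁻¹ := by rw [← e4]; group
    have e6 : E⁻¹ * f (c ^ j * c ^ j) = f (c ^ j * c ^ j) * E⁻¹ := by
      have : Commute E (f (c ^ j * c ^ j)) := hE _ hyy
      exact this.inv_left
    have e7 : E⁻¹ * f (c ^ (i + j) * c ^ (i + j)) = f (c ^ (i + j) * c ^ (i + j)) * E⁻¹ := by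
      have : Commute E (f (c ^ (i + j) * c ^ (i + j))) := hE _ hxxyy
      exact this.inv_left
    symm
    calc E * E = (f (-(c ^ (i + j) * c ^ (i + j))) * f (c ^ (i + j) * c ^ (i + j))) * E := by
          rw [e3]
      _ = f (c ^ i * c ^ i) * (D * E⁻¹) * f (c ^ j * c ^ j) * f (c ^ (i + j) * c ^ (i + j)) *
          E := by rw [e1, e5]
      _ = f (c ^ i * c ^ i) * D * (E⁻¹ * f (c ^ j * c ^ j)) * f (c ^ (i + j) * c ^ (i + j)) *
          E := by group
      _ = f (c ^ i * c ^ i) * D * f (c ^ j * c ^ j) *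
          (E⁻¹ * f (c ^ (i + j) * c ^ (i + j))) * E := by rw [e6]; group
      _ = f (c ^ i * c ^ i) * D * f (c ^ j * c ^ j) * f (c ^ (i + j) * c ^ (i + j)) := by
          rw [e7]; group

end Pool.Agent.I6
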