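import Pool.Agent.Lib_MP_f98417_co.Comm
import Pool.Agent.Lib_MP_f98417_co.TorsGroup

set_option autoImplicit false

namespace Pool.Agent.I6.Alg

variable {M A : Type} [AddGroup M] (S : Alg M A)

/-- `x_k` -/
def dv (k : ℕ) (x : M) : M := -(S.n x (k • x))

theorem ne_of_nsmul {k : ℕ} {x : M} (h : k • x ≠ 0) : x ≠ 0 := by
  rintro rfl; exact h (nsmul_zero k)

theorem dv_ne {k : ℕ} {x : M} (h : k • x ≠ 0) : S.dv k x ≠ 0 :=
  neg_ne_zero.2 (S.n_ne (ne_of_nsmul h) h)

theorem n_dv {b x : M} (hb : b ≠ 0) {k : ℕ} (h : k • x ≠ 0) :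
    S.n b (S.dv k x) = k • S.n b x := by
  have hx := ne_of_nsmul h
  have h1 : S.phi hb hx (k • x) = k • S.phi hb hx x := map_nsmul _ _ _
  rw [S.phi_apply hb hx h, S.phi_apply hb hx hx, S.n_self hx, S.n_neg hb hx] at h1
  unfold dv
  rw [S.n_neg hb (S.n_ne hx h), h1, neg_nsmul, neg_neg]

theorem nsmul_n_ne {b y : M} (hb : b ≠ 0) (hy : y ≠ 0) {k : ℕ} :
    k • S.n b y ≠ 0 ↔ k • y ≠ 0 := by
  have hy' : -y ≠ 0 := neg_ne_zero.2 hy
  have h1 : S.n b y = S.phi hb hy' (-y) := by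
    rw [S.phi_apply hb hy' hy', S.n_self hy', neg_neg]
  rw [h1, ← map_nsmul, neg_nsmul]
  constructor
  · intro h h'
    apply h
    rw [h', neg_zero, map_zero]
  · intro h h'
    apply h
    have := (S.phi hb hy').map_eq_zero_iff.1 h'
    exact neg_eq_zero.1 this

theorem nsmul_dv (k : ℕ) : 1 ≤ k → ∀ x : M, (∀ j, 1 ≤ j → j ≤ k → j • x ≠ 0) →
    k • S.dv k x = x := by
  induction k using Nat.strong_induction_on with
  | _ k IH =>
  intro hk x hx
  rcases Nat.lt_or_ge 1 k with h1 | h1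
  swap
  · have : k = 1 := le_antisymm h1 hk
    subst this
    have hx0 : x ≠ 0 := by simpa using hx 1 le_rfl le_rfl
    simp [dv, S.n_self hx0]
  obtain ⟨m, rfl⟩ : ∃ m, k = m + 1 := ⟨k - 1, by omega⟩
  have hm : 1 ≤ m := by omega
  have hx0 : x ≠ 0 := by simpa using hx 1 le_rfl (by omega)
  have hdj : ∀ j, 1 ≤ j → j ≤ m → j • S.dv j x = x := fun j hj hjm =>
    IH j (by omega) hj x (fun i hi hij => hx i hi (by omega))
  have h2 : ∀ j, 1 ≤ j → j ≤ m → (m + 1) • S.dv j x ≠ 0 := by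
    intro j hj hjm h
    apply hx (m + 1) (by omega) le_rfl
    nth_rewrite 1 [← hdj j hj hjm]
    rw [← mul_nsmul', mul_comm, mul_nsmul', h, nsmul_zero]
  have hmx : (m + 1) • x ≠ 0 := hx (m + 1) (by omega) le_rfl
  obtain ⟨u, hu⟩ : ∃ u, u = S.dv (m + 1) x := ⟨_, rfl⟩
  have hu0 : u ≠ 0 := hu ▸ S.dv_ne hmx
  have hnu : S.n x u = (m + 1) • S.n x x := by rw [hu]; exact S.n_dv hx0 hmx
  have hju : ∀ j, 1 ≤ j → j ≤ m → j • u ≠ 0 := by
    intro j hj hjm
    rw [← S.nsmul_n_ne hx0 hu0, hnu]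
    have h3 := S.n_dv hx0 (h2 j hj hjm)
    rw [S.n_dv hx0 (hx j hj (by omega))] at h3
    rw [← mul_nsmul', mul_comm, mul_nsmul', ← h3]
    exact S.n_ne hx0 (S.dv_ne (h2 j hj hjm))
  have IHu : m • S.dv m u = u := IH m (by omega) hm u hju
  -- u = x_m + n x_m (x_m + x)
  obtain ⟨w, hw⟩ : ∃ w, w = S.dv m x := ⟨_, rfl⟩
  have hmw : m • w = x := by rw [hw]; exact hdj m hm le_rfl
  have hw0 : w ≠ 0 := hw ▸ S.dv_ne (hx m hm (by omega))
  have hwx : w + x = (m + 1) • w := by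
    nth_rewrite 1 [← hmw]
    rw [succ_nsmul']
  have hm1w : (m + 1) • w ≠ 0 := by rw [hw]; exact h2 m hm le_rfl
  have hwx0 : w + x ≠ 0 := by rw [hwx]; exact hm1w
  have hnw : S.n x w = m • S.n x x := by rw [hw]; exact S.n_dv hx0 (hx m hm (by omega))
  have e1 : u = w + S.n w (w + x) := by
    apply S.n_inj hx0 hu0 (S.cir_ne hw0 hx0 hwx0)
    rw [S.n_cir hx0 hw0 hx0 hwx0, hnu, hnw, succ_nsmul]
  have e2 : u = w + -(S.dv (m + 1) w) := by
    rw [e1, hwx]
    unfold dv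
    rw [neg_neg]
  have e3 : S.dv (m + 1) w = S.dv m u := by
    apply S.n_inj hx0 (S.dv_ne hm1w) (S.dv_ne (hju m hm le_rfl))
    rw [S.n_dv hx0 hm1w, S.n_dv hx0 (hju m hm le_rfl), hnw, hnu, ← mul_nsmul', ← mul_nsmul',
      mul_comm]
  obtain ⟨y, hy⟩ : ∃ y, y = S.dv m u := ⟨_, rfl⟩
  rw [← hy] at e3 IHu
  rw [e3] at e2
  have e4 : w = (m + 1) • y := by
    have : w = u + y := by rw [e2]; simp
    rw [this, ← IHu, succ_nsmul]
  rw [← hu, ← IHu, ← hmw, e4, ← mul_nsmul', ← mul_nsmul', mul_comm]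

include S in
/-- elements of finite order have prime order -/
theorem prime_order {x : M} (hx : x ≠ 0) {N : ℕ} (hN : 0 < N) (h : N • x = 0) :
    (addOrderOf x).Prime := by
  have hfin : IsOfFinAddOrder x := isOfFinAddOrder_iff_nsmul_eq_zero.2 ⟨N, hN, h⟩
  have hpos : 0 < addOrderOf x := hfin.addOrderOf_pos
  have hne1 : addOrderOf x ≠ 1 := fun h => hx (AddMonoid.addOrderOf_eq_one_iff.1 h)
  by_contra hnp
  obtain ⟨j, ⟨k, hjk⟩, hj2, hjm⟩ := Nat.exists_dvd_of_not_prime2 (by omega) hnp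
  have hk0 : 0 < k := by
    rcases Nat.eq_zero_or_pos k with h0 | h0
    · rw [h0, mul_zero] at hjk; omega
    · exact h0
  have hkm : k < addOrderOf x := by
    rw [hjk]; nlinarith
  have hlt : ∀ i, 1 ≤ i → i < addOrderOf x → i • x ≠ 0 := by
    intro i hi him h0
    have := addOrderOf_le_of_nsmul_eq_zero (by omega) h0
    omega
  have e1 : j • S.dv j x = x :=
    S.nsmul_dv j (by omega) x (fun i hi hij => hlt i hi (by omega))
  have hjx := hlt j (by omega) hjm
  have e2 : k • S.dv j x ≠ 0 := by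
    intro h0
    apply hlt k hk0 hkm
    nth_rewrite 1 [← e1]
    rw [← mul_nsmul', mul_comm, mul_nsmul', h0, nsmul_zero]
  have e3 := S.n_dv hx e2
  rw [S.n_dv hx hjx, S.n_self hx, ← mul_nsmul', mul_comm k j, ← hjk, neg_nsmul,
    addOrderOf_nsmul_eq_zero, neg_zero] at e3
  exact S.n_ne hx (S.dv_ne e2) e3

section prime

variable {p : ℕ} [hp : Fact p.Prime]

theorem dv_eq {b : M} (hb : b ≠ 0) (hpb : p • b = 0) {k k' : ℕ} (hk : ¬ p ∣ k) (hk1 : k < p)
    (hkk : k' * k ≡ 1 [MOD p]) : S.dv k b = k' • b := by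
  have hord : addOrderOf b = p := by
    have := addOrderOf_dvd_of_nsmul_eq_zero hpb
    rcases (Nat.dvd_prime hp.1).1 this with h | h
    · exact absurd (AddMonoid.addOrderOf_eq_one_iff.1 h) hb
    · exact h
  have hne : ∀ j, ¬ p ∣ j → j • b ≠ 0 := by
    intro j hj h0
    apply hj
    rw [← hord]
    exact addOrderOf_dvd_of_nsmul_eq_zero h0
  have hk0 : 0 < k := Nat.pos_of_ne_zero (by rintro rfl; exact hk (dvd_zero p))
  have e1 : k • S.dv k b = b := S.nsmul_dv k hk0 b (fun j hj hjk => hne j (fun hd => by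
    have := Nat.le_of_dvd (by omega) hd
    omega))
  have e2 : p • S.dv k b = 0 := by
    by_contra h
    have h1 := (S.nsmul_n_ne hb (S.dv_ne (hne k hk))).2 h
    apply h1
    rw [S.n_dv hb (hne k hk), S.n_self hb, ← mul_nsmul', mul_comm, mul_nsmul', neg_nsmul, hpb,
      neg_zero, nsmul_zero]
  have hd0 : S.dv k b ≠ 0 := S.dv_ne (hne k hk)
  have hord2 : addOrderOf (S.dv k b) = p := by
    have := addOrderOf_dvd_of_nsmul_eq_zero e2
    rcases (Nat.dvd_prime hp.1).1 this with h | h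
    · exact absurd (AddMonoid.addOrderOf_eq_one_iff.1 h) hd0
    · exact h
  have e3 : (k' * k) • S.dv k b = 1 • S.dv k b := by
    rw [nsmul_eq_nsmul_iff_modEq, hord2]
    exact hkk
  rw [mul_nsmul', e1, one_nsmul] at e3
  exact e3.symm

/-- the embedding of `ZMod p` given by an element of order `p` -/
noncomputable def iota (b : M) (hpb : p • b = 0) : ZMod p →+ M :=
  ZMod.lift p ⟨zmultiplesHom M b, by simpa using hpb⟩

theorem iota_nat {b : M} (hpb : p • b = 0) (k : ℕ) : iota b hpb (k : ZMod p) = k • b := by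
  have h : iota b hpb ((k : ℤ) : ZMod p) = (k : ℤ) • b := by
    unfold iota
    rw [ZMod.lift_coe]
    rfl
  simpa using h

theorem iota_ne {b : M} (hb : b ≠ 0) (hpb : p • b = 0) {r : ZMod p} (hr : r ≠ 0) :
    iota b hpb r ≠ 0 := by
  intro h
  obtain ⟨k, rfl⟩ : ∃ k : ℕ, (k : ZMod p) = r := ⟨r.val, by simp⟩
  rw [iota_nat] at h
  have h1 := addOrderOf_dvd_of_nsmul_eq_zero h
  have h2 := addOrderOf_dvd_of_nsmul_eq_zero hpb
  rcases (Nat.dvd_prime hp.1).1 h2 with h3 | h3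
  · exact hb (AddMonoid.addOrderOf_eq_one_iff.1 h3)
  · rw [h3] at h1
    exact hr ((ZMod.natCast_eq_zero_iff _ _).2 h1)

theorem n_iota {b : M} (hb : b ≠ 0) (hpb : p • b = 0) {r s : ZMod p} (hr : r ≠ 0) (hs : s ≠ 0) :
    S.n (iota b hpb s) (iota b hpb r) = -(iota b hpb (s * s * r⁻¹)) := by
  obtain ⟨c, hc⟩ : ∃ c, c = iota b hpb s := ⟨_, rfl⟩
  have hc0 : c ≠ 0 := hc ▸ iota_ne hb hpb hs
  have hpc : p • c = 0 := by
    rw [hc, ← map_nsmul]
    simp
  -- k = r / s
  obtain ⟨k, hk⟩ : ∃ k : ℕ, k = (r * s⁻¹ : ZMod p).val := ⟨_, rfl⟩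
  obtain ⟨k', hk'⟩ : ∃ k' : ℕ, k' = (s * r⁻¹ : ZMod p).val := ⟨_, rfl⟩
  have hkz : (k : ZMod p) = r * s⁻¹ := by rw [hk]; simp
  have hkz' : (k' : ZMod p) = s * r⁻¹ := by rw [hk']; simp
  have hkp : k < p := by rw [hk]; exact ZMod.val_lt _
  have hkd : ¬ p ∣ k := by
    intro h
    have := (ZMod.natCast_eq_zero_iff k p).2 h
    rw [hkz] at this
    exact mul_ne_zero hr (inv_ne_zero hs) this
  have hmod : k' * k ≡ 1 [MOD p] := by
    rw [← ZMod.natCast_eq_natCast_iff]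
    push_cast
    rw [hkz, hkz']
    field_simp
  have e1 := S.dv_eq hc0 hpc hkd hkp hmod
  have e2 : k • c = iota b hpb r := by
    rw [hc, ← map_nsmul, nsmul_eq_mul, hkz]
    congr 1
    field_simp
  have e3 : k' • c = iota b hpb (s * s * r⁻¹) := by
    rw [hc, ← map_nsmul, nsmul_eq_mul, hkz']
    congr 1
    ring
  unfold dv at e1
  rw [e2, e3] at e1
  rw [← hc, ← e1, neg_neg]

/-- for an element of odd prime order, `n b` squares to the identity -/
theorem sq_of_prime {b : M} (hb : b ≠ 0) (hpb : p • b = 0) (hbb : b + b ≠ 0) {z : M}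
    (hz : z ≠ 0) : S.n b (S.n b z) = z := by
  apply S.sq_triv hb hbb _ hz
  have key := tors_group (G := Equiv.Perm A) (p := p) (fun r => S.F (iota b hpb r)) S.E
    (by
      intro r s hr hs
      have := S.F_conj (iota_ne hb hpb hs) (iota_ne hb hpb hr)
      rw [S.n_iota hb hpb hr hs, neg_neg] at this
      exact this)
    (by
      intro r hr
      show S.F (iota b hpb (-r)) * S.F (iota b hpb r) = S.E
      rw [map_neg]
      exact S.F_neg_mul (iota_ne hb hpb hr))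
    (by
      intro r s hr hs hrs
      have hne : iota b hpb r + iota b hpb s ≠ 0 := by
        rw [← map_add]; exact iota_ne hb hpb hrs
      have := S.F_cir (iota_ne hb hpb hr) (iota_ne hb hpb hs) hne
      rw [← map_add, S.n_iota hb hpb hrs hr, ← map_neg, ← map_add] at this
      show S.F (iota b hpb (r * s * (r + s)⁻¹)) =
        S.F (iota b hpb r) * (S.F (iota b hpb (r + s)))⁻¹ * S.F (iota b hpb s)
      rw [← this]
      congr 2
      field_simp
      ring)
  have h1 : iota b hpb 1 = b := by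
    have := iota_nat hpb 1
    simpa using this
  simp only [h1] at key
  exact key

end prime

include S in
/-- if every element has finite order then the group is commutative -/
theorem comm_of_periodic (hper : ∀ z : M, ∃ k : ℕ, 0 < k ∧ k • z = 0) (x y : M) :
    x + y = y + x := by
  by_cases hinv : ∀ z : M, z ≠ 0 → z + z ≠ 0
  · apply S.comm_of_all_sq hinv
    intro b z hb hz
    obtain ⟨k, hk, hkb⟩ := hper b
    have hprime := S.prime_order hb hk hkb
    haveI : Fact (addOrderOf b).Prime := ⟨hprime⟩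
    exact S.sq_of_prime (p := addOrderOf b) hb (addOrderOf_nsmul_eq_zero b) (hinv b hb) hz
  · push Not at hinv
    obtain ⟨t, ht, htt⟩ := hinv
    have h2 := S.exp_two_of_involution ht htt
    have hxy := neg_invol (h2 (x + y))
    rw [neg_add_rev, neg_invol (h2 x), neg_invol (h2 y)] at hxy
    exact hxy.symm

end Pool.Agent.I6.Alg
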